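import Mathlib

/-!
# Tanaka–Ito maps: the coupling of two parameters (MP_0c85a0_an)
-/

namespace Pool.Agent.TI

noncomputable section

open Finset

/-- The Tanaka–Ito map `T_α(x) = 1/x - ⌊1/x + 1 - α⌋` (in Lean `1/0 = 0`, so `T_α(0) = 0` for `0 < α ≤ 1`). -/
def T (α x : ℝ) : ℝ := 1 / x - ⌊1 / x + 1 - α⌋

theorem T_mem (α x : ℝ) : T α x ∈ Set.Ico (α - 1) α := by
  unfold T
  have h1 := Int.floor_le (1 / x + 1 - α)
  have h2 := Int.lt_floor_add_one (1 / x + 1 - α)
  constructor <;> linarith

theorem T_congr (α x : ℝ) : ∃ k : ℤ, T α x = 1 / x - k := ⟨_, rfl⟩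

theorem T_eq {α x : ℝ} {k : ℤ} (h1 : α - 1 ≤ 1 / x - k) (h2 : 1 / x - k < α) : T α x = 1 / x - k := by
  unfold T
  have : ⌊1 / x + 1 - α⌋ = k := by
    rw [Int.floor_eq_iff]
    constructor <;> linarith
  rw [this]

theorem T_irr {α x : ℝ} (hx : Irrational x) : Irrational (T α x) := by
  unfold T
  have h : Irrational (1 / x) := by
    rw [one_div]
    exact irrational_inv_iff.mpr hx
  exact h.sub_intCast _

/-- the derivative weight `|x| |T x| ⋯ |T^{n-1} x|` -/
def W (α x : ℝ) (n : ℕ) : ℝ := ∏ j ∈ range n, |(T α)^[j] x|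

theorem W_zero (α x : ℝ) : W α x 0 = 1 := by simp [W]

theorem W_add (α x : ℝ) (m n : ℕ) : W α x (m + n) = W α x m * W α ((T α)^[m] x) n := by
  unfold W
  rw [Finset.prod_range_add]
  congr 1
  apply Finset.prod_congr rfl
  intro j _
  rw [add_comm m j, Function.iterate_add_apply]

theorem W_one (α x : ℝ) : W α x 1 = |x| := by simp [W]

theorem W_two (α x : ℝ) : W α x 2 = |x| * |T α x| := by
  unfold W
  rw [Finset.prod_range_succ, Finset.prod_range_one]
  rfl

/-- the two relations between the orbits: `same = true`: `A - B ∈ ℤ`, `same = false`: `A + B ∈ ℤ` -/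
def Rel (same : Bool) (A B : ℝ) : Prop :=
  if same then ∃ k : ℤ, A - B = k else ∃ k : ℤ, A + B = k

/-- potential of a relation -/
def pot (same : Bool) : ℕ := if same then 0 else 1

/-- one transition of the coupling -/
theorem step {α β A B : ℝ} {same : Bool} (hα : 0 < α) (hg : 1 ≤ α + α ^ 2) (hαβ : α < β) (hβ : β ≤ 1)
    (hA : A ∈ Set.Ico (β - 1) β) (hB : B ∈ Set.Ico (α - 1) α) (hAi : Irrational A) (hR : Rel same A B) :
    ∃ (a b : ℕ) (same' : Bool), 1 ≤ b ∧ b ≤ 2 ∧ b + pot same' ≤ a + pot same ∧
      Rel same' ((T β)^[a] A) ((T α)^[b] B) ∧ W β A a = W α B b := by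
  obtain ⟨hA1, hA2⟩ := hA
  obtain ⟨hB1, hB2⟩ := hB
  have hinv : 1 / α - 1 ≤ α := by
    have : 1 / α ≤ 1 + α := by
      rw [div_le_iff₀ hα]; nlinarith
    linarith
  have hA0 : A ≠ 0 := hAi.ne_zero
  cases same with
  | true =>
    obtain ⟨k, hk⟩ := (by simpa [Rel] using hR : ∃ k : ℤ, A - B = k)
    -- `k = 0` or `k = 1`
    have hk1 : (k : ℝ) < 2 := by rw [← hk]; linarith
    have hk2 : (-1 : ℝ) < k := by rw [← hk]; linarith
    have hk1' : k < 2 := by exact_mod_cast hk1
    have hk2' : -1 < k := by exact_mod_cast hk2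
    have hk3 : k = 0 ∨ k = 1 := by omega
    rcases hk3 with rfl | rfl
    · -- state E
      have hAB : A = B := by
        push_cast at hk; linarith
      subst hAB
      refine ⟨1, 1, true, le_refl _, by norm_num, by simp [pot], ?_, by rw [W_one, W_one]⟩
      obtain ⟨i, hi⟩ := T_congr β A
      obtain ⟨j, hj⟩ := T_congr α A
      simp only [Rel, if_true, Function.iterate_one]
      refine ⟨j - i, ?_⟩
      rw [hi, hj]; push_cast; ring
    · -- state S
      have hAB : B = A - 1 := by
        push_cast at hk; linarith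
      subst hAB
      have hAα : α ≤ A := by linarith
      have hA0' : 0 < A := by linarith
      have h1A : 0 < 1 - A := by linarith
      have hstep : T β A = 1 / A - 1 := by
        have h1 : 1 / A ≤ 1 / α := one_div_le_one_div_of_le hα hAα
        have h2 : 1 ≤ 1 / A := by rw [le_div_iff₀ hA0']; linarith
        have := T_eq (α := β) (x := A) (k := 1) (by push_cast; linarith) (by push_cast; linarith)
        simpa using this
      have hstep' : T β A = (1 - A) / A := by rw [hstep]; field_simp
      refine ⟨2, 1, false, le_refl _, by norm_num, by simp [pot], ?_, ?_⟩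
      · simp only [Rel, Function.iterate_succ, Function.iterate_zero, Function.comp_apply, id_eq,
          Bool.false_eq_true, if_false]
        obtain ⟨i, hi⟩ := T_congr β (T β A)
        obtain ⟨j, hj⟩ := T_congr α (A - 1)
        refine ⟨-1 - i - j, ?_⟩
        rw [hi, hj, hstep']
        push_cast
        have : A - 1 ≠ 0 := by linarith
        field_simp
        ring
      · rw [W_two, W_one, hstep', abs_div, abs_of_pos hA0', abs_of_pos h1A]
        rw [show A - 1 = -(1 - A) by ring, abs_neg, abs_of_pos h1A]
        field_simp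
  | false =>
    obtain ⟨k, hk⟩ := (by simpa [Rel] using hR : ∃ k : ℤ, A + B = k)
    have hk1 : (k : ℝ) < 2 := by rw [← hk]; linarith
    have hk2 : (-1 : ℝ) < k := by
      rw [← hk]
      have : -1 < β - 1 + (α - 1) := by nlinarith
      linarith
    have hk1' : k < 2 := by exact_mod_cast hk1
    have hk2' : -1 < k := by exact_mod_cast hk2
    have hk3 : k = 0 ∨ k = 1 := by omega
    rcases hk3 with rfl | rfl
    · -- state N
      have hAB : B = -A := by
        push_cast at hk; linarith
      subst hAB
      refine ⟨1, 1, false, le_refl _, by norm_num, by simp [pot], ?_, by rw [W_one, W_one, abs_neg]⟩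
      obtain ⟨i, hi⟩ := T_congr β A
      obtain ⟨j, hj⟩ := T_congr α (-A)
      simp only [Rel, Function.iterate_one, Bool.false_eq_true, if_false]
      refine ⟨-i - j, ?_⟩
      rw [hi, hj]; push_cast
      rw [one_div, one_div, inv_neg]; ring
    · -- state C
      have hAB : B = 1 - A := by
        push_cast at hk; linarith
      subst hAB
      have hA0' : 0 < A := by linarith
      have h1A : 0 < 1 - A := by linarith
      have hβ0 : 0 < β := by linarith
      by_cases c1 : 1 / A - 1 < β
      · -- C1
        have hstep : T β A = 1 / A - 1 := by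
          have h2 : 1 ≤ 1 / A := by rw [le_div_iff₀ hA0']; linarith
          have := T_eq (α := β) (x := A) (k := 1) (by push_cast; linarith) (by push_cast; linarith)
          simpa using this
        have hstep' : T β A = (1 - A) / A := by rw [hstep]; field_simp
        refine ⟨2, 1, true, le_refl _, by norm_num, by simp [pot], ?_, ?_⟩
        · simp only [Rel, Function.iterate_succ, Function.iterate_zero, Function.comp_apply, id_eq, if_true]
          obtain ⟨i, hi⟩ := T_congr β (T β A)
          obtain ⟨j, hj⟩ := T_congr α (1 - A)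
          refine ⟨-1 - i + j, ?_⟩
          rw [hi, hj, hstep']
          push_cast
          field_simp
          ring
        · rw [W_two, W_one, hstep', abs_div, abs_of_pos hA0', abs_of_pos h1A]
          field_simp
      · by_cases c2 : 1 / (1 - A) - 1 < α
        · -- C2
          have hstep : T α (1 - A) = 1 / (1 - A) - 1 := by
            have h2 : 1 ≤ 1 / (1 - A) := by rw [le_div_iff₀ h1A]; linarith
            have := T_eq (α := α) (x := 1 - A) (k := 1) (by push_cast; linarith) (by push_cast; linarith)
            simpa using this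
          have hstep' : T α (1 - A) = A / (1 - A) := by rw [hstep]; field_simp; ring
          refine ⟨1, 2, true, by norm_num, le_refl _, by simp [pot], ?_, ?_⟩
          · simp only [Rel, Function.iterate_succ, Function.iterate_zero, Function.comp_apply, id_eq, if_true]
            obtain ⟨i, hi⟩ := T_congr β A
            obtain ⟨j, hj⟩ := T_congr α (T α (1 - A))
            refine ⟨1 - i + j, ?_⟩
            rw [hi, hj, hstep']
            push_cast
            field_simp
            ring
          · rw [W_two, W_one, hstep', abs_div, abs_of_pos hA0', abs_of_pos h1A]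
            field_simp
        · -- C3
          push Not at c1 c2
          have e1 : 1 / A ≤ 1 + 1 / α := by
            have h1 : (1 + α) * (1 - A) ≤ 1 := by
              have : 1 + α ≤ 1 / (1 - A) := by linarith
              rwa [le_div_iff₀ h1A] at this
            rw [div_le_iff₀ hA0']
            have h2 : (1 + 1 / α) * A = (A * (1 + α)) / α := by field_simp; ring
            rw [h2, le_div_iff₀ hα]
            linarith
          have e2 : 1 / (1 - A) ≤ 1 + 1 / β := by
            have h1 : (1 + β) * A ≤ 1 := by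
              have : 1 + β ≤ 1 / A := by linarith
              rwa [le_div_iff₀ hA0'] at this
            rw [div_le_iff₀ h1A]
            have h2 : (1 + 1 / β) * (1 - A) = ((1 - A) * (1 + β)) / β := by field_simp; ring
            rw [h2, le_div_iff₀ hβ0]
            linarith
          have e3 : 1 / β < 1 / α := one_div_lt_one_div_of_lt hα hαβ
          have hs1 : T β A = 1 / A - 2 := by
            have := T_eq (α := β) (x := A) (k := 2) (by push_cast; linarith) (by push_cast; linarith)
            simpa using this
          have hs2 : T α (1 - A) = 1 / (1 - A) - 2 := by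
            have := T_eq (α := α) (x := 1 - A) (k := 2) (by push_cast; linarith) (by push_cast; linarith)
            simpa using this
          have hA2 : 1 - 2 * A ≠ 0 := by
            intro h
            apply hAi
            exact ⟨1 / 2, by push_cast; linarith⟩
          have hs1' : T β A = (1 - 2 * A) / A := by rw [hs1]; field_simp
          have hs2' : T α (1 - A) = -(1 - 2 * A) / (1 - A) := by rw [hs2]; field_simp; ring
          refine ⟨2, 2, false, by norm_num, le_refl _, le_refl _, ?_, ?_⟩
          · simp only [Rel, Function.iterate_succ, Function.iterate_zero, Function.comp_apply, id_eq,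
              Bool.false_eq_true, if_false]
            obtain ⟨i, hi⟩ := T_congr β (T β A)
            obtain ⟨j, hj⟩ := T_congr α (T α (1 - A))
            refine ⟨-1 - i - j, ?_⟩
            rw [hi, hj, hs1', hs2']
            push_cast
            rw [one_div_div, one_div_div]
            have e : (1 - A) / -(1 - 2 * A) = -((1 - A) / (1 - 2 * A)) := by rw [div_neg]
            rw [e]
            have e4 : A / (1 - 2 * A) - (1 - A) / (1 - 2 * A) = -1 := by
              rw [← sub_div, div_eq_iff hA2]; ring
            linarith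
          · rw [W_two, W_two, hs1', hs2', abs_div, abs_div, abs_of_pos hA0', abs_of_pos h1A, abs_neg]
            field_simp

theorem iterate_irr {α x : ℝ} (hx : Irrational x) (n : ℕ) : Irrational ((T α)^[n] x) := by
  induction n with
  | zero => exact hx
  | succ n ih => rw [Function.iterate_succ_apply']; exact T_irr ih

theorem iterate_mem {α x : ℝ} (hx : x ∈ Set.Ico (α - 1) α) (n : ℕ) : (T α)^[n] x ∈ Set.Ico (α - 1) α := by
  cases n with
  | zero => exact hx
  | succ n => rw [Function.iterate_succ_apply']; exact T_mem _ _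

theorem W_pos {α x : ℝ} (hx : Irrational x) (n : ℕ) : 0 < W α x n :=
  Finset.prod_pos fun j _ => abs_pos.mpr (iterate_irr hx j).ne_zero

/-- the weights are non-increasing in the time -/
theorem W_anti {α x : ℝ} (h0 : 0 < α) (h1 : α ≤ 1) (hx : x ∈ Set.Ico (α - 1) α) {m n : ℕ} (h : m ≤ n) :
    W α x n ≤ W α x m := by
  obtain ⟨k, rfl⟩ := Nat.exists_eq_add_of_le h
  rw [W_add]
  have h2 : W α ((T α)^[m] x) k ≤ 1 := by
    apply Finset.prod_le_one
    · intro j _; exact abs_nonneg _
    · intro j _
      have := iterate_mem (iterate_mem hx m) j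
      rw [abs_le]
      obtain ⟨h3, h4⟩ := this
      constructor <;> linarith
  have h3 : 0 ≤ W α x m := Finset.prod_nonneg fun j _ => abs_nonneg _
  nlinarith

/-- the coupling: for every time `m` of the `α`-orbit there are times `b ∈ {m, m+1}` of the `α`-orbit and `a ≥ b` of
the `β`-orbit at which the derivative weights are equal -/
theorem coupling {α β x : ℝ} (hα : 0 < α) (hg : 1 ≤ α + α ^ 2) (hαβ : α < β) (hβ : β ≤ 1)
    (hx : x ∈ Set.Ico (β - 1) α) (hxi : Irrational x) (m : ℕ) :
    ∃ (a b : ℕ) (same : Bool), m ≤ b ∧ b ≤ m + 1 ∧ b + pot same ≤ a ∧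
      Rel same ((T β)^[a] x) ((T α)^[b] x) ∧ W β x a = W α x b := by
  induction m with
  | zero =>
    refine ⟨0, 0, true, le_refl _, by norm_num, by simp [pot], ?_, by rw [W_zero, W_zero]⟩
    simp only [Rel, if_true, Function.iterate_zero, id_eq, sub_self]
    exact ⟨0, by simp⟩
  | succ m ih =>
    obtain ⟨a, b, same, h1, h2, h3, h4, h5⟩ := ih
    by_cases hb : m + 1 ≤ b
    · exact ⟨a, b, same, hb, by omega, h3, h4, h5⟩
    · have hbm : b = m := by omega
      subst hbm
      have hxβ : x ∈ Set.Ico (β - 1) β := ⟨hx.1, hx.2.trans hαβ⟩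
      have hxα : x ∈ Set.Ico (α - 1) α := ⟨by linarith [hx.1], hx.2⟩
      obtain ⟨a', b', same', k1, k2, k3, k4, k5⟩ := step hα hg hαβ hβ (iterate_mem hxβ a) (iterate_mem hxα b)
        (iterate_irr hxi a) h4
      refine ⟨a' + a, b' + b, same', by omega, by omega, by omega, ?_, ?_⟩
      · rw [Function.iterate_add_apply, Function.iterate_add_apply]
        exact k4
      · rw [add_comm a' a, add_comm b' b, W_add, W_add, h5, k5]

/-- **Pathwise monotonicity.** For `g ≤ α ≤ β ≤ 1` (`g = (√5-1)/2`), every irrational `x ∈ [β-1, α)` and every `n`: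
`|(T_α^{n+1})'(x)| ≥ |(T_β^n)'(x)|`, i.e. `∏_{j ≤ n} |T_α^j x| ≤ ∏_{j < n} |T_β^j x|`. -/
theorem W_le {α β x : ℝ} (hα : 0 < α) (hg : 1 ≤ α + α ^ 2) (hαβ : α ≤ β) (hβ : β ≤ 1)
    (hx : x ∈ Set.Ico (β - 1) α) (hxi : Irrational x) (n : ℕ) :
    W α x (n + 1) ≤ W β x n := by
  have hxα : x ∈ Set.Ico (α - 1) α := ⟨by linarith [hx.1], hx.2⟩
  rcases hαβ.eq_or_lt with rfl | hlt
  · exact W_anti hα hβ hxα (Nat.le_succ n)
  · obtain ⟨a, b, same, h1, h2, h3, h4, h5⟩ := coupling hα hg hlt hβ hx hxi n
    have hxβ : x ∈ Set.Ico (β - 1) β := ⟨hx.1, hx.2.trans hlt⟩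
    calc W α x (n + 1) ≤ W α x b := W_anti hα (hlt.le.trans hβ) hxα h2
      _ = W β x a := h5.symm
      _ ≤ W β x n := W_anti (hα.trans hlt) hβ hxβ (by omega)

end

end Pool.Agent.TI
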