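import Pool.Agent.TI.Stmts

/-!
# Tanaka–Ito maps: module COVER (MP_0c85a0_an)
-/

open MeasureTheory Set Filter Topology
open scoped ENNReal

namespace Pool.Agent.TI.Cover

open Pool.Agent.TI

/-- fullness inside a set `J` -/
def FullJ (α : ℝ) (J : Set ℝ) (m : ℕ) (x : ℝ) : Prop :=
  ∀ y ∈ XX α, ∃ z ∈ XX α, z ∈ J ∧ Same α m x z ∧ (T α)^[m] z = y

theorem dig_pos {α x : ℝ} (hP : Par α) (hx : x ∈ XX α) (h : 0 < x) : 1 ≤ dig α x := by
  obtain ⟨h0, _, h1⟩ := hP
  have h2 : 1 < 1 / x := by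
    rw [lt_div_iff₀ h]
    linarith [hx.1.2]
  unfold dig
  rw [Int.le_floor]
  push_cast
  linarith

theorem dig_neg {α x : ℝ} (hP : Par α) (hx : x ∈ XX α) (h : x < 0) : dig α x ≤ -2 := by
  obtain ⟨h0, h2, h1⟩ := hP
  have hx1 := hx.1.1
  have h3 : 1 / x < -1 - α := by
    rw [div_lt_iff_of_neg h]
    nlinarith
  unfold dig
  have h4 : ⌊1 / x + 1 - α⌋ < -1 := by
    rw [Int.floor_lt]
    push_cast
    have h5 : 1 / 2 < α := by nlinarith
    linarith
  omega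

/-- digits of points between two points with the same digit -/
theorem between {α x z w : ℝ} {a : ℤ} (hs : 0 < x * z) (h2 : 1 / x - a < α)
    (h3 : α - 1 < 1 / z - a) (hw1 : x ≤ w) (hw2 : w ≤ z) : dig α w = a := by
  have h5 : 1 / z ≤ 1 / w ∧ 1 / w ≤ 1 / x := by
    rcases pos_and_pos_or_neg_and_neg_of_mul_pos hs with ⟨hx, hz⟩ | ⟨hx, hz⟩
    · exact ⟨one_div_le_one_div_of_le (by linarith) hw2, one_div_le_one_div_of_le hx hw1⟩
    · exact ⟨one_div_le_one_div_of_neg_of_le hz hw2, one_div_le_one_div_of_neg_of_le (by linarith) hw1⟩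
  exact dig_eq (by linarith) (by linarith)

/-- the inverse branch stays on the same side of `0` -/
theorem sign_inv {α x y : ℝ} (hP : Par α) (hx : x ∈ XX α) (hy1 : α - 1 < y) (hy2 : y < α) :
    0 < x * (1 / ((dig α x : ℝ) + y)) := by
  obtain ⟨h0, h2, h1⟩ := id hP
  rcases lt_trichotomy x 0 with h | h | h
  · have := dig_neg hP hx h
    have h3 : (dig α x : ℝ) ≤ -2 := by exact_mod_cast this
    have h4 : (dig α x : ℝ) + y < 0 := by linarith
    exact mul_pos_of_neg_of_neg h (one_div_neg.mpr h4)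
  · exact absurd h (XX_ne hx)
  · have := dig_pos hP hx h
    have h3 : (1 : ℝ) ≤ dig α x := by exact_mod_cast this
    have h4 : 0 < (dig α x : ℝ) + y := by linarith
    exact mul_pos h (one_div_pos.mpr h4)

theorem T_bd {α x : ℝ} (hx : x ∈ XX α) : α - 1 < 1 / x - dig α x ∧ 1 / x - dig α x < α := by
  have := (XX_T hx).1
  rw [T_eq_dig] at this
  exact this

theorem inv_gt {α x w y : ℝ} (hP : Par α) (hx : x ∈ XX α) (hw : w < x) (hd : dig α w ≠ dig α x)
    (hy1 : α - 1 < y) (hy2 : y < α) : w < 1 / ((dig α x : ℝ) + y) := by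
  by_contra hcon
  rw [not_lt] at hcon
  apply hd
  have hT := T_bd hx
  have hs := sign_inv hP hx hy1 hy2
  rw [mul_comm] at hs
  refine between hs ?_ hT.1 hcon hw.le
  rw [one_div_one_div]; linarith

theorem inv_lt {α x w y : ℝ} (hP : Par α) (hx : x ∈ XX α) (hw : x < w) (hd : dig α w ≠ dig α x)
    (hy1 : α - 1 < y) (hy2 : y < α) : 1 / ((dig α x : ℝ) + y) < w := by
  by_contra hcon
  rw [not_lt] at hcon
  apply hd
  have hT := T_bd hx
  have hs := sign_inv hP hx hy1 hy2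
  refine between hs hT.2 ?_ hw.le hcon
  rw [one_div_one_div]; linarith

/-- the digits of points of `J` which are not full (in `J`) at time one -/
def EJ (α : ℝ) (J : Set ℝ) : Set ℤ := {a | ∃ x ∈ XX α, x ∈ J ∧ dig α x = a ∧ ¬ FullJ α J 1 x}

/-- a point strictly between two points of `J` with other digits is full at time one -/
theorem full_mid {α : ℝ} (hP : Par α) {J : Set ℝ} (hJ : J.OrdConnected) (hJs : J ⊆ Ioo (α - 1) α)
    {u x v : ℝ} (hu : u ∈ J) (hx : x ∈ XX α) (hv : v ∈ J) (h1 : u < x) (h2 : x < v)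
    (hd1 : dig α u ≠ dig α x) (hd2 : dig α v ≠ dig α x) : FullJ α J 1 x := by
  intro y hy
  have hy1 := hy.1.1
  have hy2 := hy.1.2
  have h3 := inv_gt hP hx h1 hd1 hy1 hy2
  have h4 := inv_lt hP hx h2 hd2 hy1 hy2
  have h5 : 1 / ((dig α x : ℝ) + y) ∈ J := hJ.out hu hv ⟨h3.le, h4.le⟩
  obtain ⟨h6, h7, h8⟩ := XX_inv (a := dig α x) hy (hJs h5)
  refine ⟨_, h6, h5, ?_, ?_⟩
  · intro j hj
    obtain rfl : j = 0 := by omega
    simp only [Function.iterate_zero, id_eq]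
    exact h7.symm
  · rw [Function.iterate_one]; exact h8

theorem EJ_two {α : ℝ} (hP : Par α) {J : Set ℝ} (hJ : J.OrdConnected) (hJs : J ⊆ Ioo (α - 1) α) :
    ∃ E : Finset ℤ, E.card ≤ 2 ∧ EJ α J ⊆ E := by
  have key : ∀ a b c : ℤ, a ∈ EJ α J → b ∈ EJ α J → c ∈ EJ α J → a ≠ b → b ≠ c → a ≠ c → False := by
    intro a b c ha hb hc hab hbc hac
    obtain ⟨x, hx, hxJ, hxa, hxF⟩ := ha
    obtain ⟨y, hy, hyJ, hyb, hyF⟩ := hb
    obtain ⟨z, hz, hzJ, hzc, hzF⟩ := hc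
    have main : ∀ u v w : ℝ, u ∈ J → v ∈ XX α → w ∈ J → u < v → v < w → dig α u ≠ dig α v →
        dig α w ≠ dig α v → ¬ FullJ α J 1 v → False := by
      intro u v w h1 h2 h3 h4 h5 h6 h7 h8
      exact h8 (full_mid hP hJ hJs h1 h2 h3 h4 h5 h6 h7)
    have hxy : x ≠ y := by rintro rfl; exact hab (hxa.symm.trans hyb)
    have hyz : y ≠ z := by rintro rfl; exact hbc (hyb.symm.trans hzc)
    have hxz : x ≠ z := by rintro rfl; exact hac (hxa.symm.trans hzc)
    have dxy : dig α x ≠ dig α y := by rw [hxa, hyb]; exact hab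
    have dyz : dig α y ≠ dig α z := by rw [hyb, hzc]; exact hbc
    have dxz : dig α x ≠ dig α z := by rw [hxa, hzc]; exact hac
    rcases lt_or_gt_of_ne hxy with h1 | h1 <;> rcases lt_or_gt_of_ne hyz with h2 | h2 <;>
      rcases lt_or_gt_of_ne hxz with h3 | h3
    · exact main x y z hxJ hy hzJ h1 h2 dxy dyz.symm hyF
    · exact main x y z hxJ hy hzJ h1 h2 dxy dyz.symm hyF
    · exact main x z y hxJ hz hyJ h3 h2 dxz dyz hzF
    · exact main z x y hzJ hx hyJ h3 h1 dxz.symm dxy.symm hxF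
    · exact main y x z hyJ hx hzJ h1 h3 dxy.symm dxz.symm hxF
    · exact main y z x hyJ hz hxJ h2 h3 dyz dxz hzF
    · exact main z y x hzJ hy hxJ h2 h1 dyz.symm dxy hyF
    · exact main z y x hzJ hy hxJ h2 h1 dyz.symm dxy hyF
  by_cases h0 : (EJ α J).Nonempty
  · obtain ⟨a, ha⟩ := h0
    by_cases h1 : ∃ b ∈ EJ α J, b ≠ a
    · obtain ⟨b, hb, hba⟩ := h1
      refine ⟨{a, b}, Finset.card_le_two, fun c hc => ?_⟩
      by_contra hcon
      simp only [Finset.coe_insert, Finset.coe_singleton, mem_insert_iff, mem_singleton_iff, not_or] at hcon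
      exact key a b c ha hb hc hba.symm (Ne.symm hcon.2) (Ne.symm hcon.1)
    · push Not at h1
      refine ⟨{a}, by simp, fun c hc => ?_⟩
      simp [h1 c hc]
  · rw [Set.not_nonempty_iff_eq_empty] at h0
    exact ⟨∅, by simp, by rw [h0]; exact Set.empty_subset _⟩

/-- the image of `J ∩ D(a)` -/
def nxt (α : ℝ) (J : Set ℝ) (a : ℤ) : Set ℝ := {y | y ∈ Ioo (α - 1) α ∧ 1 / ((a : ℝ) + y) ∈ J}

theorem nxt_conn {α : ℝ} (hP : Par α) {J : Set ℝ} (hJ : J.OrdConnected) {x : ℝ} (hx : x ∈ XX α) :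
    (nxt α J (dig α x)).OrdConnected := by
  obtain ⟨h0, h2, h1⟩ := id hP
  constructor
  rintro y1 ⟨h3, h4⟩ y2 ⟨h5, h6⟩ y ⟨h7, h8⟩
  have hyI : y ∈ Ioo (α - 1) α := ⟨lt_of_lt_of_le h3.1 h7, lt_of_le_of_lt h8 h5.2⟩
  refine ⟨hyI, ?_⟩
  have h31 := h3.1
  have h52 := h5.2
  rcases lt_trichotomy x 0 with h | h | h
  · have := dig_neg hP hx h
    have h9 : (dig α x : ℝ) ≤ -2 := by exact_mod_cast this
    exact hJ.out h6 h4 ⟨one_div_le_one_div_of_neg_of_le (by linarith) (by linarith),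
      one_div_le_one_div_of_neg_of_le (by linarith) (by linarith)⟩
  · exact absurd h (XX_ne hx)
  · have := dig_pos hP hx h
    have h9 : (1 : ℝ) ≤ dig α x := by exact_mod_cast this
    exact hJ.out h6 h4 ⟨one_div_le_one_div_of_le (by linarith) (by linarith),
      one_div_le_one_div_of_le (by linarith) (by linarith)⟩

theorem full_step {α : ℝ} {J : Set ℝ} (hJs : J ⊆ Ioo (α - 1) α) {m : ℕ} {x : ℝ}
    (h : FullJ α (nxt α J (dig α x)) m (T α x)) : FullJ α J (m + 1) x := by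
  intro y hy
  obtain ⟨z, hz, hzJ, hs, hT⟩ := h y hy
  obtain ⟨h6, h7, h8⟩ := XX_inv (a := dig α x) hz (hJs hzJ.2)
  refine ⟨_, h6, hzJ.2, ?_, ?_⟩
  · intro j hj
    cases j with
    | zero =>
      simp only [Function.iterate_zero, id_eq]
      exact h7.symm
    | succ j =>
      rw [Function.iterate_succ_apply, Function.iterate_succ_apply, h8]
      exact hs j (by omega)
  · rw [Function.iterate_succ_apply, h8]; exact hT

theorem main {α : ℝ} (hP : Par α) (n : ℕ) : ∀ J : Set ℝ, J.OrdConnected → J ⊆ Ioo (α - 1) α →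
    ∃ 𝒲 : Finset (Fin n → ℤ), 𝒲.card ≤ 2 ^ n ∧ ∀ x ∈ XX α, x ∈ J →
      (∀ m, 1 ≤ m → m ≤ n → ¬ FullJ α J m x) → (fun j : Fin n => dig α ((T α)^[(j : ℕ)] x)) ∈ 𝒲 := by
  classical
  induction n with
  | zero =>
    intro J _ _
    refine ⟨{Fin.elim0}, by simp, fun x _ _ _ => ?_⟩
    rw [Finset.mem_singleton]
    funext j
    exact j.elim0
  | succ n ih =>
    intro J hJ hJs
    obtain ⟨E, hE, hEJ⟩ := EJ_two hP hJ hJs
    have hV : ∀ a : ℤ, ∃ 𝒲 : Finset (Fin n → ℤ), 𝒲.card ≤ 2 ^ n ∧ ((∃ x ∈ XX α, dig α x = a) →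
        ∀ x ∈ XX α, x ∈ nxt α J a → (∀ m, 1 ≤ m → m ≤ n → ¬ FullJ α (nxt α J a) m x) →
          (fun j : Fin n => dig α ((T α)^[(j : ℕ)] x)) ∈ 𝒲) := by
      intro a
      by_cases ha : ∃ x ∈ XX α, dig α x = a
      · obtain ⟨x, hx, rfl⟩ := ha
        obtain ⟨𝒲, h1, h2⟩ := ih (nxt α J (dig α x)) (nxt_conn hP hJ hx) (fun y hy => hy.1)
        exact ⟨𝒲, h1, fun _ => h2⟩
      · exact ⟨∅, by simp, fun h => absurd h ha⟩
    choose V hVc hVm using hV
    refine ⟨E.biUnion fun a => (V a).image fun w => (Fin.cons a w : Fin (n + 1) → ℤ), ?_, ?_⟩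
    · calc _ ≤ ∑ a ∈ E, ((V a).image fun w => (Fin.cons a w : Fin (n + 1) → ℤ)).card :=
            Finset.card_biUnion_le
        _ ≤ ∑ a ∈ E, 2 ^ n := Finset.sum_le_sum fun a _ => Finset.card_image_le.trans (hVc a)
        _ = E.card * 2 ^ n := by rw [Finset.sum_const, smul_eq_mul]
        _ ≤ 2 * 2 ^ n := Nat.mul_le_mul_right _ hE
        _ = 2 ^ (n + 1) := by ring
    · intro x hx hxJ hF
      have ha : dig α x ∈ E := by
        have := hEJ ⟨x, hx, hxJ, rfl, hF 1 le_rfl (by omega)⟩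
        exact_mod_cast this
      rw [Finset.mem_biUnion]
      refine ⟨dig α x, ha, ?_⟩
      rw [Finset.mem_image]
      refine ⟨fun j : Fin n => dig α ((T α)^[(j : ℕ)] (T α x)), ?_, ?_⟩
      · refine hVm (dig α x) ⟨x, hx, rfl⟩ (T α x) (XX_T hx) ⟨(XX_T hx).1, ?_⟩ ?_
        · rw [← inv_dig]; exact hxJ
        · intro m h1 h2 h3
          exact hF (m + 1) (by omega) (by omega) (full_step hJs h3)
      · funext j
        refine Fin.cases ?_ (fun i => ?_) j
        · simp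
        · simp [Function.iterate_succ_apply]

end Pool.Agent.TI.Cover

namespace Pool.Agent.TI

theorem cover_proof : Stmt_Cover := by
  intro α hP n
  obtain ⟨𝒲, h1, h2⟩ := Cover.main hP n (Ioo (α - 1) α) ordConnected_Ioo (fun y hy => hy)
  refine ⟨𝒲, h1, fun x hx hF => h2 x hx hx.1 fun m h3 h4 h5 => hF m h3 h4 ?_⟩
  intro y hy
  obtain ⟨z, hz, _, hs, hT⟩ := h5 y hy
  exact ⟨z, hz, hs, hT⟩

end Pool.Agent.TI
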