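import Pool.Agent.TI.Coupling
import Pool.Agent.Helper45.GEntDefs

/-!
# Tanaka–Ito maps: definitions (MP_0c85a0_an)

Paper proof: /team-store/MP_0c85a0_PROOF.md.
`T α x = 1/x - ⌊1/x + 1 - α⌋`, `W α x n = ∏_{j<n} |T^j x|` are in `Coupling.lean`.
-/

open MeasureTheory Set Filter Topology
open scoped ENNReal

namespace Pool.Agent.TI

noncomputable section

export Pool.Agent.Helper45.Graph (joinEntropy ksEntropy)

/-- the digit of `x`: `T α x = 1/x - dig α x` -/
def dig (α x : ℝ) : ℤ := ⌊1 / x + 1 - α⌋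

/-- `g ≤ α ≤ 1`, `g = (√5-1)/2` -/
def Par (α : ℝ) : Prop := 0 < α ∧ 1 ≤ α + α ^ 2 ∧ α ≤ 1

/-- generic points: irrational points of `(α-1, α)` whose orbit never hits `α - 1` (a `T`-invariant set of full
measure in `[α-1, α]`) -/
def XX (α : ℝ) : Set ℝ := {x | x ∈ Ioo (α - 1) α ∧ Irrational x ∧ ∀ n : ℕ, (T α)^[n] x ≠ α - 1}

/-- same first `n` digits -/
def Same (α : ℝ) (n : ℕ) (x y : ℝ) : Prop :=
  ∀ j < n, dig α ((T α)^[j] x) = dig α ((T α)^[j] y)

/-- `T^n` maps the rank-`n` cylinder of `x` onto everything -/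
def Full (α : ℝ) (n : ℕ) (x : ℝ) : Prop :=
  ∀ y ∈ XX α, ∃ z ∈ XX α, Same α n x z ∧ (T α)^[n] z = y

/-- absolutely continuous `T_α`-invariant probability measures on `[α-1, α]` -/
structure ACIP (α : ℝ) (μ : Measure ℝ) : Prop where
  prob : IsProbabilityMeasure μ
  ac : μ ≪ volume
  supp : μ (Icc (α - 1) α)ᶜ = 0
  inv : MeasurePreserving (T α) μ μ

/-- the Lyapunov exponent `∫ log |T'| dμ = ∫ -2 log |x| dμ` (for measures on `[-1,1]`) -/
def lyap (μ : Measure ℝ) : ℝ≥0∞ := ∫⁻ x, ENNReal.ofReal (-2 * Real.log |x|) ∂μ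

/-- labels `≤ K` agree, or both are `> K` in absolute value -/
def SameK (α : ℝ) (K n : ℕ) (x y : ℝ) : Prop :=
  ∀ j < n, dig α ((T α)^[j] x) = dig α ((T α)^[j] y) ∨
    ((K : ℤ) < |dig α ((T α)^[j] x)| ∧ (K : ℤ) < |dig α ((T α)^[j] y)|)

/-- the weight of a label -/
def wK (α : ℝ) (K : ℕ) (x : ℝ) : ℝ := if |dig α x| ≤ (K : ℤ) then |x| ^ 2 else 2 ^ 16 / K

/-! ### basic facts -/

theorem T_eq_dig (α x : ℝ) : T α x = 1 / x - dig α x := rfl

theorem dig_eq {α x : ℝ} {k : ℤ} (h1 : α - 1 ≤ 1 / x - k) (h2 : 1 / x - k < α) : dig α x = k := by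
  unfold dig
  rw [Int.floor_eq_iff]
  constructor <;> linarith

theorem XX_irr {α x : ℝ} (hx : x ∈ XX α) : Irrational x := hx.2.1

theorem XX_ne {α x : ℝ} (hx : x ∈ XX α) : x ≠ 0 := hx.2.1.ne_zero

theorem XX_T {α x : ℝ} (hx : x ∈ XX α) : T α x ∈ XX α := by
  obtain ⟨_, h2, h3⟩ := hx
  have h4 := T_mem α x
  refine ⟨⟨lt_of_le_of_ne h4.1 (Ne.symm (h3 1)), h4.2⟩, T_irr h2, fun n => ?_⟩
  have := h3 (n + 1)
  rwa [Function.iterate_succ_apply] at this

theorem XX_iter {α x : ℝ} (hx : x ∈ XX α) (n : ℕ) : (T α)^[n] x ∈ XX α := by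
  induction n with
  | zero => exact hx
  | succ n ih => rw [Function.iterate_succ_apply']; exact XX_T ih

theorem XX_abs {α x : ℝ} (h0 : 0 < α) (h1 : α ≤ 1) (hx : x ∈ XX α) : |x| < 1 := by
  rw [abs_lt]
  obtain ⟨⟨h3, h4⟩, _⟩ := hx
  constructor <;> linarith

theorem inv_dig {α x : ℝ} : x = 1 / (dig α x + T α x) := by
  rw [T_eq_dig]
  have : (dig α x : ℝ) + (1 / x - dig α x) = 1 / x := by ring
  rw [this, one_div_one_div]

/-- inverse branches -/
theorem XX_inv {α y : ℝ} {a : ℤ} (hy : y ∈ XX α) (hz : 1 / ((a : ℝ) + y) ∈ Ioo (α - 1) α) :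
    1 / ((a : ℝ) + y) ∈ XX α ∧ dig α (1 / ((a : ℝ) + y)) = a ∧ T α (1 / ((a : ℝ) + y)) = y := by
  obtain ⟨⟨h1, h2⟩, h3, h4⟩ := hy
  have e : 1 / (1 / ((a : ℝ) + y)) = a + y := one_div_one_div _
  have hd : dig α (1 / ((a : ℝ) + y)) = a := by
    apply dig_eq <;> rw [e] <;> linarith
  have hT : T α (1 / ((a : ℝ) + y)) = y := by
    rw [T_eq_dig, hd, e]; ring
  refine ⟨⟨hz, ?_, fun n => ?_⟩, hd, hT⟩
  · rw [one_div]
    exact irrational_inv_iff.mpr (h3.intCast_add a)
  · cases n with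
    | zero => exact ne_of_gt hz.1
    | succ n => rw [Function.iterate_succ_apply, hT]; exact h4 n

theorem Same_refl (α : ℝ) (n : ℕ) (x : ℝ) : Same α n x x := fun _ _ => rfl

theorem Same_symm {α : ℝ} {n : ℕ} {x y : ℝ} (h : Same α n x y) : Same α n y x := fun j hj => (h j hj).symm

theorem Same_trans {α : ℝ} {n : ℕ} {x y z : ℝ} (h : Same α n x y) (h' : Same α n y z) : Same α n x z :=
  fun j hj => (h j hj).trans (h' j hj)

theorem Same_mono {α : ℝ} {m n : ℕ} {x y : ℝ} (hmn : m ≤ n) (h : Same α n x y) : Same α m x y :=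
  fun j hj => h j (by omega)

theorem Same_add {α : ℝ} {m n : ℕ} {x y : ℝ} :
    Same α (m + n) x y ↔ Same α m x y ∧ Same α n ((T α)^[m] x) ((T α)^[m] y) := by
  constructor
  · intro h
    refine ⟨fun j hj => h j (by omega), fun j hj => ?_⟩
    have := h (j + m) (by omega)
    rwa [Function.iterate_add_apply, Function.iterate_add_apply] at this
  · rintro ⟨h1, h2⟩ j hj
    by_cases hjm : j < m
    · exact h1 j hjm
    · have := h2 (j - m) (by omega)
      rw [← Function.iterate_add_apply, ← Function.iterate_add_apply, Nat.sub_add_cancel (by omega)] at this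
      exact this

theorem Full_add {α : ℝ} {m n : ℕ} {x : ℝ} (h1 : Full α m x) (h2 : Full α n ((T α)^[m] x)) :
    Full α (m + n) x := by
  intro y hy
  obtain ⟨u, hu, hsu, hTu⟩ := h2 y hy
  obtain ⟨z, hz, hsz, hTz⟩ := h1 u hu
  refine ⟨z, hz, ?_, ?_⟩
  · rw [Same_add]
    exact ⟨hsz, by rw [hTz]; exact hsu⟩
  · rw [add_comm m n, Function.iterate_add_apply, hTz, hTu]

theorem Full_zero (α x : ℝ) : Full α 0 x := fun y hy => ⟨y, hy, fun j hj => absurd hj (by omega), rfl⟩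

theorem Full_congr {α : ℝ} {n : ℕ} {x x' : ℝ} (h : Same α n x x') (hF : Full α n x) : Full α n x' := by
  intro y hy
  obtain ⟨z, hz, hs, hT⟩ := hF y hy
  exact ⟨z, hz, Same_trans (Same_symm h) hs, hT⟩

theorem measurable_T (α : ℝ) : Measurable (T α) := by
  unfold T
  fun_prop

theorem measurable_dig (α : ℝ) : Measurable (dig α) := by
  unfold dig
  exact Int.measurable_floor.comp (by fun_prop)

theorem measurableSet_irr : MeasurableSet {x : ℝ | Irrational x} := by
  have : {x : ℝ | Irrational x} = (Set.range ((↑) : ℚ → ℝ))ᶜ := rfl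
  rw [this]
  exact (Set.countable_range _).measurableSet.compl

theorem measurableSet_XX (α : ℝ) : MeasurableSet (XX α) := by
  have : XX α = Ioo (α - 1) α ∩ ({x | Irrational x} ∩ ⋂ n : ℕ, ((T α)^[n]) ⁻¹' {α - 1}ᶜ) := by
    ext x
    simp [XX]
  rw [this]
  refine measurableSet_Ioo.inter (measurableSet_irr.inter (MeasurableSet.iInter fun n => ?_))
  exact (measurable_T α).iterate n (measurableSet_singleton _).compl

/-- preimages of countable sets are countable -/
theorem countable_preimage {α : ℝ} {S : Set ℝ} (hS : S.Countable) : ((T α) ⁻¹' S).Countable := by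
  have : (T α) ⁻¹' S ⊆ ⋃ k : ℤ, (fun y : ℝ => 1 / ((k : ℝ) + y)) '' S := by
    intro x hx
    rw [mem_iUnion]
    exact ⟨dig α x, T α x, hx, inv_dig.symm⟩
  exact (Set.countable_iUnion fun k => hS.image _).mono this

theorem countable_hit (α : ℝ) (n : ℕ) : {x : ℝ | (T α)^[n] x = α - 1}.Countable := by
  induction n with
  | zero =>
    simp only [Function.iterate_zero, id_eq]
    exact (Set.countable_singleton (α - 1)).mono (by intro x hx; exact hx)
  | succ n ih =>
    refine (countable_preimage (α := α) ih).mono ?_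
    intro x hx
    simp only [mem_ofPred_eq, Function.iterate_succ_apply] at hx
    exact hx

theorem volume_compl_XX (α : ℝ) : volume (Icc (α - 1) α \ XX α) = 0 := by
  have hsub : Icc (α - 1) α \ XX α ⊆ {α - 1} ∪ {α} ∪ Set.range ((↑) : ℚ → ℝ) ∪
      ⋃ n : ℕ, {x : ℝ | (T α)^[n] x = α - 1} := by
    rintro x ⟨⟨h1, h2⟩, h3⟩
    by_contra hcon
    simp only [mem_union, mem_singleton_iff, mem_iUnion, not_or, not_exists] at hcon
    obtain ⟨⟨⟨h4, h5⟩, h6⟩, h7⟩ := hcon
    exact h3 ⟨⟨lt_of_le_of_ne h1 (Ne.symm h4), lt_of_le_of_ne h2 h5⟩, h6, h7⟩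
  have hc : ({α - 1} ∪ {α} ∪ Set.range ((↑) : ℚ → ℝ) ∪
      ⋃ n : ℕ, {x : ℝ | (T α)^[n] x = α - 1} : Set ℝ).Countable :=
    (((Set.countable_singleton _).union (Set.countable_singleton _)).union (Set.countable_range _)).union
      (Set.countable_iUnion fun n => countable_hit α n)
  exact measure_mono_null hsub (hc.measure_zero volume)

theorem volume_XX (α : ℝ) : volume (XX α) = 1 := by
  have h1 : volume (Icc (α - 1) α) = 1 := by
    rw [Real.volume_Icc]
    simp
  apply le_antisymm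
  · rw [← h1]
    exact measure_mono fun x hx => ⟨hx.1.1.le, hx.1.2.le⟩
  · calc (1 : ℝ≥0∞) = volume (Icc (α - 1) α) := h1.symm
      _ ≤ volume ((Icc (α - 1) α \ XX α) ∪ XX α) := measure_mono fun x hx => by
          by_cases h : x ∈ XX α
          · exact Or.inr h
          · exact Or.inl ⟨hx, h⟩
      _ ≤ volume (Icc (α - 1) α \ XX α) + volume (XX α) := measure_union_le _ _
      _ = volume (XX α) := by rw [volume_compl_XX, zero_add]

theorem ACIP.ae_XX {α : ℝ} {μ : Measure ℝ} (h : ACIP α μ) : ∀ᵐ x ∂μ, x ∈ XX α := by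
  have h1 : μ (Icc (α - 1) α \ XX α) = 0 := h.ac (volume_compl_XX α)
  have h2 : {x : ℝ | x ∉ XX α} ⊆ (Icc (α - 1) α)ᶜ ∪ (Icc (α - 1) α \ XX α) := by
    intro x hx
    by_cases h3 : x ∈ Icc (α - 1) α
    · exact Or.inr ⟨h3, hx⟩
    · exact Or.inl h3
  exact measure_mono_null h2 (measure_union_null h.supp h1)

end

end Pool.Agent.TI
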