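import Pool.Agent.TI.Stmts

set_option autoImplicit false

open MeasureTheory Set Filter Topology
open scoped ENNReal NNReal

namespace Pool.Agent.TI

namespace Dist

/-- one step -/
theorem step {α x y : ℝ} (hx : x ∈ XX α) (hy : y ∈ XX α) (h : dig α x = dig α y) :
    |x - y| = |T α x - T α y| * |x| * |y| := by
  have hx0 := XX_ne hx
  have hy0 := XX_ne hy
  have h1 : T α x - T α y = 1 / x - 1 / y := by
    rw [T_eq_dig, T_eq_dig, h]; ring
  have h2 : T α x - T α y = -(x - y) / (x * y) := by
    rw [h1]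
    field_simp
    ring
  rw [h2, abs_div, abs_neg, abs_mul]
  have : |x| ≠ 0 := abs_ne_zero.2 hx0
  have : |y| ≠ 0 := abs_ne_zero.2 hy0
  field_simp

theorem dist_eq {α : ℝ} (n : ℕ) : ∀ {x y : ℝ}, x ∈ XX α → y ∈ XX α → Same α n x y →
    |x - y| = |(T α)^[n] x - (T α)^[n] y| * W α x n * W α y n := by
  induction n with
  | zero => intro x y _ _ _; simp [W_zero]
  | succ n ih =>
    intro x y hx hy h
    have h0 : dig α x = dig α y := h 0 (by omega)
    have hs : Same α n (T α x) (T α y) := by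
      intro j hj
      have := h (j + 1) (by omega)
      rwa [Function.iterate_succ_apply, Function.iterate_succ_apply] at this
    rw [step hx hy h0, ih (XX_T hx) (XX_T hy) hs, Function.iterate_succ_apply,
      Function.iterate_succ_apply, add_comm n 1, W_add α x 1 n, W_add α y 1 n, W_one, W_one]
    simp only [Function.iterate_one]
    ring

/-- `W(x, n) ≤ 3^{-⌊n/3⌋}` -/
theorem W_le_pow (h3 : Stmt_W3) {α : ℝ} (hα : Par α) (n : ℕ) : ∀ {x : ℝ}, x ∈ XX α →
    W α x n ≤ (1 / 3 : ℝ) ^ (n / 3) := by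
  induction n using Nat.strong_induction_on with
  | _ n ih =>
    intro x hx
    by_cases hn : n < 3
    · have h0 : n / 3 = 0 := by omega
      rw [h0, pow_zero]
      have h1 := W_anti hα.1 hα.2.2 (x := x) ⟨hx.1.1.le, hx.1.2⟩ (Nat.zero_le n)
      rwa [W_zero] at h1
    · obtain ⟨m, rfl⟩ : ∃ m, n = 3 + m := ⟨n - 3, by omega⟩
      have h0 : (3 + m) / 3 = m / 3 + 1 := by omega
      rw [h0, pow_succ', W_add]
      exact mul_le_mul (h3 α x hα hx) (ih m (by omega) (XX_iter hx 3))
        (W_pos (XX_irr (XX_iter hx 3)) _).le (by norm_num)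

theorem sum_bound (n : ℕ) : ∑ k ∈ Finset.range n, (1 / 3 : ℝ) ^ ((k + 1) / 3) ≤ 7 / 2 := by
  have key : ∀ m : ℕ, ∑ k ∈ Finset.range (3 * m + 2), (1 / 3 : ℝ) ^ ((k + 1) / 3) ≤
      7 / 2 - 3 / 2 * (1 / 3 : ℝ) ^ m := by
    intro m
    induction m with
    | zero =>
      simp only [mul_zero, zero_add, Finset.sum_range_succ, Finset.sum_range_zero]
      norm_num
    | succ m ih =>
      have e : 3 * (m + 1) + 2 = 3 * m + 2 + 1 + 1 + 1 := by ring
      rw [e, Finset.sum_range_succ, Finset.sum_range_succ, Finset.sum_range_succ]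
      have e1 : (3 * m + 2 + 1) / 3 = m + 1 := by omega
      have e2 : (3 * m + 2 + 1 + 1) / 3 = m + 1 := by omega
      have e3 : (3 * m + 2 + 1 + 1 + 1) / 3 = m + 1 := by omega
      rw [e1, e2, e3, pow_succ]
      linarith
  have h1 : ∑ k ∈ Finset.range n, (1 / 3 : ℝ) ^ ((k + 1) / 3) ≤
      ∑ k ∈ Finset.range (3 * n + 2), (1 / 3 : ℝ) ^ ((k + 1) / 3) :=
    Finset.sum_le_sum_of_subset_of_nonneg (Finset.range_mono (by omega))
      (fun _ _ _ => by positivity)
  have h2 := key n
  have h3 : 0 ≤ 3 / 2 * (1 / 3 : ℝ) ^ n := by positivity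
  linarith

end Dist

theorem dist_proof (h3 : Stmt_W3) : Stmt_Dist := by
  intro α n x y hα hx hy hs
  refine ⟨Dist.dist_eq n hx hy hs, ?_⟩
  -- the distortion
  have hlog : Real.log (W α x n) - Real.log (W α y n) ≤ 7 / 2 := by
    have e : ∀ z ∈ XX α, Real.log (W α z n) = ∑ j ∈ Finset.range n, Real.log |(T α)^[j] z| := by
      intro z hz
      unfold W
      rw [Real.log_prod]
      intro j _
      exact abs_ne_zero.2 (XX_ne (XX_iter hz j))
    rw [e x hx, e y hy, ← Finset.sum_sub_distrib]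
    have hterm : ∀ j ∈ Finset.range n, Real.log |(T α)^[j] x| - Real.log |(T α)^[j] y| ≤
        (1 / 3 : ℝ) ^ ((n - j) / 3) := by
      intro j hj
      have hjn := Finset.mem_range.1 hj
      have hxj := XX_iter hx j
      have hyj := XX_iter hy j
      have hx0 := abs_pos.2 (XX_ne hxj)
      have hy0 := abs_pos.2 (XX_ne hyj)
      rw [← Real.log_div hx0.ne' hy0.ne']
      refine (Real.log_le_sub_one_of_pos (div_pos hx0 hy0)).trans ?_
      have hsj : Same α (n - j) ((T α)^[j] x) ((T α)^[j] y) := by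
        intro i hi
        rw [← Function.iterate_add_apply, ← Function.iterate_add_apply]
        exact hs (i + j) (by omega)
      have hd := Dist.dist_eq (n - j) hxj hyj hsj
      have hd1 : |(T α)^[n - j] ((T α)^[j] x) - (T α)^[n - j] ((T α)^[j] y)| ≤ 1 := by
        have h1 := (XX_iter hxj (n - j)).1
        have h2 := (XX_iter hyj (n - j)).1
        rw [abs_le]
        constructor <;> linarith [h1.1, h1.2, h2.1, h2.2]
      have hWy : W α ((T α)^[j] y) (n - j) ≤ |(T α)^[j] y| := by
        have h1 := W_anti hα.1 hα.2.2 (x := (T α)^[j] y) ⟨hyj.1.1.le, hyj.1.2⟩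
          (m := 1) (n := n - j) (by omega)
        rwa [W_one] at h1
      have hWx := Dist.W_le_pow h3 hα (n - j) hxj
      have hWx0 := (W_pos (α := α) (XX_irr hxj) (n - j)).le
      have hWy0 := (W_pos (α := α) (XX_irr hyj) (n - j)).le
      have hle : |(T α)^[j] x - (T α)^[j] y| ≤ (1 / 3 : ℝ) ^ ((n - j) / 3) * |(T α)^[j] y| := by
        rw [hd]
        calc _ ≤ 1 * W α ((T α)^[j] x) (n - j) * W α ((T α)^[j] y) (n - j) := by
              gcongr
          _ = W α ((T α)^[j] x) (n - j) * W α ((T α)^[j] y) (n - j) := by ring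
          _ ≤ _ := mul_le_mul hWx hWy hWy0 (by positivity)
      have h5 : |(T α)^[j] x| - |(T α)^[j] y| ≤ |(T α)^[j] x - (T α)^[j] y| :=
        abs_sub_abs_le_abs_sub _ _
      rw [div_sub_one hy0.ne', div_le_iff₀ hy0]
      exact h5.trans hle
    refine (Finset.sum_le_sum hterm).trans ?_
    rw [← Finset.sum_range_reflect]
    refine le_trans (le_of_eq ?_) (Dist.sum_bound n)
    apply Finset.sum_congr rfl
    intro j hj
    have hjn := Finset.mem_range.1 hj
    have : n - (n - 1 - j) = j + 1 := by omega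
    rw [this]
  have hWx := W_pos (α := α) (XX_irr hx) n
  have hWy := W_pos (α := α) (XX_irr hy) n
  have h1 : Real.log (W α x n) ≤ Real.log (64 * W α y n) := by
    rw [Real.log_mul (by norm_num) hWy.ne']
    have h2 : (7 / 2 : ℝ) ≤ Real.log 64 := by
      have : (64 : ℝ) = 2 ^ 6 := by norm_num
      rw [this, Real.log_pow]
      have := Real.log_two_gt_d9
      push_cast
      linarith
    linarith
  exact (Real.log_le_log_iff hWx (by positivity)).1 h1

end Pool.Agent.TI
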