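import Pool.Agent.TI.Stmts

/-!
# Finite entropy: many words if the entropy is small (module ENTLOW, MP_0c85a0_an)
-/

open MeasureTheory Set Filter Topology
open scoped ENNReal

namespace Pool.Agent.TI.EntLow

open Pool.Agent.TI

variable {X : Type} [MeasurableSpace X] {μ : Measure X} {S : X → X} {k : ℕ} {P : X → Fin k}

/-- the name of length `n` of a point -/
def word (S : X → X) (P : X → Fin k) (n : ℕ) (x : X) : Fin n → Fin k := fun i => P (S^[(i : ℕ)] x)

omit [MeasurableSpace X] in
theorem set_eq (n : ℕ) (w : Fin n → Fin k) :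
    {x | ∀ i : Fin n, P (S^[(i : ℕ)] x) = w i} = word S P n ⁻¹' {w} := by
  ext x
  simp only [mem_ofPred_eq, mem_preimage, mem_singleton_iff]
  exact ⟨fun h => funext h, fun h i => congrFun h i⟩

theorem measurable_word (hS : Measurable S) (hP : Measurable P) (n : ℕ) : Measurable (word S P n) :=
  measurable_pi_lambda _ fun i => hP.comp (hS.iterate i)

theorem sum_words [IsProbabilityMeasure μ] (hS : Measurable S) (hP : Measurable P) (n : ℕ)
    (V : Finset (Fin n → Fin k)) :
    ∑ w ∈ V, μ.real (word S P n ⁻¹' {w}) = μ.real {x | word S P n x ∈ V} := by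
  rw [sum_measureReal_preimage_singleton]
  · rfl
  · intro w _
    exact measurable_word hS hP n (measurableSet_singleton w)

end Pool.Agent.TI.EntLow

namespace Pool.Agent.TI

open EntLow in
theorem entlow_proof : Stmt_EntLow := by
  classical
  intro X _ μ _ S hS k P hP n h ε hn hh hε hH
  have hn' : (0 : ℝ) < n := by exact_mod_cast hn
  set p : (Fin n → Fin k) → ℝ := fun w => μ.real (word S P n ⁻¹' {w}) with hp
  have hp0 : ∀ w, 0 ≤ p w := fun w => measureReal_nonneg
  have hp1 : ∀ w, p w ≤ 1 := fun w => measureReal_le_one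
  have hH' : joinEntropy μ S P n = ∑ w, Real.negMulLog (p w) := by
    unfold Pool.Agent.Helper45.Graph.joinEntropy
    refine Finset.sum_congr rfl fun w _ => ?_
    rw [set_eq]
  have htot : ∑ w, p w = 1 := by
    rw [hp, sum_words hS hP n Finset.univ]
    simp
  let V : Finset (Fin n → Fin k) := Finset.univ.filter fun w => Real.exp (-(n * (h + ε))) ≤ p w
  refine ⟨V, ?_, ?_⟩
  · have h1 : (V.card : ℝ) * Real.exp (-(n * (h + ε))) ≤ 1 := by
      calc (V.card : ℝ) * Real.exp (-(n * (h + ε))) = ∑ w ∈ V, Real.exp (-(n * (h + ε))) := by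
            rw [Finset.sum_const, nsmul_eq_mul]
        _ ≤ ∑ w ∈ V, p w := Finset.sum_le_sum fun w hw => (Finset.mem_filter.mp hw).2
        _ ≤ ∑ w, p w := Finset.sum_le_sum_of_subset_of_nonneg (Finset.subset_univ _) fun w _ _ => hp0 w
        _ = 1 := htot
    have h2 : Real.exp (-(n * (h + ε))) * Real.exp (n * (h + ε)) = 1 := by
      rw [← Real.exp_add]
      simp
    calc (V.card : ℝ) = (V.card * Real.exp (-(n * (h + ε)))) * Real.exp (n * (h + ε)) := by
          rw [mul_assoc, h2, mul_one]
      _ ≤ 1 * Real.exp (n * (h + ε)) := mul_le_mul_of_nonneg_right h1 (Real.exp_pos _).le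
      _ = _ := one_mul _
  · have h3 : n * (h + ε) * ∑ w ∈ Vᶜ, p w ≤ n * h := by
      calc n * (h + ε) * ∑ w ∈ Vᶜ, p w = ∑ w ∈ Vᶜ, n * (h + ε) * p w := by rw [Finset.mul_sum]
        _ ≤ ∑ w ∈ Vᶜ, Real.negMulLog (p w) := by
            refine Finset.sum_le_sum fun w hw => ?_
            rw [Finset.mem_compl] at hw
            have hw' : p w < Real.exp (-(n * (h + ε))) := by
              by_contra hcon
              exact hw (Finset.mem_filter.mpr ⟨Finset.mem_univ _, not_lt.mp hcon⟩)
            rcases (hp0 w).eq_or_lt with h4 | h4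
            · rw [← h4]; simp
            · have h5 : Real.log (p w) ≤ -(n * (h + ε)) := by
                rw [Real.log_le_iff_le_exp h4]
                exact hw'.le
              unfold Real.negMulLog
              nlinarith
        _ ≤ ∑ w, Real.negMulLog (p w) :=
            Finset.sum_le_sum_of_subset_of_nonneg (Finset.subset_univ _) fun w _ _ =>
              Real.negMulLog_nonneg (hp0 w) (hp1 w)
        _ ≤ n * h := by rw [← hH']; exact hH
    have h6 : ∑ w ∈ V, p w + ∑ w ∈ Vᶜ, p w = 1 := by
      rw [Finset.sum_add_sum_compl, htot]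
    have h7 : ∑ w ∈ V, p w = μ.real {x | (fun i : Fin n => P (S^[(i : ℕ)] x)) ∈ V} := by
      rw [hp, sum_words hS hP n V]
      rfl
    rw [← h7, div_le_iff₀ (by linarith)]
    have h8 : (h + ε) * ∑ w ∈ Vᶜ, p w ≤ h := by
      by_contra hcon
      rw [not_le] at hcon
      have := mul_lt_mul_of_pos_left hcon hn'
      linarith
    nlinarith

end Pool.Agent.TI
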