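import Pool.Agent.TI.Stmts

/-!
# TI, module ENTUP: an upper bound for the entropy of the join
-/

open MeasureTheory Set Filter Topology
open scoped ENNReal

namespace Pool.Agent.TI

noncomputable section

namespace EntUp

/-- log sum inequality -/
theorem logsum {ι : Type*} (A : Finset ι) (a : ι → ℝ) (ha : ∀ i ∈ A, 0 ≤ a i) (hA : A.Nonempty) :
    ∑ i ∈ A, Real.negMulLog (a i) ≤ Real.negMulLog (∑ i ∈ A, a i) + (∑ i ∈ A, a i) * Real.log A.card := by
  have hc : (0 : ℝ) < A.card := by exact_mod_cast hA.card_pos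
  have h1 := Real.concaveOn_negMulLog.le_map_sum (t := A) (w := fun _ => (A.card : ℝ)⁻¹) (p := a)
    (fun i _ => by positivity) (by rw [Finset.sum_const, nsmul_eq_mul]; field_simp) (fun i hi => ha i hi)
  simp only [smul_eq_mul] at h1
  rw [← Finset.mul_sum, ← Finset.mul_sum] at h1
  set s := ∑ i ∈ A, a i with hs
  have h2 : Real.negMulLog ((A.card : ℝ)⁻¹ * s) = (A.card : ℝ)⁻¹ * (Real.negMulLog s + s * Real.log A.card) := by
    rcases eq_or_ne s 0 with h0 | h0
    · rw [h0]; simp [Real.negMulLog]
    · rw [Real.negMulLog, Real.negMulLog, Real.log_mul (by positivity) h0, Real.log_inv]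
      ring
  rw [h2] at h1
  exact le_of_mul_le_mul_left h1 (by positivity)

end EntUp

open EntUp in
theorem entUp_proof : Stmt_EntUp := by
  intro X _ μ _ S hS k P hP n V δ hV hδ
  classical
  set F : X → (Fin n → Fin k) := fun x i => P (S^[(i : ℕ)] x) with hF
  have hFm : Measurable F := by
    rw [measurable_pi_iff]
    intro i
    exact hP.comp (hS.iterate i)
  set p : (Fin n → Fin k) → ℝ := fun w => μ.real (F ⁻¹' {w}) with hp
  have hset : ∀ w : Fin n → Fin k, {x | ∀ i : Fin n, P (S^[(i : ℕ)] x) = w i} = F ⁻¹' {w} := by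
    intro w
    ext x
    simp only [mem_ofPred_eq, mem_preimage, mem_singleton_iff, funext_iff, hF]
  have hsum : ∀ A : Finset (Fin n → Fin k), ∑ w ∈ A, p w = μ.real (F ⁻¹' (A : Set (Fin n → Fin k))) := by
    intro A
    exact sum_measureReal_preimage_singleton A (fun y _ => hFm (measurableSet_singleton y))
  have hk : 1 ≤ k := by
    haveI : Nonempty X := μ.nonempty_of_neZero
    obtain ⟨x⟩ := this
    have := (P x).2
    omega
  have hlogk : 0 ≤ Real.log k := Real.log_nonneg (by exact_mod_cast hk)
  have hj : joinEntropy μ S P n = ∑ w, Real.negMulLog (p w) := by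
    unfold Helper45.Graph.joinEntropy
    apply Finset.sum_congr rfl
    intro w _
    rw [hset]
  have hp0 : ∀ w, 0 ≤ p w := fun w => measureReal_nonneg
  have htot : ∑ w ∈ V, p w + ∑ w ∈ Vᶜ, p w = 1 := by
    rw [Finset.sum_add_sum_compl, hsum Finset.univ]
    simp
  have hq : ∑ w ∈ Vᶜ, p w ≤ δ := by
    rw [hsum]
    refine le_trans (le_of_eq ?_) hδ
    congr 1
    ext x
    simp [hF]
  set a := ∑ w ∈ V, p w with ha
  set b := ∑ w ∈ Vᶜ, p w with hb
  have ha0 : 0 ≤ a := Finset.sum_nonneg fun w _ => hp0 w
  have hb0 : 0 ≤ b := Finset.sum_nonneg fun w _ => hp0 w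
  have h1 : ∑ w ∈ V, Real.negMulLog (p w) ≤ Real.negMulLog a + Real.log V.card := by
    refine (logsum V p (fun w _ => hp0 w) hV).trans ?_
    have h2 : 0 ≤ Real.log V.card := Real.log_nonneg (by exact_mod_cast hV.card_pos)
    have h3 : a ≤ 1 := by linarith
    have : a * Real.log V.card ≤ 1 * Real.log V.card := mul_le_mul_of_nonneg_right h3 h2
    linarith
  have h2 : ∑ w ∈ Vᶜ, Real.negMulLog (p w) ≤ Real.negMulLog b + δ * n * Real.log k := by
    rcases Finset.eq_empty_or_nonempty (Vᶜ) with h0 | h0
    · have hb' : b = 0 := by rw [hb, h0]; simp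
      rw [h0, hb']
      simp only [Finset.sum_empty, Real.negMulLog_zero, zero_add]
      have : 0 ≤ δ := by rw [← hb']; exact hq
      positivity
    · refine (logsum _ p (fun w _ => hp0 w) h0).trans ?_
      have h3 : Real.log (Vᶜ).card ≤ n * Real.log k := by
        have h4 : ((Vᶜ).card : ℝ) ≤ (k : ℝ) ^ n := by
          have : (Vᶜ).card ≤ k ^ n := by
            refine (Finset.card_le_univ _).trans ?_
            simp
          exact_mod_cast this
        rw [← Real.log_pow]
        exact Real.log_le_log (by exact_mod_cast h0.card_pos) h4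
      have h5 : b * Real.log (Vᶜ).card ≤ b * (n * Real.log k) := mul_le_mul_of_nonneg_left h3 hb0
      have h6 : b * (n * Real.log k) ≤ δ * (n * Real.log k) :=
        mul_le_mul_of_nonneg_right hq (by positivity)
      rw [← hb]
      linarith [mul_assoc δ (n : ℝ) (Real.log k)]
  have h3 : Real.negMulLog a + Real.negMulLog b ≤ Real.log 2 := by
    have h4 := logsum (Finset.univ : Finset Bool) (fun t => if t then a else b)
      (fun t _ => by cases t <;> simp [ha0, hb0]) ⟨true, Finset.mem_univ _⟩
    simp only [Fintype.sum_bool, if_true, Bool.false_eq_true, if_false, Finset.card_univ,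
      Fintype.card_bool] at h4
    rw [htot] at h4
    simpa using h4
  rw [hj, ← Finset.sum_add_sum_compl V]
  linarith

end

end Pool.Agent.TI
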