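import Pool.Agent.TI.Stmts

set_option autoImplicit false

open MeasureTheory Set Filter Topology
open scoped ENNReal NNReal

namespace Pool.Agent.TI

theorem erg_proof (hF : Stmt_Fill) : Stmt_Erg := by
  intro α μ hα hμ
  haveI := hμ.prob
  have hX := hμ.ae_XX
  have hX1 : μ (XX α)ᶜ = 0 := hX
  let P : Set ℝ := {x | μ.rnDeriv volume x ≠ 0}
  have hPm : MeasurableSet P := (Measure.measurable_rnDeriv μ volume) (measurableSet_singleton 0).compl
  have key : ∀ s : Set ℝ, μ s = 0 ↔ volume (P ∩ s) = 0 := by
    intro s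
    conv_lhs => rw [← Measure.withDensity_rnDeriv_eq μ volume hμ.ac]
    exact withDensity_apply_eq_zero (Measure.measurable_rnDeriv μ volume)
  have hPc : μ Pᶜ = 0 := by
    rw [key, inter_compl_self, measure_empty]
  have hvolP : 0 < volume (P ∩ XX α) := by
    rw [pos_iff_ne_zero]
    intro h
    rw [← key] at h
    have h1 : μ univ = 0 := by
      have h2 : (univ : Set ℝ) = XX α ∪ (XX α)ᶜ := (union_compl_self _).symm
      rw [h2]
      exact measure_union_null h hX1
    rw [measure_univ] at h1
    exact one_ne_zero h1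
  have hvolPX : volume (XX α \ P) = 0 := by
    apply hF α hα P hPm hvolP
    have h1 : μ (XX α \ (T α) ⁻¹' P) = 0 := by
      refine measure_mono_null (t := (T α) ⁻¹' Pᶜ) (fun x hx => hx.2) ?_
      rw [hμ.inv.measure_preimage hPm.compl.nullMeasurableSet]
      exact hPc
    rw [key] at h1
    refine measure_mono_null ?_ h1
    rintro x ⟨⟨h2, h3⟩, h4⟩
    exact ⟨h2, h3, h4⟩
  refine ⟨⟨hμ.inv, ⟨?_⟩⟩, ?_⟩
  · intro s hs hTs
    rw [Filter.eventuallyConst_set']
    by_cases h0 : μ s = 0
    · left
      exact ae_eq_empty.2 h0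
    · right
      have h1 : 0 < volume (s ∩ XX α) := by
        rw [pos_iff_ne_zero]
        intro h
        apply h0
        have h2 := hμ.ac h
        refine measure_mono_null (t := (s ∩ XX α) ∪ (XX α)ᶜ) ?_ (measure_union_null h2 hX1)
        intro x hx
        by_cases hxX : x ∈ XX α
        · exact Or.inl ⟨hx, hxX⟩
        · exact Or.inr hxX
      have h2 : volume (XX α \ s) = 0 := by
        apply hF α hα s hs h1
        have : (s ∩ XX α) \ (T α) ⁻¹' s = ∅ := by
          rw [hTs]
          ext x
          simp only [Set.mem_sdiff, mem_inter_iff, mem_empty_iff_false, iff_false]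
          tauto
        rw [this]
        exact measure_empty
      have h3 : μ sᶜ = 0 := by
        refine measure_mono_null (t := (XX α \ s) ∪ (XX α)ᶜ) ?_
          (measure_union_null (hμ.ac h2) hX1)
        intro x hx
        by_cases hxX : x ∈ XX α
        · exact Or.inl ⟨hxX, hx⟩
        · exact Or.inr hxX
      exact ae_eq_univ.2 h3
  · intro s hs
    rw [key] at hs
    refine Measure.restrict_apply_eq_zero' (measurableSet_XX α) |>.2 ?_
    refine measure_mono_null (t := (P ∩ s) ∪ (XX α \ P)) ?_ (measure_union_null hs hvolPX)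
    rintro x ⟨h1, h2⟩
    by_cases hxP : x ∈ P
    · exact Or.inl ⟨hxP, h1⟩
    · exact Or.inr ⟨h2, hxP⟩

end Pool.Agent.TI
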