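import Pool.Agent.TI.Tools

/-!
# Tanaka–Ito maps: existence and uniqueness of the a.c. invariant probability measure (MP_0c85a0_an)
-/

open MeasureTheory Set Filter Topology
open scoped ENNReal NNReal

namespace Pool.Agent.TI.Exist

open Pool.Agent.TI

noncomputable section

/-- the volume of the preimages: uniform bound -/
theorem vol_bound (hPush : Stmt_Push) {α : ℝ} (hP : Par α) {C : ℝ}
    (hC : ∀ (n : ℕ) (F : Finset ℝ), (∀ x ∈ F, x ∈ XX α) →
      (∀ x ∈ F, ∀ y ∈ F, Same α n x y → x = y) → ∑ x ∈ F, (W α x n) ^ 2 ≤ C)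
    (n : ℕ) (E : Set ℝ) (hE : MeasurableSet E) :
    volume {y | y ∈ XX α ∧ (T α)^[n] y ∈ E} ≤ ENNReal.ofReal (64 ^ 2 * C) * volume (E ∩ XX α) := by
  classical
  let B : (Fin n → ℤ) → Set ℝ := fun w =>
    {y | y ∈ XX α ∧ (T α)^[n] y ∈ E ∧ (fun j : Fin n => dig α ((T α)^[(j : ℕ)] y)) = w}
  have h1 : volume {y | y ∈ XX α ∧ (T α)^[n] y ∈ E} ≤ ∑' w, volume (B w) := by
    refine le_trans (measure_mono ?_) (measure_iUnion_le B)
    rintro y ⟨h1, h2⟩
    rw [mem_iUnion]
    exact ⟨_, h1, h2, rfl⟩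
  refine h1.trans ?_
  rw [ENNReal.tsum_eq_iSup_sum]
  refine iSup_le fun s => ?_
  -- nonempty words
  let s' := s.filter fun w => (B w).Nonempty
  have h2 : ∑ w ∈ s, volume (B w) = ∑ w ∈ s', volume (B w) := by
    rw [Finset.sum_filter_of_ne]
    intro w _ hw
    by_contra hcon
    rw [Set.not_nonempty_iff_eq_empty] at hcon
    rw [hcon, measure_empty] at hw
    exact hw rfl
  have hpt : ∀ w : Fin n → ℤ, ∃ x : ℝ, (B w).Nonempty → x ∈ B w := by
    intro w
    by_cases h : (B w).Nonempty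
    · exact ⟨h.some, fun _ => h.some_mem⟩
    · exact ⟨0, fun h' => absurd h' h⟩
  choose pt hpt using hpt
  have hB : ∀ w ∈ s', volume (B w) ≤ ENNReal.ofReal ((64 * W α (pt w) n) ^ 2) * volume (E ∩ XX α) := by
    intro w hw
    have h3 := hpt w (Finset.mem_filter.mp hw).2
    have h4 := (hPush α n (pt w) (E ∩ XX α) hP h3.1 (hE.inter (measurableSet_XX α)) inter_subset_right).1
    refine le_trans (measure_mono ?_) h4
    rintro y ⟨hy1, hy2, hy3⟩
    refine ⟨hy1, fun j hj => ?_, hy2, XX_iter hy1 n⟩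
    exact congrFun (h3.2.2.trans hy3.symm) ⟨j, hj⟩
  rw [h2]
  calc ∑ w ∈ s', volume (B w) ≤ ∑ w ∈ s', ENNReal.ofReal ((64 * W α (pt w) n) ^ 2) * volume (E ∩ XX α) :=
        Finset.sum_le_sum hB
    _ = ENNReal.ofReal (∑ w ∈ s', (64 * W α (pt w) n) ^ 2) * volume (E ∩ XX α) := by
        rw [← Finset.sum_mul, ENNReal.ofReal_sum_of_nonneg]
        intro w _
        positivity
    _ ≤ ENNReal.ofReal (64 ^ 2 * C) * volume (E ∩ XX α) := by
        refine mul_le_mul_left (ENNReal.ofReal_le_ofReal ?_) _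
        have hinj : InjOn pt s' := by
          intro w hw w' hw' hww
          have h3 := hpt w (Finset.mem_filter.mp hw).2
          have h4 := hpt w' (Finset.mem_filter.mp hw').2
          rw [← h3.2.2, ← h4.2.2, hww]
        calc ∑ w ∈ s', (64 * W α (pt w) n) ^ 2 = 64 ^ 2 * ∑ w ∈ s', (W α (pt w) n) ^ 2 := by
              rw [Finset.mul_sum]
              exact Finset.sum_congr rfl fun w _ => by ring
          _ = 64 ^ 2 * ∑ x ∈ s'.image pt, (W α x n) ^ 2 := by
              rw [Finset.sum_image hinj]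
          _ ≤ 64 ^ 2 * C := by
              refine mul_le_mul_of_nonneg_left (hC n _ ?_ ?_) (by positivity)
              · intro x hx
                obtain ⟨w, hw, rfl⟩ := Finset.mem_image.mp hx
                exact (hpt w (Finset.mem_filter.mp hw).2).1
              · intro x hx y hy hxy
                obtain ⟨w, hw, rfl⟩ := Finset.mem_image.mp hx
                obtain ⟨w', hw', rfl⟩ := Finset.mem_image.mp hy
                have h3 := hpt w (Finset.mem_filter.mp hw).2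
                have h4 := hpt w' (Finset.mem_filter.mp hw').2
                have : w = w' := by
                  rw [← h3.2.2, ← h4.2.2]
                  funext j
                  exact hxy j j.2
                rw [this]

/-- the averages -/
def av (α : ℝ) (n : ℕ) (E : Set ℝ) : ℝ≥0∞ :=
  (∑ j ∈ Finset.range n, volume {y | y ∈ XX α ∧ (T α)^[j] y ∈ E}) / n

theorem meas_pre (α : ℝ) (j : ℕ) {E : Set ℝ} (hE : MeasurableSet E) :
    MeasurableSet {y | y ∈ XX α ∧ (T α)^[j] y ∈ E} :=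
  (measurableSet_XX α).inter ((measurable_T α).iterate j hE)

theorem av_add (α : ℝ) (n : ℕ) {A B : Set ℝ} (hB : MeasurableSet B) (h : Disjoint A B) :
    av α n (A ∪ B) = av α n A + av α n B := by
  unfold av
  rw [← ENNReal.add_div, ← Finset.sum_add_distrib]
  congr 1
  refine Finset.sum_congr rfl fun j _ => ?_
  rw [← measure_union _ (meas_pre α j hB)]
  · congr 1
    ext y
    simp only [mem_ofPred_eq, mem_union]
    tauto
  · rw [Set.disjoint_left] at h ⊢
    rintro y ⟨_, h1⟩ ⟨_, h2⟩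
    exact h h1 h2

theorem av_mono (α : ℝ) (n : ℕ) {A B : Set ℝ} (h : A ⊆ B) : av α n A ≤ av α n B := by
  unfold av
  refine ENNReal.div_le_div_right (Finset.sum_le_sum fun j _ => measure_mono ?_) _
  rintro y ⟨h1, h2⟩
  exact ⟨h1, h h2⟩

theorem av_univ (α : ℝ) {n : ℕ} (hn : 0 < n) : av α n univ = 1 := by
  unfold av
  have : ∀ j ∈ Finset.range n, volume {y | y ∈ XX α ∧ (T α)^[j] y ∈ univ} = 1 := by
    intro j _
    have : {y | y ∈ XX α ∧ (T α)^[j] y ∈ univ} = XX α := by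
      ext y; simp
    rw [this, volume_XX]
  rw [Finset.sum_congr rfl this, Finset.sum_const, Finset.card_range, nsmul_eq_mul, mul_one]
  exact ENNReal.div_self (by exact_mod_cast hn.ne') (ENNReal.natCast_ne_top n)

theorem av_le (α : ℝ) {c : ℝ≥0∞} {E : Set ℝ} (n : ℕ)
    (h : ∀ j, volume {y | y ∈ XX α ∧ (T α)^[j] y ∈ E} ≤ c) : av α n E ≤ c := by
  unfold av
  rcases Nat.eq_zero_or_pos n with rfl | hn
  · simp
  · rw [ENNReal.div_le_iff (by exact_mod_cast hn.ne') (ENNReal.natCast_ne_top n)]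
    calc ∑ j ∈ Finset.range n, volume {y | y ∈ XX α ∧ (T α)^[j] y ∈ E} ≤ ∑ j ∈ Finset.range n, c :=
          Finset.sum_le_sum fun j _ => h j
      _ = c * n := by rw [Finset.sum_const, Finset.card_range, nsmul_eq_mul, mul_comm]

theorem exists_lim (α : ℝ) (𝒰 : Ultrafilter ℕ) (E : Set ℝ) :
    ∃ c : ℝ≥0∞, Tendsto (fun n => av α n E) 𝒰 (𝓝 c) := by
  obtain ⟨c, _, hc⟩ := isCompact_univ.ultrafilter_le_nhds (𝒰.map fun n => av α n E) (by simp)
  exact ⟨c, hc⟩

/-- the limit along an ultrafilter -/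
def lim (α : ℝ) (𝒰 : Ultrafilter ℕ) (E : Set ℝ) : ℝ≥0∞ := (exists_lim α 𝒰 E).choose

theorem lim_spec (α : ℝ) (𝒰 : Ultrafilter ℕ) (E : Set ℝ) : Tendsto (fun n => av α n E) 𝒰 (𝓝 (lim α 𝒰 E)) :=
  (exists_lim α 𝒰 E).choose_spec

theorem lim_add (α : ℝ) (𝒰 : Ultrafilter ℕ) {A B : Set ℝ} (hB : MeasurableSet B) (h : Disjoint A B) :
    lim α 𝒰 (A ∪ B) = lim α 𝒰 A + lim α 𝒰 B := by
  have h1 := (lim_spec α 𝒰 A).add (lim_spec α 𝒰 B)
  refine tendsto_nhds_unique (lim_spec α 𝒰 (A ∪ B)) (h1.congr fun n => ?_)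
  exact (av_add α n hB h).symm

theorem lim_mono (α : ℝ) (𝒰 : Ultrafilter ℕ) {A B : Set ℝ} (h : A ⊆ B) : lim α 𝒰 A ≤ lim α 𝒰 B :=
  le_of_tendsto_of_tendsto' (lim_spec α 𝒰 A) (lim_spec α 𝒰 B) fun n => av_mono α n h

theorem lim_le (α : ℝ) (𝒰 : Ultrafilter ℕ) {c : ℝ≥0∞} {E : Set ℝ}
    (h : ∀ j, volume {y | y ∈ XX α ∧ (T α)^[j] y ∈ E} ≤ c) : lim α 𝒰 E ≤ c :=
  le_of_tendsto' (lim_spec α 𝒰 E) fun n => av_le α n h

theorem lim_empty (α : ℝ) (𝒰 : Ultrafilter ℕ) : lim α 𝒰 ∅ = 0 := by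
  have := lim_le α 𝒰 (E := ∅) (c := 0) (fun j => by simp)
  exact le_antisymm this zero_le

theorem lim_sum (α : ℝ) (𝒰 : Ultrafilter ℕ) {f : ℕ → Set ℝ} (hf : ∀ i, MeasurableSet (f i))
    (hd : Pairwise (Function.onFun Disjoint f)) (k : ℕ) :
    lim α 𝒰 (⋃ i ∈ Finset.range k, f i) = ∑ i ∈ Finset.range k, lim α 𝒰 (f i) := by
  induction k with
  | zero => simp [lim_empty]
  | succ k ih =>
    rw [Finset.sum_range_succ, ← ih, ← lim_add α 𝒰 (hf k)]
    · congr 1
      ext y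
      simp only [mem_iUnion, mem_union, Finset.mem_range, exists_prop]
      constructor
      · rintro ⟨i, h1, h2⟩
        rcases Nat.lt_succ_iff_lt_or_eq.mp h1 with h3 | rfl
        · exact Or.inl ⟨i, h3, h2⟩
        · exact Or.inr h2
      · rintro (⟨i, h1, h2⟩ | h)
        · exact ⟨i, by omega, h2⟩
        · exact ⟨k, by omega, h⟩
    · rw [Set.disjoint_left]
      intro y h1 h2
      rw [mem_iUnion₂] at h1
      obtain ⟨i, hi, h3⟩ := h1
      rw [Finset.mem_range] at hi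
      exact Set.disjoint_left.mp (hd (show i ≠ k by omega)) h3 h2

theorem lim_iUnion (α : ℝ) (𝒰 : Ultrafilter ℕ) {c : ℝ≥0∞} (hc : c ≠ ∞)
    (hb : ∀ (j : ℕ) (E : Set ℝ), MeasurableSet E → volume {y | y ∈ XX α ∧ (T α)^[j] y ∈ E} ≤ c * volume (E ∩ XX α))
    {f : ℕ → Set ℝ} (hf : ∀ i, MeasurableSet (f i)) (hd : Pairwise (Function.onFun Disjoint f)) :
    lim α 𝒰 (⋃ i, f i) = ∑' i, lim α 𝒰 (f i) := by
  apply le_antisymm
  · -- the tail is small
    have h1 : ∀ k : ℕ, lim α 𝒰 (⋃ i, f i) ≤ ∑' i, lim α 𝒰 (f i) + c * ∑' i, volume (f (i + k) ∩ XX α) := by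
      intro k
      have e : (⋃ i, f i) = (⋃ i ∈ Finset.range k, f i) ∪ ⋃ i, f (i + k) := by
        ext y
        simp only [mem_iUnion, mem_union, Finset.mem_range, exists_prop]
        constructor
        · rintro ⟨i, h⟩
          by_cases hi : i < k
          · exact Or.inl ⟨i, hi, h⟩
          · exact Or.inr ⟨i - k, by rwa [Nat.sub_add_cancel (by omega)]⟩
        · rintro (⟨i, _, h⟩ | ⟨i, h⟩)
          · exact ⟨i, h⟩
          · exact ⟨i + k, h⟩
      have hm : MeasurableSet (⋃ i, f (i + k)) := MeasurableSet.iUnion fun i => hf _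
      rw [e, lim_add α 𝒰 hm, lim_sum α 𝒰 hf hd]
      · refine add_le_add (ENNReal.sum_le_tsum _) ?_
        refine lim_le α 𝒰 fun j => (hb j _ hm).trans ?_
        refine mul_le_mul_right ?_ _
        rw [iUnion_inter]
        exact measure_iUnion_le _
      · rw [Set.disjoint_left]
        intro y h2 h3
        rw [mem_iUnion₂] at h2
        rw [mem_iUnion] at h3
        obtain ⟨i, hi, h4⟩ := h2
        obtain ⟨i', h5⟩ := h3
        rw [Finset.mem_range] at hi
        exact Set.disjoint_left.mp (hd (show i ≠ i' + k by omega)) h4 h5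
    have h2 : ∑' i, volume (f i ∩ XX α) ≠ ∞ := by
      rw [← measure_iUnion]
      · refine ne_of_lt (lt_of_le_of_lt (measure_mono (t := XX α) ?_) ?_)
        · intro y hy
          rw [mem_iUnion] at hy
          exact hy.choose_spec.2
        · rw [volume_XX]
          exact ENNReal.one_lt_top
      · intro i j hij
        exact (hd hij).mono inter_subset_left inter_subset_left
      · intro i
        exact (hf i).inter (measurableSet_XX α)
    have h3 : Tendsto (fun k => ∑' i, lim α 𝒰 (f i) + c * ∑' i, volume (f (i + k) ∩ XX α)) atTop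
        (𝓝 (∑' i, lim α 𝒰 (f i) + c * 0)) := by
      refine Tendsto.const_add _ (ENNReal.Tendsto.const_mul (ENNReal.tendsto_sum_nat_add _ h2) (Or.inr hc))
    rw [mul_zero, add_zero] at h3
    exact ge_of_tendsto' h3 h1
  · rw [ENNReal.tsum_eq_iSup_nat]
    refine iSup_le fun k => ?_
    rw [← lim_sum α 𝒰 hf hd]
    refine lim_mono α 𝒰 ?_
    intro y hy
    rw [mem_iUnion₂] at hy
    obtain ⟨i, _, h⟩ := hy
    exact mem_iUnion.mpr ⟨i, h⟩

theorem lim_preimage (α : ℝ) {𝒰 : Ultrafilter ℕ} (h𝒰 : (𝒰 : Filter ℕ) ≤ atTop) (E : Set ℝ) :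
    lim α 𝒰 ((T α) ⁻¹' E) = lim α 𝒰 E := by
  have hv : ∀ j, volume {y | y ∈ XX α ∧ (T α)^[j] y ∈ E} ≤ 1 := fun j => by
    rw [← volume_XX α]
    exact measure_mono fun y hy => hy.1
  have h1 : ∀ n, av α n ((T α) ⁻¹' E) + volume {y | y ∈ XX α ∧ (T α)^[0] y ∈ E} / n =
      av α n E + volume {y | y ∈ XX α ∧ (T α)^[n] y ∈ E} / n := by
    intro n
    unfold av
    rw [← ENNReal.add_div, ← ENNReal.add_div]
    congr 1
    rw [← Finset.sum_range_succ, Finset.sum_range_succ']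
    congr 1
    refine Finset.sum_congr rfl fun j _ => ?_
    congr 1
    ext y
    simp only [mem_ofPred_eq, mem_preimage]
    rw [Function.iterate_succ_apply']
  have hz : ∀ u : ℕ → ℝ≥0∞, (∀ n, u n ≤ 1) → Tendsto (fun n : ℕ => u n / n) 𝒰 (𝓝 0) := by
    intro u hu
    have h2 : Tendsto (fun n : ℕ => (1 : ℝ≥0∞) / n) atTop (𝓝 0) := by
      simp only [one_div]
      exact ENNReal.tendsto_inv_nat_nhds_zero
    refine tendsto_of_tendsto_of_tendsto_of_le_of_le tendsto_const_nhds (h2.mono_left h𝒰)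
      (fun n => zero_le) (fun n => ENNReal.div_le_div_right (hu n) _)
  have h2 := (lim_spec α 𝒰 ((T α) ⁻¹' E)).add (hz (fun _ => volume {y | y ∈ XX α ∧ (T α)^[0] y ∈ E}) fun _ => hv 0)
  have h3 := (lim_spec α 𝒰 E).add (hz (fun n => volume {y | y ∈ XX α ∧ (T α)^[n] y ∈ E}) hv)
  rw [add_zero] at h2 h3
  exact tendsto_nhds_unique h2 (h3.congr fun n => (h1 n).symm)

end

end Pool.Agent.TI.Exist

namespace Pool.Agent.TI

/-- existence of the a.c. invariant probability measure -/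
theorem exist_proof (hPush : Stmt_Push) (hPart : Stmt_Part) (α : ℝ) (hP : Par α) : ∃ μ : Measure ℝ, ACIP α μ := by
  obtain ⟨C, hC⟩ := hPart α hP
  let c : ℝ≥0∞ := ENNReal.ofReal (64 ^ 2 * C)
  have hc : c ≠ ∞ := ENNReal.ofReal_ne_top
  have hb : ∀ (j : ℕ) (E : Set ℝ), MeasurableSet E →
      volume {y | y ∈ XX α ∧ (T α)^[j] y ∈ E} ≤ c * volume (E ∩ XX α) := fun j E hE =>
    Exist.vol_bound hPush hP hC j E hE
  let 𝒰 : Ultrafilter ℕ := Ultrafilter.of atTop
  have h𝒰 : (𝒰 : Filter ℕ) ≤ atTop := Ultrafilter.of_le atTop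
  let μ : Measure ℝ := Measure.ofMeasurable (fun E _ => Exist.lim α 𝒰 E) (Exist.lim_empty α 𝒰)
    (fun f hf hd => Exist.lim_iUnion α 𝒰 hc hb hf hd)
  have hμ : ∀ E, MeasurableSet E → μ E = Exist.lim α 𝒰 E := fun E hE => Measure.ofMeasurable_apply E hE
  refine ⟨μ, ⟨⟨?_⟩, ?_, ?_, ⟨measurable_T α, ?_⟩⟩⟩
  · rw [hμ _ MeasurableSet.univ]
    have h1 := Exist.lim_spec α 𝒰 univ
    have h2 : Tendsto (fun n => Exist.av α n univ) 𝒰 (𝓝 1) := by
      refine Tendsto.mono_left ?_ h𝒰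
      refine tendsto_const_nhds.congr' ?_
      filter_upwards [eventually_gt_atTop 0] with n hn
      exact (Exist.av_univ α hn).symm
    exact tendsto_nhds_unique h1 h2
  · refine Measure.AbsolutelyContinuous.mk fun E hE hE0 => ?_
    rw [hμ _ hE]
    have h1 := Exist.lim_le α 𝒰 (fun j => hb j E hE)
    rw [measure_mono_null inter_subset_left hE0, mul_zero] at h1
    exact le_antisymm h1 zero_le
  · rw [hμ _ measurableSet_Icc.compl]
    refine le_antisymm (Exist.lim_le α 𝒰 fun j => ?_) zero_le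
    have : {y | y ∈ XX α ∧ (T α)^[j] y ∈ (Icc (α - 1) α)ᶜ} = ∅ := by
      rw [Set.eq_empty_iff_forall_notMem]
      rintro y ⟨h1, h2⟩
      have h3 := (XX_iter h1 j).1
      exact h2 ⟨h3.1.le, h3.2.le⟩
    rw [this, measure_empty]
  · ext E hE
    rw [Measure.map_apply (measurable_T α) hE, hμ _ (measurable_T α hE), hμ _ hE, Exist.lim_preimage α h𝒰]

/-- uniqueness of the a.c. invariant probability measure -/
theorem uniq_proof (hErg : Stmt_Erg) (α : ℝ) (μ ν : Measure ℝ) (hP : Par α) (hμ : ACIP α μ) (hν : ACIP α ν) : ν = μ := by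
  have := hμ.prob
  have := hν.prob
  obtain ⟨h1, h2⟩ := hErg α μ hP hμ
  refine h1.eq_of_absolutelyContinuous hν.inv ?_
  refine Measure.AbsolutelyContinuous.trans ?_ h2
  refine Measure.AbsolutelyContinuous.mk fun E hE hE0 => ?_
  rw [Measure.restrict_apply hE] at hE0
  have h3 : ν (E ∩ XX α) = 0 := hν.ac hE0
  have h4 : ν {x | x ∉ XX α} = 0 := hν.ae_XX
  refine measure_mono_null (t := (E ∩ XX α) ∪ {x | x ∉ XX α}) ?_ (measure_union_null h3 h4)
  intro x hx
  by_cases h : x ∈ XX α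
  · exact Or.inl ⟨hx, h⟩
  · exact Or.inr h

end Pool.Agent.TI
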