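import Pool.Agent.TI.Stmts
import Pool.Agent.TI.Dist

set_option autoImplicit false

open MeasureTheory Set Filter Topology Metric
open scoped ENNReal NNReal

namespace Pool.Agent.TI

namespace Fill

/-- preimages of null sets are null -/
theorem null_pre (hP : Stmt_Push) {α : ℝ} (hα : Par α) (n : ℕ) (E : Set ℝ) (hE : MeasurableSet E)
    (hEX : E ⊆ XX α) (h0 : volume E = 0) : volume {y | y ∈ XX α ∧ (T α)^[n] y ∈ E} = 0 := by
  classical
  have hcov : {y | y ∈ XX α ∧ (T α)^[n] y ∈ E} ⊆ ⋃ w : Fin n → ℤ,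
      {y | y ∈ XX α ∧ (T α)^[n] y ∈ E ∧ ∀ j : Fin n, dig α ((T α)^[(j : ℕ)] y) = w j} := by
    rintro y ⟨hy, hyE⟩
    rw [mem_iUnion]
    exact ⟨fun j => dig α ((T α)^[(j : ℕ)] y), hy, hyE, fun _ => rfl⟩
  refine measure_mono_null hcov (measure_iUnion_null (fun w => ?_))
  rcases Set.eq_empty_or_nonempty {y | y ∈ XX α ∧ (T α)^[n] y ∈ E ∧
    ∀ j : Fin n, dig α ((T α)^[(j : ℕ)] y) = w j} with h | ⟨x, hx, hxE, hxw⟩
  · rw [h]
    exact measure_empty
  · have h1 := (hP α n x E hα hx hE hEX).1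
    rw [h0, mul_zero] at h1
    refine measure_mono_null ?_ (le_antisymm h1 zero_le)
    rintro y ⟨hy, hyE, hyw⟩
    refine ⟨hy, ?_, hyE⟩
    intro j hj
    rw [hxw ⟨j, hj⟩, hyw ⟨j, hj⟩]

/-- `S ⊆ T^{-n} S` modulo null sets -/
theorem iter_null (hP : Stmt_Push) {α : ℝ} (hα : Par α) (S : Set ℝ) (hS : MeasurableSet S)
    (h : volume ((S ∩ XX α) \ (T α) ⁻¹' S) = 0) (n : ℕ) :
    volume {y | y ∈ S ∩ XX α ∧ (T α)^[n] y ∉ S} = 0 := by
  induction n with
  | zero =>
    have : {y | y ∈ S ∩ XX α ∧ (T α)^[0] y ∉ S} = ∅ := by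
      ext y
      simp only [Function.iterate_zero, id_eq, mem_ofPred_eq, mem_empty_iff_false, iff_false]
      rintro ⟨⟨h1, -⟩, h2⟩
      exact h2 h1
    rw [this]
    exact measure_empty
  | succ n ih =>
    have hN : MeasurableSet ((S ∩ XX α) \ (T α) ⁻¹' S) :=
      (hS.inter (measurableSet_XX α)).diff ((measurable_T α) hS)
    have h1 := null_pre hP hα n _ hN (fun y hy => hy.1.2) h
    refine measure_mono_null ?_ (measure_union_null ih h1)
    rintro y ⟨hy, hyn⟩
    by_cases hc : (T α)^[n] y ∈ S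
    · right
      refine ⟨hy.2, ⟨hc, XX_iter hy.2 n⟩, ?_⟩
      rw [Function.iterate_succ_apply'] at hyn
      exact hyn
    · left
      exact ⟨hy, hc⟩

/-- the cylinder of `x` lies in a small ball -/
theorem cyl_ball (hD : Stmt_Dist) {α : ℝ} (hα : Par α) {n : ℕ} {x y : ℝ} (hx : x ∈ XX α)
    (hy : y ∈ XX α) (hs : Same α n x y) : y ∈ closedBall x (64 * (W α x n) ^ 2) := by
  rw [mem_closedBall, dist_comm, Real.dist_eq, (hD α n x y hα hx hy hs).1]
  have h1 : |(T α)^[n] x - (T α)^[n] y| ≤ 1 := by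
    have h1 := (XX_iter hx n).1
    have h2 := (XX_iter hy n).1
    rw [abs_le]
    constructor <;> linarith [h1.1, h1.2, h2.1, h2.2]
  have h2 := (hD α n y x hα hy hx (Same_symm hs)).2
  have h3 := (W_pos (α := α) (XX_irr hx) n).le
  have h4 := (W_pos (α := α) (XX_irr hy) n).le
  calc |(T α)^[n] x - (T α)^[n] y| * W α x n * W α y n ≤ 1 * W α x n * (64 * W α x n) := by
        gcongr
    _ = _ := by ring

end Fill

theorem fill_proof (h3 : Stmt_W3) (hD : Stmt_Dist) (hP : Stmt_Push) (hF : Stmt_FullAE) :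
    Stmt_Fill := by
  intro α hα S hS hpos hnull
  by_contra hne
  have hc : 0 < volume (XX α \ S) := pos_iff_ne_zero.2 hne
  have hcfin : volume (XX α \ S) ≠ ∞ := by
    have h1 : volume (XX α \ S) ≤ volume (XX α) := measure_mono sdiff_subset
    rw [volume_XX] at h1
    exact ne_top_of_le_ne_top ENNReal.one_ne_top h1
  set c : ℝ := (volume (XX α \ S)).toReal with hcdef
  have hc0 : 0 < c := ENNReal.toReal_pos hne hcfin
  -- the point
  obtain ⟨x, hxS, hxX, hdens, hfull⟩ : ∃ x ∈ S, x ∈ XX α ∧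
      Tendsto (fun r => volume ((S ∩ XX α) ∩ closedBall x r) / volume (closedBall x r))
        (𝓝[>] (0 : ℝ)) (𝓝 1) ∧ ∀ N : ℕ, ∃ n ≥ N, Full α n x := by
    have h1 := Besicovitch.ae_tendsto_measure_inter_div (volume : Measure ℝ) (S ∩ XX α)
    have h2 : ∀ᵐ x ∂(volume.restrict (S ∩ XX α)), x ∈ XX α → ∀ N : ℕ, ∃ n ≥ N, Full α n x :=
      ae_restrict_of_ae (hF α hα)
    have h4 : ∀ᵐ x ∂(volume.restrict (S ∩ XX α)), x ∈ S ∩ XX α :=
      ae_restrict_mem (hS.inter (measurableSet_XX α))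
    have h5 : NeBot (ae (volume.restrict (S ∩ XX α))) := by
      rw [ae_neBot]
      intro h
      rw [Measure.restrict_eq_zero] at h
      exact hpos.ne' h
    obtain ⟨x, hx⟩ := (h1.and (h2.and h4)).exists
    exact ⟨x, hx.2.2.1, hx.2.2.2, hx.1, hx.2.1 hx.2.2.2⟩
  -- small radius
  set ε : ℝ := c / 2 ^ 20 with hε
  have hε0 : 0 < ε := by positivity
  have hev : ∀ᶠ r in 𝓝[>] (0 : ℝ), ENNReal.ofReal (1 - ε) <
      volume ((S ∩ XX α) ∩ closedBall x r) / volume (closedBall x r) := by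
    apply (tendsto_order.1 hdens).1
    rw [← ENNReal.ofReal_one]
    exact (ENNReal.ofReal_lt_ofReal_iff one_pos).2 (by linarith)
  rw [eventually_nhdsWithin_iff, Metric.eventually_nhds_iff] at hev
  obtain ⟨δ, hδ, hδr⟩ := hev
  -- W → 0
  have hWlim : Tendsto (fun n : ℕ => 64 * ((1 / 3 : ℝ) ^ (n / 3)) ^ 2) atTop (𝓝 0) := by
    have h1 : Tendsto (fun n : ℕ => (1 / 3 : ℝ) ^ n) atTop (𝓝 0) :=
      tendsto_pow_atTop_nhds_zero_of_lt_one (by norm_num) (by norm_num)
    have h2 : Tendsto (fun n : ℕ => n / 3) atTop atTop :=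
      Nat.tendsto_div_const_atTop (by norm_num)
    have h3 := ((h1.comp h2).pow 2).const_mul 64
    simpa using h3
  obtain ⟨N, hN⟩ := eventually_atTop.1 ((tendsto_order.1 hWlim).2 δ hδ)
  obtain ⟨n, hn, hfn⟩ := hfull N
  set w := W α x n with hw
  have hw0 : 0 < w := W_pos (XX_irr hxX) n
  set r := 64 * w ^ 2 with hr
  have hr0 : 0 < r := by positivity
  have hrδ : r < δ := by
    refine lt_of_le_of_lt ?_ (hN n hn)
    have h1 := Dist.W_le_pow h3 hα n hxX
    have h2 : w ^ 2 ≤ ((1 / 3 : ℝ) ^ (n / 3)) ^ 2 := pow_le_pow_left₀ hw0.le h1 2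
    linarith
  have hq := hδr (y := r) (by rw [Real.dist_eq, sub_zero, abs_of_pos hr0]; exact hrδ) hr0
  have hball : volume (closedBall x r) = ENNReal.ofReal (2 * r) := Real.volume_closedBall x r
  -- volume of the complement
  have hSm : MeasurableSet (S ∩ XX α) := hS.inter (measurableSet_XX α)
  have hsplit : volume ((S ∩ XX α) ∩ closedBall x r) + volume (closedBall x r \ (S ∩ XX α)) =
      volume (closedBall x r) := by
    rw [inter_comm]
    exact measure_inter_add_sdiff _ hSm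
  have hlow := (hP α n x (XX α \ S) hα hxX ((measurableSet_XX α).diff hS) sdiff_subset).2 hfn
  have hup : volume {y | y ∈ XX α ∧ Same α n x y ∧ (T α)^[n] y ∈ XX α \ S} ≤
      volume (closedBall x r \ (S ∩ XX α)) := by
    have h1 : {y | y ∈ XX α ∧ Same α n x y ∧ (T α)^[n] y ∈ XX α \ S} ⊆
        (closedBall x r \ (S ∩ XX α)) ∪ {y | y ∈ S ∩ XX α ∧ (T α)^[n] y ∉ S} := by
      rintro y ⟨hy, hs, hyn⟩
      by_cases hyS : y ∈ S ∩ XX α
      · exact Or.inr ⟨hyS, hyn.2⟩
      · exact Or.inl ⟨Fill.cyl_ball hD hα hxX hy hs, hyS⟩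
    refine (measure_mono h1).trans ((measure_union_le _ _).trans ?_)
    rw [Fill.iter_null hP hα S hS hnull n, add_zero]
  -- pass to real numbers
  have hfinb : volume (closedBall x r) ≠ ∞ := by rw [hball]; exact ENNReal.ofReal_ne_top
  have hfin1 : volume ((S ∩ XX α) ∩ closedBall x r) ≠ ∞ :=
    ne_top_of_le_ne_top hfinb (measure_mono inter_subset_right)
  have hfin2 : volume (closedBall x r \ (S ∩ XX α)) ≠ ∞ :=
    ne_top_of_le_ne_top hfinb (measure_mono sdiff_subset)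
  set A := (volume ((S ∩ XX α) ∩ closedBall x r)).toReal with hA
  set B := (volume (closedBall x r \ (S ∩ XX α))).toReal with hB
  have hAB : A + B = 2 * r := by
    rw [hA, hB, ← ENNReal.toReal_add hfin1 hfin2, hsplit, hball,
      ENNReal.toReal_ofReal (by positivity)]
  have hA1 : (1 - ε) * (2 * r) ≤ A := by
    have h1 : ENNReal.ofReal (1 - ε) * volume (closedBall x r) ≤
        volume ((S ∩ XX α) ∩ closedBall x r) := by
      have h2 := hq.le
      rwa [ENNReal.le_div_iff_mul_le (Or.inl (by rw [hball]; simpa using hr0))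
        (Or.inl hfinb)] at h2
    rw [hball, ← ENNReal.ofReal_mul' (by positivity)] at h1
    exact (ENNReal.ofReal_le_iff_le_toReal hfin1).1 h1
  have hB1 : (w / 64) ^ 2 * c ≤ B := by
    have h1 := hlow.trans hup
    have h2 : volume (XX α \ S) = ENNReal.ofReal c := (ENNReal.ofReal_toReal hcfin).symm
    rw [h2, ← ENNReal.ofReal_mul (by positivity)] at h1
    exact (ENNReal.ofReal_le_iff_le_toReal hfin2).1 h1
  have h6 : (w / 64) ^ 2 * c ≤ ε * (2 * r) := by linarith
  have h7 : ε * (2 * r) = (w / 64) ^ 2 * c / 2 := by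
    rw [hε, hr]
    ring
  rw [h7] at h6
  have h8 : 0 < (w / 64) ^ 2 * c := by positivity
  linarith

end Pool.Agent.TI
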