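import Pool.Agent.TI.Stmts
import Pool.Agent.TI.Dist
import Pool.Agent.TI.Fill

set_option autoImplicit false

open MeasureTheory Set Filter Topology Metric
open scoped ENNReal NNReal

namespace Pool.Agent.TI

namespace Fae

/-- points that are never full -/
def Nv (α : ℝ) : Set ℝ := {x | x ∈ XX α ∧ ∀ m, 1 ≤ m → ¬ Full α m x}

theorem bound (h3 : Stmt_W3) (hC : Stmt_Cover) (hP : Stmt_Push) {α : ℝ} (hα : Par α) (k : ℕ) :
    volume (Nv α) ≤ ENNReal.ofReal (4096 * (8 / 9 : ℝ) ^ k) := by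
  classical
  obtain ⟨V, hV, hcov⟩ := hC α hα (3 * k)
  have h1 : Nv α ⊆ ⋃ w ∈ V, {y | y ∈ XX α ∧
      ∀ j : Fin (3 * k), dig α ((T α)^[(j : ℕ)] y) = w j} := by
    rintro y ⟨hy, hyn⟩
    simp only [mem_iUnion]
    exact ⟨_, hcov y hy (fun m hm _ => hyn m hm), hy, fun _ => rfl⟩
  have h2 : ∀ w : Fin (3 * k) → ℤ, volume {y | y ∈ XX α ∧
      ∀ j : Fin (3 * k), dig α ((T α)^[(j : ℕ)] y) = w j} ≤
        ENNReal.ofReal (4096 * (1 / 9 : ℝ) ^ k) := by
    intro w
    rcases Set.eq_empty_or_nonempty {y | y ∈ XX α ∧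
      ∀ j : Fin (3 * k), dig α ((T α)^[(j : ℕ)] y) = w j} with h | ⟨x, hx, hxw⟩
    · rw [h, measure_empty]
      exact zero_le
    · have h5 := (hP α (3 * k) x (XX α) hα hx (measurableSet_XX α) subset_rfl).1
      rw [volume_XX, mul_one] at h5
      refine (measure_mono ?_).trans (h5.trans ?_)
      · rintro y ⟨hy, hyw⟩
        refine ⟨hy, ?_, XX_iter hy _⟩
        intro j hj
        rw [hxw ⟨j, hj⟩, hyw ⟨j, hj⟩]
      · apply ENNReal.ofReal_le_ofReal
        have h6 := Dist.W_le_pow h3 hα (3 * k) hx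
        have h7 : 3 * k / 3 = k := by omega
        rw [h7] at h6
        have h8 := (W_pos (α := α) (XX_irr hx) (3 * k)).le
        have h9 : (W α x (3 * k)) ^ 2 ≤ ((1 / 3 : ℝ) ^ k) ^ 2 := pow_le_pow_left₀ h8 h6 2
        have h10 : ((1 / 3 : ℝ) ^ k) ^ 2 = (1 / 9 : ℝ) ^ k := by
          rw [← pow_mul, mul_comm, pow_mul]
          norm_num
        rw [h10] at h9
        rw [mul_pow]
        linarith
  calc volume (Nv α) ≤ ∑ w ∈ V, volume {y | y ∈ XX α ∧
      ∀ j : Fin (3 * k), dig α ((T α)^[(j : ℕ)] y) = w j} :=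
        (measure_mono h1).trans (measure_biUnion_finset_le _ _)
    _ ≤ ∑ _w ∈ V, ENNReal.ofReal (4096 * (1 / 9 : ℝ) ^ k) := Finset.sum_le_sum (fun w _ => h2 w)
    _ = V.card * ENNReal.ofReal (4096 * (1 / 9 : ℝ) ^ k) := by
        rw [Finset.sum_const, nsmul_eq_mul]
    _ = ENNReal.ofReal (V.card * (4096 * (1 / 9 : ℝ) ^ k)) := by
        rw [ENNReal.ofReal_mul (p := (V.card : ℝ)) (by positivity), ENNReal.ofReal_natCast]
    _ ≤ _ := by
        apply ENNReal.ofReal_le_ofReal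
        have h4 : (V.card : ℝ) ≤ 8 ^ k := by
          have : (V.card : ℝ) ≤ ((2 ^ (3 * k) : ℕ) : ℝ) := by exact_mod_cast hV
          refine this.trans (le_of_eq ?_)
          push_cast
          rw [pow_mul]
          norm_num
        have h5 : (8 / 9 : ℝ) ^ k = 8 ^ k * (1 / 9 : ℝ) ^ k := by
          rw [← mul_pow]
          norm_num
        rw [h5]
        have h6 : (0 : ℝ) ≤ (1 / 9 : ℝ) ^ k := by positivity
        nlinarith [mul_le_mul_of_nonneg_right h4 h6]

theorem null (h3 : Stmt_W3) (hC : Stmt_Cover) (hP : Stmt_Push) {α : ℝ} (hα : Par α) :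
    volume (Nv α) = 0 := by
  have h1 : Tendsto (fun k : ℕ => ENNReal.ofReal (4096 * (8 / 9 : ℝ) ^ k)) atTop (𝓝 0) := by
    have h2 : Tendsto (fun k : ℕ => 4096 * (8 / 9 : ℝ) ^ k) atTop (𝓝 (4096 * 0)) :=
      (tendsto_pow_atTop_nhds_zero_of_lt_one (by norm_num) (by norm_num)).const_mul _
    have h4 := ENNReal.tendsto_ofReal h2
    simpa using h4
  exact le_antisymm (ge_of_tendsto' h1 (fun k => bound h3 hC hP hα k)) zero_le

end Fae

theorem fullAE_proof (h3 : Stmt_W3) (hC : Stmt_Cover) (hP : Stmt_Push) : Stmt_FullAE := by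
  intro α hα
  have h0 := Fae.null h3 hC hP hα
  let E : Set ℝ := toMeasurable volume (Fae.Nv α) ∩ XX α
  have hE : MeasurableSet E := (measurableSet_toMeasurable _ _).inter (measurableSet_XX α)
  have hE0 : volume E = 0 := by
    refine measure_mono_null inter_subset_left ?_
    rw [measure_toMeasurable, h0]
  have h1 : volume (⋃ m : ℕ, {y | y ∈ XX α ∧ (T α)^[m] y ∈ E}) = 0 :=
    measure_iUnion_null (fun m => Fill.null_pre hP hα m E hE inter_subset_right hE0)
  have h2 := measure_eq_zero_iff_ae_notMem.1 h1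
  filter_upwards [h2] with x hx hxX N
  by_contra hcon
  push Not at hcon
  -- the last full time
  classical
  obtain ⟨m, hm1, hm2⟩ : ∃ m, Full α m x ∧ ∀ n, Full α n x → n ≤ m := by
    have hb : ∀ n, Full α n x → n < N + 1 := by
      intro n hn
      by_contra hc
      exact hcon n (by omega) hn
    have hne : ((Finset.range (N + 1)).filter (fun n => Full α n x)).Nonempty :=
      ⟨0, Finset.mem_filter.2 ⟨Finset.mem_range.2 (by omega), Full_zero α x⟩⟩
    refine ⟨((Finset.range (N + 1)).filter (fun n => Full α n x)).max' hne, ?_, ?_⟩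
    · exact (Finset.mem_filter.1 (Finset.max'_mem _ hne)).2
    · intro n hn
      exact Finset.le_max' _ _ (Finset.mem_filter.2 ⟨Finset.mem_range.2 (hb n hn), hn⟩)
  apply hx
  rw [mem_iUnion]
  refine ⟨m, hxX, ?_, XX_iter hxX m⟩
  apply subset_toMeasurable
  refine ⟨XX_iter hxX m, ?_⟩
  intro j hj hfull
  have := hm2 _ (Full_add hm1 hfull)
  omega

end Pool.Agent.TI
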