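import Mathlib

/-!
# Absolute continuity along sequences of sets
-/

open MeasureTheory Set Filter Topology
open scoped ENNReal NNReal

namespace Pool.Agent.TI.Tools

theorem ac_tendsto {X : Type*} [MeasurableSpace X] {μ ν : Measure X} [IsFiniteMeasure μ] [SigmaFinite ν] (h : μ ≪ ν)
    {E : ℕ → Set X} (hE : Tendsto (fun n => ν (E n)) atTop (𝓝 0)) : Tendsto (fun n => μ (E n)) atTop (𝓝 0) := by
  have h1 : ν.withDensity (μ.rnDeriv ν) = μ := Measure.withDensity_rnDeriv_eq μ ν h
  have h2 : ∫⁻ x, μ.rnDeriv ν x ∂ν ≠ ∞ := (Measure.lintegral_rnDeriv_lt_top μ ν).ne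
  have h3 := tendsto_setLIntegral_zero h2 hE
  refine h3.congr fun n => ?_
  rw [← withDensity_apply', h1]

end Pool.Agent.TI.Tools
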