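import Pool.Agent.TI.Tools
import Pool.Agent.TI.Tools2

/-!
# Tanaka–Ito maps: module LOW (MP_0c85a0_an): `lyap ≤ entropy`
-/

open MeasureTheory Set Filter Topology
open scoped ENNReal NNReal

namespace Pool.Agent.TI.Low

open Pool.Agent.TI

noncomputable section

/-! ### the truncated digit partition -/

/-- the label of a digit -/
def labZ (K : ℕ) (a : ℤ) : Fin (2 * K + 2) :=
  if h : |a| ≤ (K : ℤ) then ⟨(a + K).toNat + 1, by
    rw [abs_le] at h
    omega⟩ else 0

theorem labZ_eq {K : ℕ} {a b : ℤ} (h : labZ K a = labZ K b) : a = b ∨ ((K : ℤ) < |a| ∧ (K : ℤ) < |b|) := by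
  unfold labZ at h
  split_ifs at h with h1 h2 h2
  · left
    rw [Fin.mk.injEq] at h
    rw [abs_le] at h1 h2
    omega
  · exact absurd (congrArg Fin.val h) (by simp)
  · exact absurd (congrArg Fin.val h) (by simp)
  · right
    exact ⟨not_le.mp h1, not_le.mp h2⟩

def lab (α : ℝ) (K : ℕ) (x : ℝ) : Fin (2 * K + 2) := labZ K (dig α x)

theorem measurable_lab (α : ℝ) (K : ℕ) : Measurable (lab α K) :=
  (measurable_of_countable (labZ K)).comp (measurable_dig α)

/-! ### the truncated logarithmic derivative -/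

def psi (α : ℝ) (K : ℕ) (x : ℝ) : ℝ := -Real.log (wK α K x)

theorem measurable_wK (α : ℝ) (K : ℕ) : Measurable (wK α K) := by
  unfold wK
  refine Measurable.ite ?_ (by fun_prop) measurable_const
  exact (measurable_dig α) (MeasurableSet.of_discrete (s := {a : ℤ | |a| ≤ (K : ℤ)}))

theorem measurable_psi (α : ℝ) (K : ℕ) : Measurable (psi α K) :=
  (Real.measurable_log.comp (measurable_wK α K)).neg

theorem wK_pos {α : ℝ} {K : ℕ} (hK : 1 ≤ K) {x : ℝ} (hx : x ∈ XX α) : 0 < wK α K x := by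
  unfold wK
  have := XX_ne hx
  have h2 : (0 : ℝ) < K := by exact_mod_cast hK
  split_ifs
  · positivity
  · positivity

theorem psi_nonneg {α : ℝ} (hP : Par α) {K : ℕ} (hK : 2 ^ 16 ≤ K) {x : ℝ} (hx : x ∈ XX α) : 0 ≤ psi α K x := by
  unfold psi
  rw [Left.nonneg_neg_iff]
  refine Real.log_nonpos (wK_pos (le_trans (by norm_num) hK) hx).le ?_
  unfold wK
  split_ifs
  · have := XX_abs hP.1 hP.2.2 hx
    have h0 := abs_nonneg x
    nlinarith
  · have h2 : (2 ^ 16 : ℝ) ≤ K := by exact_mod_cast hK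
    rw [div_le_one (by linarith [show (0 : ℝ) < 2 ^ 16 by norm_num])]
    exact h2

theorem abs_ge {α : ℝ} (hP : Par α) {x : ℝ} (hx : x ∈ XX α) {K : ℕ} (hK : |dig α x| ≤ (K : ℤ)) :
    1 / ((K : ℝ) + 1) ≤ |x| := by
  have h1 : |(dig α x : ℝ)| ≤ K := by exact_mod_cast hK
  have h2 := XX_abs hP.1 hP.2.2 (XX_T hx)
  have h3 : |(dig α x : ℝ) + T α x| ≤ K + 1 := (abs_add_le _ _).trans (by linarith)
  have h4 : 0 < |x| := abs_pos.mpr (XX_ne hx)
  have h5 : |x| = 1 / |(dig α x : ℝ) + T α x| := by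
    conv_lhs => rw [inv_dig (α := α) (x := x)]
    rw [abs_div, abs_one]
  have h6 : 0 < |(dig α x : ℝ) + T α x| := by
    by_contra hcon
    have : |(dig α x : ℝ) + T α x| = 0 := le_antisymm (not_lt.mp hcon) (abs_nonneg _)
    rw [this, div_zero] at h5
    linarith
  rw [h5]
  exact one_div_le_one_div_of_le h6 h3

theorem wK_ge {α : ℝ} (hP : Par α) {K : ℕ} (hK : 1 ≤ K) {x : ℝ} (hx : x ∈ XX α) :
    (1 / ((K : ℝ) + 1)) ^ 2 ≤ wK α K x := by
  have hK' : (1 : ℝ) ≤ K := by exact_mod_cast hK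
  unfold wK
  split_ifs with h
  · exact pow_le_pow_left₀ (by positivity) (abs_ge hP hx h) 2
  · rw [div_pow, one_pow, div_le_div_iff₀ (by positivity) (by positivity)]
    nlinarith

theorem psi_le {α : ℝ} (hP : Par α) {K : ℕ} (hK : 1 ≤ K) {x : ℝ} (hx : x ∈ XX α) :
    psi α K x ≤ 2 * Real.log (K + 1) := by
  have hK' : (1 : ℝ) ≤ K := by exact_mod_cast hK
  have h1 := Real.log_le_log (by positivity) (wK_ge hP hK hx)
  rw [Real.log_pow, one_div, Real.log_inv] at h1
  unfold psi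
  push_cast at h1
  linarith

theorem integrable_psi {α : ℝ} {μ : Measure ℝ} (hP : Par α) (hμ : ACIP α μ) {K : ℕ} (hK : 2 ^ 16 ≤ K) :
    Integrable (psi α K) μ := by
  have := hμ.prob
  refine Integrable.of_bound (measurable_psi α K).aestronglyMeasurable (2 * Real.log (K + 1)) ?_
  filter_upwards [hμ.ae_XX] with x hx
  rw [Real.norm_eq_abs, abs_of_nonneg (psi_nonneg hP hK hx)]
  exact psi_le hP (le_trans (by norm_num) hK) hx

theorem exists_K {α : ℝ} {μ : Measure ℝ} (hP : Par α) (hμ : ACIP α μ) {L : ℝ≥0} (hL : (L : ℝ≥0∞) < lyap μ) :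
    ∃ K : ℕ, 2 ^ 16 ≤ K ∧ (L : ℝ) < ∫ x, psi α K x ∂μ := by
  have := hμ.prob
  let A : ℕ → Set ℝ := fun K => {x | |dig α x| ≤ (K : ℤ)}
  have hA : ∀ K, MeasurableSet (A K) := fun K =>
    (measurable_dig α) (MeasurableSet.of_discrete (s := {a : ℤ | |a| ≤ (K : ℤ)}))
  have hmono : Monotone A := by
    intro K K' h x hx
    have hx' : |dig α x| ≤ (K : ℤ) := hx
    have h' : (K : ℤ) ≤ K' := by exact_mod_cast h
    exact hx'.trans h'
  have hU : ⋃ K, A K = univ := by
    rw [eq_univ_iff_forall]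
    intro x
    rw [mem_iUnion]
    exact ⟨(dig α x).natAbs, by simp [A]⟩
  have h1 : lyap μ = ⨆ K, ∫⁻ x in A K, ENNReal.ofReal (-2 * Real.log |x|) ∂μ := by
    rw [← setLIntegral_iUnion_of_directed _ hmono.directed_le, hU, setLIntegral_univ]
    rfl
  rw [h1, lt_iSup_iff] at hL
  obtain ⟨K0, hK0⟩ := hL
  refine ⟨max K0 (2 ^ 16), le_max_right _ _, ?_⟩
  set K := max K0 (2 ^ 16) with hK
  have hK16 : 2 ^ 16 ≤ K := le_max_right _ _
  have h2 : (L : ℝ≥0∞) < ∫⁻ x, ENNReal.ofReal (psi α K x) ∂μ := by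
    calc (L : ℝ≥0∞) < ∫⁻ x in A K0, ENNReal.ofReal (-2 * Real.log |x|) ∂μ := hK0
      _ ≤ ∫⁻ x in A K, ENNReal.ofReal (-2 * Real.log |x|) ∂μ := lintegral_mono_set (hmono (le_max_left _ _))
      _ = ∫⁻ x in A K, ENNReal.ofReal (psi α K x) ∂μ := by
          refine setLIntegral_congr_fun (hA K) fun x hx => ?_
          have : psi α K x = -2 * Real.log |x| := by
            have hx' : |dig α x| ≤ (K : ℤ) := hx
            unfold psi wK
            rw [if_pos hx', Real.log_pow]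
            push_cast
            ring
          rw [this]
      _ ≤ ∫⁻ x, ENNReal.ofReal (psi α K x) ∂μ := setLIntegral_le_lintegral _ _
  have h3 : ∫ x, psi α K x ∂μ = (∫⁻ x, ENNReal.ofReal (psi α K x) ∂μ).toReal := by
    refine integral_eq_lintegral_of_nonneg_ae ?_ (measurable_psi α K).aestronglyMeasurable
    filter_upwards [hμ.ae_XX] with x hx
    exact psi_nonneg hP hK16 hx
  rw [h3]
  have h4 : ∫⁻ x, ENNReal.ofReal (psi α K x) ∂μ ≠ ∞ := by
    have h5 := (integrable_psi hP hμ hK16).2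
    refine ne_of_lt (lt_of_le_of_lt (lintegral_mono fun x => ?_) h5)
    rw [← ofReal_norm]
    exact ENNReal.ofReal_le_ofReal (Real.le_norm_self _)
  have := ENNReal.toReal_strict_mono h4 h2
  simpa using this

/-- volume of a family of words with small weight -/
theorem vol_words (hStar : Stmt_Star) {α : ℝ} (hP : Par α) {K : ℕ} (hK : 1 ≤ K) (n : ℕ) (c : ℝ)
    (V : Finset (Fin n → Fin (2 * K + 2))) :
    volume {x | x ∈ XX α ∧ c ≤ ∑ j ∈ Finset.range n, psi α K ((T α)^[j] x) ∧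
      (fun i : Fin n => lab α K ((T α)^[(i : ℕ)] x)) ∈ V} ≤ V.card * ENNReal.ofReal (2 ^ 12 * Real.exp (-c)) := by
  classical
  let B : (Fin n → Fin (2 * K + 2)) → Set ℝ := fun w => {x | x ∈ XX α ∧
    c ≤ ∑ j ∈ Finset.range n, psi α K ((T α)^[j] x) ∧ (fun i : Fin n => lab α K ((T α)^[(i : ℕ)] x)) = w}
  have hB : ∀ w, volume (B w) ≤ ENNReal.ofReal (2 ^ 12 * Real.exp (-c)) := by
    intro w
    rcases (B w).eq_empty_or_nonempty with h | ⟨x, hx, hxc, hxw⟩
    · rw [h, measure_empty]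
      exact zero_le
    · have h1 : B w ⊆ {y | y ∈ XX α ∧ SameK α K n x y} := by
        rintro y ⟨hy, _, hyw⟩
        refine ⟨hy, fun j hj => ?_⟩
        have h2 := congrFun (hxw.trans hyw.symm) ⟨j, hj⟩
        exact labZ_eq h2
      refine (measure_mono h1).trans ((hStar α hP K hK n x hx).trans (ENNReal.ofReal_le_ofReal ?_))
      refine mul_le_mul_of_nonneg_left ?_ (by norm_num)
      have h3 : ∏ j ∈ Finset.range n, wK α K ((T α)^[j] x) =
          Real.exp (-∑ j ∈ Finset.range n, psi α K ((T α)^[j] x)) := by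
        rw [← Finset.sum_neg_distrib, Real.exp_sum]
        refine Finset.prod_congr rfl fun j _ => ?_
        unfold psi
        rw [neg_neg, Real.exp_log (wK_pos hK (XX_iter hx j))]
      rw [h3]
      exact Real.exp_le_exp.mpr (neg_le_neg hxc)
  calc _ ≤ volume (⋃ w ∈ V, B w) := by
        refine measure_mono ?_
        rintro x ⟨hx, hxc, hxV⟩
        rw [mem_iUnion₂]
        exact ⟨_, hxV, hx, hxc, rfl⟩
    _ ≤ ∑ w ∈ V, volume (B w) := measure_biUnion_finset_le _ _
    _ ≤ ∑ w ∈ V, ENNReal.ofReal (2 ^ 12 * Real.exp (-c)) := Finset.sum_le_sum fun w _ => hB w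
    _ = _ := by rw [Finset.sum_const, nsmul_eq_mul]

/-- the contradiction -/
theorem contra (hMean : Stmt_Mean) (hEntLow : Stmt_EntLow) (hStar : Stmt_Star)
    (hErg : Stmt_Erg) {α : ℝ} {μ : Measure ℝ} (hP : Par α) (hμ : ACIP α μ) {h L : ℝ≥0} (hhL : h < L)
    (h1 : ksEntropy μ (T α) < h) (h2 : (L : ℝ≥0∞) < lyap μ) : False := by
  have := hμ.prob
  obtain ⟨K, hK, hI⟩ := exists_K hP hμ h2
  have hK1 : 1 ≤ K := le_trans (by norm_num) hK
  set I := ∫ x, psi α K x ∂μ with hIdef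
  set ε : ℝ := ((L : ℝ) - h) / 4 with hε
  have hhL' : (h : ℝ) < L := by exact_mod_cast hhL
  have hεpos : 0 < ε := by rw [hε]; linarith
  -- entropy
  have h3 : limsup (fun n : ℕ => ENNReal.ofReal (joinEntropy μ (T α) (lab α K) n / n)) atTop < h := by
    refine lt_of_le_of_lt ?_ h1
    unfold ksEntropy
    exact le_iSup_of_le (2 * K + 2) (le_iSup_of_le (lab α K) (le_iSup_of_le (measurable_lab α K) le_rfl))
  have h4 := eventually_lt_of_limsup_lt h3
  have h5 : ∀ᶠ n : ℕ in atTop, joinEntropy μ (T α) (lab α K) n ≤ n * h := by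
    filter_upwards [h4, eventually_gt_atTop 0] with n hn hn0
    have hn0' : (0 : ℝ) < n := by exact_mod_cast hn0
    have h6 : ENNReal.ofReal (joinEntropy μ (T α) (lab α K) n / n) < ENNReal.ofReal h := by
      rwa [ENNReal.ofReal_coe_nnreal]
    have h7 := (ENNReal.ofReal_lt_ofReal_iff'.mp h6).1
    rw [div_lt_iff₀ hn0'] at h7
    linarith
  -- the good words
  have h8 : ∀ n : ℕ, ∃ V : Finset (Fin n → Fin (2 * K + 2)), 0 < n → joinEntropy μ (T α) (lab α K) n ≤ n * h →
      (V.card : ℝ) ≤ Real.exp (n * (h + ε)) ∧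
        ε / (h + ε) ≤ μ.real {x | (fun i : Fin n => lab α K ((T α)^[(i : ℕ)] x)) ∈ V} := by
    intro n
    by_cases hn : 0 < n ∧ joinEntropy μ (T α) (lab α K) n ≤ n * h
    · obtain ⟨V, hV1, hV2⟩ := hEntLow ℝ μ (T α) (measurable_T α) (2 * K + 2) (lab α K) (measurable_lab α K) n h ε hn.1
        h.2 hεpos hn.2
      exact ⟨V, fun _ _ => ⟨hV1, hV2⟩⟩
    · exact ⟨∅, fun h9 h10 => absurd ⟨h9, h10⟩ hn⟩
  choose V hV using h8
  -- the exceptional sets
  let G : ℕ → Set ℝ := fun n => {x | (n : ℝ) * (L - ε) ≤ ∑ j ∈ Finset.range n, psi α K ((T α)^[j] x)}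
  let E : ℕ → Set ℝ := fun n => {x | x ∈ XX α ∧ (n : ℝ) * (L - ε) ≤ ∑ j ∈ Finset.range n, psi α K ((T α)^[j] x) ∧
      (fun i : Fin n => lab α K ((T α)^[(i : ℕ)] x)) ∈ V n}
  -- volume of E n tends to zero
  have h9 : Tendsto (fun n => volume (E n)) atTop (𝓝 0) := by
    have h10 : ∀ᶠ n : ℕ in atTop, volume (E n) ≤ ENNReal.ofReal (2 ^ 12 * Real.exp (-(2 * ε) * n)) := by
      filter_upwards [h5, eventually_gt_atTop 0] with n hn hn0
      have h11 := vol_words hStar hP hK1 n (n * (L - ε)) (V n)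
      refine h11.trans ?_
      have h12 := (hV n hn0 hn).1
      have h13 : ((V n).card : ℝ≥0∞) = ENNReal.ofReal ((V n).card : ℝ) := by
        rw [ENNReal.ofReal_natCast]
      rw [h13, ← ENNReal.ofReal_mul (by positivity)]
      apply ENNReal.ofReal_le_ofReal
      calc ((V n).card : ℝ) * (2 ^ 12 * Real.exp (-(n * (L - ε))))
          ≤ Real.exp (n * (h + ε)) * (2 ^ 12 * Real.exp (-(n * (L - ε)))) :=
            mul_le_mul_of_nonneg_right h12 (by positivity)
        _ = 2 ^ 12 * (Real.exp (n * (h + ε)) * Real.exp (-(n * (L - ε)))) := by ring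
        _ = 2 ^ 12 * Real.exp (-(2 * ε) * n) := by
            rw [← Real.exp_add]
            congr 2
            rw [hε]
            ring
    have h14 : Tendsto (fun n : ℕ => ENNReal.ofReal (2 ^ 12 * Real.exp (-(2 * ε) * n))) atTop (𝓝 0) := by
      rw [show (0 : ℝ≥0∞) = ENNReal.ofReal (2 ^ 12 * 0) by simp]
      refine ENNReal.tendsto_ofReal (Tendsto.const_mul _ ?_)
      have h15 : Tendsto (fun n : ℕ => (-(2 * ε)) * (n : ℝ)) atTop atBot :=
        Tendsto.const_mul_atTop_of_neg (by linarith) tendsto_natCast_atTop_atTop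
      exact Real.tendsto_exp_atBot.comp h15
    exact tendsto_of_tendsto_of_tendsto_of_le_of_le' tendsto_const_nhds h14
      (Eventually.of_forall fun n => zero_le) h10
  have h16 : Tendsto (fun n => μ (E n)) atTop (𝓝 0) := Tools.ac_tendsto hμ.ac h9
  -- the complement of G n has small measure
  have h17 : Tendsto (fun n => μ (G n)ᶜ) atTop (𝓝 0) := by
    have h18 := hMean ℝ μ (T α) (hErg α μ hP hμ).1 (psi α K) (integrable_psi hP hμ hK)
    have h19 := h18 (ENNReal.ofReal ε) (by simpa using hεpos)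
    refine tendsto_of_tendsto_of_tendsto_of_le_of_le' tendsto_const_nhds h19
      (Eventually.of_forall fun n => zero_le) ?_
    filter_upwards [eventually_gt_atTop 0] with n hn0
    have hn0' : (0 : ℝ) < n := by exact_mod_cast hn0
    refine measure_mono ?_
    intro x hx
    have hx' : ∑ j ∈ Finset.range n, psi α K ((T α)^[j] x) < (n : ℝ) * (L - ε) := not_le.mp hx
    have hx2 : (∑ j ∈ Finset.range n, psi α K ((T α)^[j] x)) / n < L - ε := by
      rw [div_lt_iff₀ hn0']
      linarith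
    have hx3 : ε ≤ |(∑ j ∈ Finset.range n, psi α K ((T α)^[j] x)) / n - I| := by
      rw [abs_sub_comm]
      exact le_trans (by linarith) (le_abs_self _)
    change ENNReal.ofReal ε ≤ edist ((∑ j ∈ Finset.range n, psi α K ((T α)^[j] x)) / n) I
    rw [edist_dist, Real.dist_eq]
    exact ENNReal.ofReal_le_ofReal hx3
  -- contradiction
  have h20 : Tendsto (fun n => μ (E n) + μ (G n)ᶜ) atTop (𝓝 0) := by
    have := h16.add h17
    rwa [add_zero] at this
  have hc : 0 < ε / (h + ε) := div_pos hεpos (by have := h.2; linarith)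
  have h21 : ∀ᶠ n : ℕ in atTop, ENNReal.ofReal (ε / (h + ε)) ≤ μ (E n) + μ (G n)ᶜ := by
    filter_upwards [h5, eventually_gt_atTop 0] with n hn hn0
    have h22 := (hV n hn0 hn).2
    have h23 : ENNReal.ofReal (ε / (h + ε)) ≤ μ {x | (fun i : Fin n => lab α K ((T α)^[(i : ℕ)] x)) ∈ V n} := by
      rw [← ENNReal.ofReal_toReal (measure_ne_top μ {x | (fun i : Fin n => lab α K ((T α)^[(i : ℕ)] x)) ∈ V n})]
      exact ENNReal.ofReal_le_ofReal h22
    have h24 : μ {x | x ∉ XX α} = 0 := hμ.ae_XX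
    calc ENNReal.ofReal (ε / (h + ε)) ≤ μ {x | (fun i : Fin n => lab α K ((T α)^[(i : ℕ)] x)) ∈ V n} := h23
      _ ≤ μ ((E n ∪ (G n)ᶜ) ∪ {x | x ∉ XX α}) := by
          refine measure_mono fun x hx => ?_
          by_cases hxX : x ∈ XX α
          · left
            by_cases hxG : x ∈ G n
            · left
              exact ⟨hxX, hxG, hx⟩
            · right
              exact hxG
          · right
            exact hxX
      _ ≤ μ (E n ∪ (G n)ᶜ) + μ {x | x ∉ XX α} := measure_union_le _ _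
      _ = μ (E n ∪ (G n)ᶜ) := by rw [h24, add_zero]
      _ ≤ μ (E n) + μ (G n)ᶜ := measure_union_le _ _
  have h25 := ge_of_tendsto h20 h21
  have h26 : 0 < ENNReal.ofReal (ε / (h + ε)) := by simpa using hc
  exact absurd h25 (not_le.mpr h26)

end

end Pool.Agent.TI.Low

namespace Pool.Agent.TI

theorem low_proof (hMean : Stmt_Mean) (hEntLow : Stmt_EntLow) (hStar : Stmt_Star) (hErg : Stmt_Erg) : Stmt_Low := by
  intro α μ hP hμ
  by_contra hcon
  rw [not_le] at hcon
  obtain ⟨h, h1, h2⟩ := ENNReal.lt_iff_exists_nnreal_btwn.mp hcon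
  obtain ⟨L, h3, h4⟩ := ENNReal.lt_iff_exists_nnreal_btwn.mp h2
  exact Low.contra hMean hEntLow hStar hErg hP hμ (by exact_mod_cast h3) h1 h4

end Pool.Agent.TI
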