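import Pool.Agent.TI.Stmts

/-!
# TI, module MEAN: ergodic averages converge in measure
-/

open MeasureTheory Set Filter Topology
open scoped ENNReal

namespace Pool.Agent.TI

noncomputable section

namespace Mean

variable {X : Type} [MeasurableSpace X] {μ : Measure X} [IsProbabilityMeasure μ] {S : X → X}

/-- the average -/
def A (S : X → X) (f : X → ℝ) (n : ℕ) (x : X) : ℝ := (∑ j ∈ Finset.range n, f (S^[j] x)) / n

theorem A_memLp (hS : MeasurePreserving S μ μ) {p : ℝ≥0∞} {f : X → ℝ} (hf : MemLp f p μ) (n : ℕ) :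
    MemLp (A S f n) p μ := by
  have h1 : MemLp (fun x => ∑ j ∈ Finset.range n, f (S^[j] x)) p μ := by
    apply memLp_finsetSum
    intro j _
    exact hf.comp_measurePreserving (hS.iterate j)
  have h2 := h1.mul_const ((n : ℝ)⁻¹)
  have h3 : A S f n = fun x => (∑ j ∈ Finset.range n, f (S^[j] x)) * (n : ℝ)⁻¹ := by
    ext x
    rw [A, div_eq_mul_inv]
  rw [h3]
  exact h2

theorem A_integral (hS : MeasurePreserving S μ μ) {f : X → ℝ} (hf : Integrable f μ) {n : ℕ}
    (hn : n ≠ 0) : ∫ x, A S f n x ∂μ = ∫ x, f x ∂μ := by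
  unfold A
  rw [integral_div, integral_finsetSum (f := fun j x => f (S^[j] x)) _ (fun j _ =>
    ((hS.iterate j).integrable_comp_of_integrable hf))]
  have h1 : ∀ j ∈ Finset.range n, ∫ x, f (S^[j] x) ∂μ = ∫ x, f x ∂μ := by
    intro j _
    have h2 := hS.iterate j
    have h3 : AEStronglyMeasurable f (Measure.map (S^[j]) μ) := by
      rw [h2.map_eq]; exact hf.1
    have h4 := integral_map h2.measurable.aemeasurable h3
    rw [h2.map_eq] at h4
    exact h4.symm
  rw [Finset.sum_congr rfl h1, Finset.sum_const, Finset.card_range, nsmul_eq_mul]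
  have : (n : ℝ) ≠ 0 := by exact_mod_cast hn
  field_simp

theorem A_eLpNorm_le (hS : MeasurePreserving S μ μ) {f : X → ℝ} (hf : MemLp f 1 μ) (n : ℕ) :
    eLpNorm (A S f n) 1 μ ≤ eLpNorm f 1 μ := by
  rcases Nat.eq_zero_or_pos n with h0 | h0
  · subst h0
    have : A S f 0 = 0 := by
      ext x; simp [A]
    rw [this]
    simp
  have h1 : A S f n = (n : ℝ)⁻¹ • (∑ j ∈ Finset.range n, (fun x => f (S^[j] x))) := by
    ext x
    simp [A, div_eq_inv_mul, Finset.sum_apply]
  rw [h1, eLpNorm_const_smul]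
  have h2 : eLpNorm (∑ j ∈ Finset.range n, (fun x => f (S^[j] x))) 1 μ ≤ n * eLpNorm f 1 μ := by
    refine (eLpNorm_sum_le (fun j _ => (hf.comp_measurePreserving (hS.iterate j)).1) le_rfl).trans ?_
    rw [Finset.sum_congr rfl (g := fun _ => eLpNorm f 1 μ)]
    · simp
    · intro j _
      exact eLpNorm_comp_measurePreserving hf.1 (hS.iterate j)
  calc ‖(n : ℝ)⁻¹‖ₑ * eLpNorm (∑ j ∈ Finset.range n, (fun x => f (S^[j] x))) 1 μ
      ≤ ‖(n : ℝ)⁻¹‖ₑ * (n * eLpNorm f 1 μ) := by gcongr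
    _ = (‖(n : ℝ)⁻¹‖ₑ * n) * eLpNorm f 1 μ := by rw [mul_assoc]
    _ = eLpNorm f 1 μ := by
        have : ‖(n : ℝ)⁻¹‖ₑ * n = 1 := by
          have h3 : (n : ℝ) ≠ 0 := by positivity
          rw [enorm_inv h3]
          have h4 : ‖(n : ℝ)‖ₑ = n := by
            rw [Real.enorm_eq_ofReal (by positivity)]
            simp
          rw [h4]
          exact ENNReal.inv_mul_cancel (by positivity) (by simp)
        rw [this, one_mul]

/-- `L²` case -/
theorem L2_case (hS : Ergodic S μ) {f : X → ℝ} (hf : MemLp f 2 μ) :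
    Tendsto (fun n => eLpNorm (A S f n - fun _ => ∫ x, f x ∂μ) 1 μ) atTop (𝓝 0) := by
  classical
  have hmp : MeasurePreserving S μ μ := hS.toMeasurePreserving
  let U : Lp ℝ 2 μ →L[ℝ] Lp ℝ 2 μ :=
    (Lp.compMeasurePreservingₗᵢ ℝ S hmp : Lp ℝ 2 μ →ₗᵢ[ℝ] Lp ℝ 2 μ).toContinuousLinearMap
  have hU : ‖U‖ ≤ 1 := LinearIsometry.norm_toContinuousLinearMap_le _
  have hmain := ContinuousLinearMap.tendsto_birkhoffAverage_orthogonalProjection U hU (hf.toLp f)
  have hcoe : ∀ g : Lp ℝ 2 μ, (U g : X → ℝ) =ᵐ[μ] g ∘ S := fun g =>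
    Lp.coeFn_compMeasurePreserving g hmp
  have hit : ∀ j : ℕ, ((U^[j] (hf.toLp f) : Lp ℝ 2 μ) : X → ℝ) =ᵐ[μ] fun x => f (S^[j] x) := by
    intro j
    induction j with
    | zero => simpa using hf.coeFn_toLp
    | succ j ih =>
      rw [Function.iterate_succ_apply']
      refine (hcoe _).trans ?_
      have h2 := hmp.quasiMeasurePreserving.ae_eq_comp ih
      refine h2.trans ?_
      apply Eventually.of_forall
      intro x
      simp [Function.comp]
  set L : Lp ℝ 2 μ := ((U.eqLocus (1 : Lp ℝ 2 μ →L[ℝ] Lp ℝ 2 μ)).orthogonalProjectionOnto (hf.toLp f) :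
    Lp ℝ 2 μ) with hL
  have hLfix : U L = L := by
    have := ((U.eqLocus (1 : Lp ℝ 2 μ →L[ℝ] Lp ℝ 2 μ)).orthogonalProjectionOnto (hf.toLp f)).2
    exact this
  have hLc : ∃ c : ℝ, (L : X → ℝ) =ᵐ[μ] Function.const X c := by
    apply hS.ae_eq_const_of_ae_eq_comp_ae (Lp.aestronglyMeasurable L)
    have h3 := hcoe L
    rw [hLfix] at h3
    exact h3.symm
  obtain ⟨c, hc⟩ := hLc
  have hav : ∀ n : ℕ, ((birkhoffAverage ℝ U _root_.id n (hf.toLp f) : Lp ℝ 2 μ) : X → ℝ) =ᵐ[μ] A S f n := by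
    intro n
    have h4 : (((n : ℝ)⁻¹ • ∑ k ∈ Finset.range n, U^[k] (hf.toLp f) : Lp ℝ 2 μ) : X → ℝ) =ᵐ[μ]
        A S f n := by
      refine (Lp.coeFn_smul _ _).trans ?_
      have h5 : ((∑ k ∈ Finset.range n, U^[k] (hf.toLp f) : Lp ℝ 2 μ) : X → ℝ) =ᵐ[μ]
          fun x => ∑ k ∈ Finset.range n, f (S^[k] x) := by
        have h6 : ∀ s : Finset ℕ, ((∑ k ∈ s, U^[k] (hf.toLp f) : Lp ℝ 2 μ) : X → ℝ) =ᵐ[μ]
            fun x => ∑ k ∈ s, f (S^[k] x) := by
          intro s
          induction s using Finset.induction_on with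
          | empty =>
            simp only [Finset.sum_empty]
            exact Lp.coeFn_zero _ _ _
          | insert a s ha ih =>
            rw [Finset.sum_insert ha]
            refine (Lp.coeFn_add _ _).trans ?_
            filter_upwards [ih, hit a] with x h7 h8
            rw [Pi.add_apply, h7, h8, Finset.sum_insert ha]
        exact h6 _
      filter_upwards [h5] with x hx
      simp only [Pi.smul_apply, smul_eq_mul, hx, A]
      rw [div_eq_inv_mul]
    exact h4
  have h2 : Tendsto (fun n => eLpNorm (A S f n - Function.const X c) 2 μ) atTop (𝓝 0) := by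
    have h7 := (Lp.tendsto_Lp_iff_tendsto_eLpNorm' (fun n => birkhoffAverage ℝ U _root_.id n (hf.toLp f)) L).1 hmain
    refine h7.congr fun n => ?_
    apply eLpNorm_congr_ae
    exact (hav n).sub hc
  have h1 : Tendsto (fun n => eLpNorm (A S f n - Function.const X c) 1 μ) atTop (𝓝 0) := by
    refine tendsto_of_tendsto_of_tendsto_of_le_of_le tendsto_const_nhds h2 (fun _ => zero_le) fun n => ?_
    exact eLpNorm_le_eLpNorm_of_exponent_le (by norm_num) ((A_memLp hmp hf n).1.sub aestronglyMeasurable_const)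
  have hint : Integrable f μ := memLp_one_iff_integrable.1 (hf.mono_exponent (by norm_num))
  have h8 := tendsto_integral_of_L1' (F := fun n => A S f n) (Function.const X c) aestronglyMeasurable_const
    (Eventually.of_forall fun n => memLp_one_iff_integrable.1 (A_memLp hmp (memLp_one_iff_integrable.2 hint) n)) h1
  have h9 : Tendsto (fun n : ℕ => ∫ x, A S f n x ∂μ) atTop (𝓝 (∫ x, f x ∂μ)) := by
    refine tendsto_const_nhds.congr' ?_
    filter_upwards [eventually_ne_atTop 0] with n hn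
    exact (A_integral hmp hint hn).symm
  have h10 : c = ∫ x, f x ∂μ := by
    have := tendsto_nhds_unique h8 h9
    simpa using this
  rw [← h10]
  exact h1

theorem L1_case (hS : Ergodic S μ) {f : X → ℝ} (hf : Integrable f μ) :
    Tendsto (fun n => eLpNorm (A S f n - fun _ => ∫ x, f x ∂μ) 1 μ) atTop (𝓝 0) := by
  have hmp : MeasurePreserving S μ μ := hS.toMeasurePreserving
  have hf1 := memLp_one_iff_integrable.2 hf
  rw [ENNReal.tendsto_atTop_zero]
  intro ε hε
  have hε4 : ε / 3 ≠ 0 := by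
    simp only [ne_eq, ENNReal.div_eq_zero_iff, not_or]
    exact ⟨hε.ne', by simp⟩
  obtain ⟨g, hg, hgm⟩ := hf1.exists_simpleFunc_eLpNorm_sub_lt (by simp) hε4
  have hg2 : MemLp g 2 μ := g.memLp_of_isFiniteMeasure _ _
  have h1 := L2_case hS hg2
  rw [ENNReal.tendsto_atTop_zero] at h1
  obtain ⟨N, hN⟩ := h1 (ε / 3) (pos_iff_ne_zero.2 hε4)
  refine ⟨N, fun n hn => ?_⟩
  have hgi : Integrable g μ := memLp_one_iff_integrable.1 hgm
  have hdec : (A S f n - fun _ => ∫ x, f x ∂μ) =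
      A S (f - g) n + ((A S g n - fun _ => ∫ x, g x ∂μ) + fun _ => (∫ x, g x ∂μ) - ∫ x, f x ∂μ) := by
    ext x
    simp only [A, Pi.sub_apply, Pi.add_apply, Finset.sum_sub_distrib]
    ring
  have hm1 : AEStronglyMeasurable (A S (f - g) n) μ := (A_memLp hmp (hf1.sub hgm) n).1
  have hm2 : AEStronglyMeasurable (A S g n - fun _ => ∫ x, g x ∂μ) μ :=
    (A_memLp hmp hgm n).1.sub aestronglyMeasurable_const
  have hm3 : AEStronglyMeasurable (fun _ : X => (∫ x, g x ∂μ) - ∫ x, f x ∂μ) μ := aestronglyMeasurable_const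
  have e1 : eLpNorm (A S (f - g) n) 1 μ ≤ ε / 3 := (A_eLpNorm_le hmp (hf1.sub hgm) n).trans hg.le
  have e2 : eLpNorm (A S g n - fun _ => ∫ x, g x ∂μ) 1 μ ≤ ε / 3 := hN n hn
  have e3 : eLpNorm (fun _ : X => (∫ x, g x ∂μ) - ∫ x, f x ∂μ) 1 μ ≤ ε / 3 := by
    have h5 : (∫ x, g x ∂μ) - ∫ x, f x ∂μ = -∫ x, (f - g) x ∂μ := by
      rw [← integral_sub hgi hf, ← integral_neg]
      apply integral_congr_ae
      apply Eventually.of_forall
      intro x
      simp
    rw [eLpNorm_const _ (by simp) (IsProbabilityMeasure.ne_zero μ)]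
    simp only [measure_univ, ENNReal.one_rpow, mul_one]
    rw [h5, enorm_neg]
    refine (enorm_integral_le_lintegral_enorm _).trans ?_
    rw [← eLpNorm_one_eq_lintegral_enorm]
    exact hg.le
  rw [hdec]
  calc eLpNorm (A S (f - g) n + ((A S g n - fun _ => ∫ x, g x ∂μ) +
        fun _ => (∫ x, g x ∂μ) - ∫ x, f x ∂μ)) 1 μ
      ≤ eLpNorm (A S (f - g) n) 1 μ + eLpNorm ((A S g n - fun _ => ∫ x, g x ∂μ) +
        fun _ => (∫ x, g x ∂μ) - ∫ x, f x ∂μ) 1 μ := eLpNorm_add_le hm1 (hm2.add hm3) le_rfl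
    _ ≤ eLpNorm (A S (f - g) n) 1 μ + (eLpNorm (A S g n - fun _ => ∫ x, g x ∂μ) 1 μ +
        eLpNorm (fun _ : X => (∫ x, g x ∂μ) - ∫ x, f x ∂μ) 1 μ) := by
          gcongr
          exact eLpNorm_add_le hm2 hm3 le_rfl
    _ ≤ ε / 3 + (ε / 3 + ε / 3) := by gcongr
    _ = ε := by
        rw [← add_assoc]
        exact ENNReal.add_thirds ε

end Mean

theorem mean_proof : Stmt_Mean := by
  intro X _ μ _ S hS f hf
  have hmp : MeasurePreserving S μ μ := hS.toMeasurePreserving
  have h := Mean.L1_case hS hf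
  exact tendstoInMeasure_of_tendsto_eLpNorm (one_ne_zero)
    (fun n => (Mean.A_memLp hmp (memLp_one_iff_integrable.2 hf) n).1) aestronglyMeasurable_const h

end

end Pool.Agent.TI
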