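import Pool.Agent.TI.Stmts

/-!
# TI, module MONO: the Lyapunov exponent is non-increasing in the parameter
-/

open MeasureTheory Set Filter Topology
open scoped ENNReal

namespace Pool.Agent.TI

noncomputable section

namespace Mono

/-- `log |T'|` -/
def phi (x : ℝ) : ℝ := -2 * Real.log |x|

theorem measurable_phi : Measurable phi := by
  unfold phi
  fun_prop

theorem phi_nonneg {x : ℝ} (hx : |x| ≤ 1) : 0 ≤ phi x := by
  unfold phi
  have := Real.log_nonpos (abs_nonneg x) hx
  linarith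

theorem lyap_eq (μ : Measure ℝ) : lyap μ = ∫⁻ x, ENNReal.ofReal (phi x) ∂μ := rfl

/-- a set sequence of vanishing measure has vanishing measure for a finite a.c. measure -/
theorem ac_tendsto {ρ μ : Measure ℝ} [IsFiniteMeasure ρ] [IsFiniteMeasure μ] (h : ρ ≪ μ)
    {A : ℕ → Set ℝ} (hA : Tendsto (fun n => μ (A n)) atTop (𝓝 0)) :
    Tendsto (fun n => ρ (A n)) atTop (𝓝 0) := by
  have h1 : μ.withDensity (ρ.rnDeriv μ) = ρ := Measure.withDensity_rnDeriv_eq ρ μ h
  have h2 : ∫⁻ x, ρ.rnDeriv μ x ∂μ ≠ ∞ := by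
    have : μ.withDensity (ρ.rnDeriv μ) univ ≠ ∞ := by
      rw [h1]; exact measure_ne_top ρ univ
    rwa [withDensity_apply' _ univ, Measure.restrict_univ] at this
  have h3 := tendsto_setLIntegral_zero h2 (s := A) hA
  refine h3.congr fun n => ?_
  rw [← withDensity_apply', h1]

theorem log_W {α x : ℝ} (hx : Irrational x) (n : ℕ) :
    ∑ j ∈ Finset.range n, phi ((T α)^[j] x) = -2 * Real.log (W α x n) := by
  unfold W phi
  rw [Real.log_prod (fun j _ => (abs_pos.mpr (iterate_irr hx j).ne_zero).ne'), Finset.mul_sum]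

theorem birk_le {α β x : ℝ} (hα : Par α) (hαβ : α ≤ β) (hβ : β ≤ 1) (hx : x ∈ XX α) (hx' : x ∈ XX β)
    (n : ℕ) : ∑ j ∈ Finset.range n, phi ((T β)^[j] x) ≤ ∑ j ∈ Finset.range (n + 1), phi ((T α)^[j] x) := by
  have hi : Irrational x := hx.2.1
  rw [log_W hi, log_W hi]
  have h1 := W_le hα.1 hα.2.1 hαβ hβ ⟨hx'.1.1.le, hx.1.2⟩ hi n
  have h2 := Real.log_le_log (W_pos hi (n + 1)) h1
  linarith

end Mono

open Mono in
theorem mono_proof (hErg : Stmt_Erg) (hMean : Stmt_Mean) : Stmt_Mono := by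
  intro α β μ ν pα pβ hαβ hμ hν
  by_contra hcon
  push Not at hcon
  haveI := hμ.prob
  haveI := hν.prob
  obtain ⟨eμ, acμ⟩ := hErg α μ pα hμ
  obtain ⟨eν, acν⟩ := hErg β ν pβ hν
  -- `phi` is integrable for `μ`
  have hfin : lyap μ ≠ ∞ := hcon.ne_top
  have hposμ : 0 ≤ᵐ[μ] phi := by
    filter_upwards [hμ.ae_XX] with x hx
    exact phi_nonneg (XX_abs pα.1 pα.2.2 hx).le
  have hposν : 0 ≤ᵐ[ν] phi := by
    filter_upwards [hν.ae_XX] with x hx
    exact phi_nonneg (XX_abs pβ.1 pβ.2.2 hx).le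
  have hint : Integrable phi μ := by
    refine ⟨measurable_phi.aestronglyMeasurable, ?_⟩
    rw [hasFiniteIntegral_iff_ofReal hposμ, ← lyap_eq]
    exact lt_top_iff_ne_top.2 hfin
  set lam : ℝ := ∫ x, phi x ∂μ with hlam
  have hlam' : ENNReal.ofReal lam = lyap μ := by
    rw [hlam, ofReal_integral_eq_lintegral_ofReal hint hposμ, lyap_eq]
  have hlam0 : 0 ≤ lam := integral_nonneg_of_ae hposμ
  -- truncation
  have htr : ∃ K : ℕ, lyap μ < ∫⁻ x, ENNReal.ofReal (min (phi x) K) ∂ν := by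
    have h1 : ∫⁻ x, ENNReal.ofReal (phi x) ∂ν = ⨆ K : ℕ, ∫⁻ x, ENNReal.ofReal (min (phi x) K) ∂ν := by
      rw [← lintegral_iSup (fun K => (measurable_phi.min measurable_const).ennreal_ofReal)]
      · apply lintegral_congr
        intro x
        apply le_antisymm
        · obtain ⟨K, hK⟩ := exists_nat_ge (phi x)
          refine le_trans ?_ (le_iSup _ K)
          rw [min_eq_left hK]
        · refine iSup_le fun K => ENNReal.ofReal_le_ofReal (min_le_left _ _)
      · intro K K' hKK x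
        apply ENNReal.ofReal_le_ofReal
        apply min_le_min le_rfl
        exact_mod_cast hKK
    rw [lyap_eq ν, h1, lt_iSup_iff] at hcon
    exact hcon
  obtain ⟨K, hK⟩ := htr
  set psi : ℝ → ℝ := fun x => min (phi x) K with hpsi
  have hpsim : Measurable psi := measurable_phi.min measurable_const
  have hpsi0 : 0 ≤ᵐ[ν] psi := by
    filter_upwards [hposν] with x hx
    exact le_min hx (by positivity)
  have hpsii : Integrable psi ν := by
    refine Integrable.mono' (integrable_const (K : ℝ)) hpsim.aestronglyMeasurable ?_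
    filter_upwards [hpsi0] with x hx
    rw [Real.norm_eq_abs, abs_of_nonneg hx]
    exact min_le_right _ _
  set kap : ℝ := ∫ x, psi x ∂ν with hkap
  have hkap' : ENNReal.ofReal kap = ∫⁻ x, ENNReal.ofReal (psi x) ∂ν := by
    rw [hkap, ofReal_integral_eq_lintegral_ofReal hpsii hpsi0]
  have hlk : lam < kap := by
    have h1 : ENNReal.ofReal lam < ENNReal.ofReal kap := by rw [hlam', hkap']; exact hK
    exact (ENNReal.ofReal_lt_ofReal_iff_of_nonneg hlam0).1 h1
  set ε : ℝ := (kap - lam) / 3 with hε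
  have hε0 : 0 < ε := by rw [hε]; linarith
  -- mean ergodic theorem
  have m1 := hMean ℝ μ (T α) eμ phi hint
  have m2 := hMean ℝ ν (T β) eν psi hpsii
  rw [tendstoInMeasure_iff_norm] at m1 m2
  have m1' := (m1 ε hε0).comp (tendsto_add_atTop_nat 1)
  have m2' := m2 ε hε0
  set A : ℕ → Set ℝ := fun n =>
    {x | ε ≤ ‖(∑ j ∈ Finset.range (n + 1), phi ((T α)^[j] x)) / ((n + 1 : ℕ) : ℝ) - lam‖} with hA
  set B : ℕ → Set ℝ := fun n =>
    {x | ε ≤ ‖(∑ j ∈ Finset.range n, psi ((T β)^[j] x)) / (n : ℝ) - kap‖} with hB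
  have hA0 : Tendsto (fun n => μ (A n)) atTop (𝓝 0) := m1'
  have hB0 : Tendsto (fun n => ν (B n)) atTop (𝓝 0) := m2'
  haveI : IsFiniteMeasure (volume.restrict (XX α)) := ⟨by
    rw [Measure.restrict_apply_univ, volume_XX]; exact ENNReal.one_lt_top⟩
  haveI : IsFiniteMeasure (volume.restrict (XX β)) := ⟨by
    rw [Measure.restrict_apply_univ, volume_XX]; exact ENNReal.one_lt_top⟩
  have vA := ac_tendsto acμ hA0
  have vB := ac_tendsto acν hB0
  have vAB := vA.add vB
  rw [add_zero] at vAB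
  -- the common set
  have hOpos : 0 < volume (XX α ∩ XX β) := by
    have h1 : Icc (β - 1) α ⊆ (XX α ∩ XX β) ∪ ((Icc (α - 1) α \ XX α) ∪ (Icc (β - 1) β \ XX β)) := by
      intro x hx
      by_cases h2 : x ∈ XX α
      · by_cases h3 : x ∈ XX β
        · exact Or.inl ⟨h2, h3⟩
        · exact Or.inr (Or.inr ⟨⟨hx.1, hx.2.trans hαβ⟩, h3⟩)
      · exact Or.inr (Or.inl ⟨⟨by linarith [hx.1], hx.2⟩, h2⟩)
    have h2 : volume (Icc (β - 1) α) ≤ volume (XX α ∩ XX β) := by
      refine (measure_mono h1).trans ((measure_union_le _ _).trans ?_)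
      have h3 : volume ((Icc (α - 1) α \ XX α) ∪ (Icc (β - 1) β \ XX β)) = 0 :=
        measure_union_null (volume_compl_XX α) (volume_compl_XX β)
      rw [h3, add_zero]
    refine lt_of_lt_of_le ?_ h2
    rw [Real.volume_Icc, ENNReal.ofReal_pos]
    have := pα.1
    have := pβ.2.2
    linarith
  -- the two bad sets cover the common set
  have hcov : ∀ᶠ n : ℕ in atTop, XX α ∩ XX β ⊆ (A n ∩ XX α) ∪ (B n ∩ XX β) := by
    obtain ⟨N, hN⟩ := exists_nat_gt ((lam + ε) / ε)
    filter_upwards [eventually_ge_atTop (N + 1)] with n hn x hx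
    obtain ⟨hx1, hx2⟩ := hx
    by_contra hc
    rw [mem_union, not_or] at hc
    obtain ⟨c1, c2⟩ := hc
    have d1 : x ∉ A n := fun h => c1 ⟨h, hx1⟩
    have d2 : x ∉ B n := fun h => c2 ⟨h, hx2⟩
    simp only [hA, hB, mem_ofPred_eq, not_le, Real.norm_eq_abs] at d1 d2
    rw [abs_lt] at d1 d2
    have hn0 : (0 : ℝ) < n := by
      have : 0 < n := by omega
      exact_mod_cast this
    have hn1 : (0 : ℝ) < ((n + 1 : ℕ) : ℝ) := by positivity
    have e1 : ∑ j ∈ Finset.range (n + 1), phi ((T α)^[j] x) < (lam + ε) * ((n + 1 : ℕ) : ℝ) := by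
      rw [← div_lt_iff₀ hn1]; linarith [d1.2]
    have e2 : (kap - ε) * (n : ℝ) < ∑ j ∈ Finset.range n, psi ((T β)^[j] x) := by
      rw [← lt_div_iff₀ hn0]; linarith [d2.1]
    have e3 : ∑ j ∈ Finset.range n, psi ((T β)^[j] x) ≤ ∑ j ∈ Finset.range n, phi ((T β)^[j] x) :=
      Finset.sum_le_sum fun j _ => min_le_left _ _
    have e4 := birk_le pα hαβ pβ.2.2 hx1 hx2 n
    have e5 : (kap - ε) * (n : ℝ) < (lam + ε) * ((n + 1 : ℕ) : ℝ) := by linarith
    have e6 : kap = lam + 3 * ε := by rw [hε]; ring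
    rw [e6] at e5
    push_cast at e5
    have e7 : (n : ℝ) * ε < lam + ε := by nlinarith
    have e8 : (lam + ε) / ε < n := by
      refine hN.trans ?_
      have : N < n := by omega
      exact_mod_cast this
    rw [div_lt_iff₀ hε0] at e8
    linarith
  have hle : ∀ᶠ n : ℕ in atTop, volume (XX α ∩ XX β) ≤
      volume.restrict (XX α) (A n) + volume.restrict (XX β) (B n) := by
    filter_upwards [hcov] with n hn
    refine (measure_mono hn).trans ((measure_union_le _ _).trans ?_)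
    rw [Measure.restrict_apply' (measurableSet_XX α), Measure.restrict_apply' (measurableSet_XX β)]
  have := ge_of_tendsto vAB hle
  exact absurd this (not_le.2 hOpos)

end

end Pool.Agent.TI
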