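import Pool.Agent.TI.Tools

/-!
# Tanaka–Ito maps: module PART (MP_0c85a0_an)
-/

open MeasureTheory Set Filter Topology
open scoped ENNReal NNReal

namespace Pool.Agent.TI.Part

open Pool.Agent.TI

/-- words which are full at time `m` : the sum of the squared weights is bounded -/
theorem full_sum (hPush : Stmt_Push) {α : ℝ} (hP : Par α) (m : ℕ) (G : Finset ℝ) (hG : ∀ x ∈ G, x ∈ XX α)
    (hF : ∀ x ∈ G, Full α m x) (hS : ∀ x ∈ G, ∀ y ∈ G, Same α m x y → x = y) :
    ∑ x ∈ G, (W α x m) ^ 2 ≤ 64 ^ 2 := by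
  classical
  have h1 : ∀ x ∈ G, ENNReal.ofReal ((W α x m / 64) ^ 2) ≤
      volume {y | y ∈ XX α ∧ Same α m x y ∧ (T α)^[m] y ∈ XX α} := by
    intro x hx
    have := (hPush α m x (XX α) hP (hG x hx) (measurableSet_XX α) subset_rfl).2 (hF x hx)
    rwa [volume_XX, mul_one] at this
  have hmeas : ∀ x, MeasurableSet {y | y ∈ XX α ∧ Same α m x y ∧ (T α)^[m] y ∈ XX α} := by
    intro x
    exact (measurableSet_XX α).inter ((Tools.measurableSet_Same α m x).inter
      ((measurable_T α).iterate m (measurableSet_XX α)))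
  have h2 : ∑ x ∈ G, ENNReal.ofReal ((W α x m / 64) ^ 2) ≤ 1 := by
    calc ∑ x ∈ G, ENNReal.ofReal ((W α x m / 64) ^ 2)
        ≤ ∑ x ∈ G, volume {y | y ∈ XX α ∧ Same α m x y ∧ (T α)^[m] y ∈ XX α} := Finset.sum_le_sum h1
      _ = volume (⋃ x ∈ G, {y | y ∈ XX α ∧ Same α m x y ∧ (T α)^[m] y ∈ XX α}) := by
          rw [measure_biUnion_finset]
          · intro x hx y hy hxy
            rw [Function.onFun, Set.disjoint_left]
            rintro z ⟨_, hz1, _⟩ ⟨_, hz2, _⟩
            exact hxy (hS x hx y hy (Same_trans hz1 (Same_symm hz2)))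
          · intro x _
            exact hmeas x
      _ ≤ volume (XX α) := by
          refine measure_mono ?_
          intro y hy
          rw [mem_iUnion₂] at hy
          obtain ⟨x, _, h, _⟩ := hy
          exact h
      _ = 1 := volume_XX α
  have h3 : ∑ x ∈ G, ENNReal.ofReal ((W α x m / 64) ^ 2) = ENNReal.ofReal (∑ x ∈ G, (W α x m / 64) ^ 2) := by
    rw [ENNReal.ofReal_sum_of_nonneg]
    intro x _
    positivity
  rw [h3, ← ENNReal.ofReal_one, ENNReal.ofReal_le_ofReal_iff zero_le_one] at h2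
  have h4 : ∑ x ∈ G, (W α x m / 64) ^ 2 = (∑ x ∈ G, (W α x m) ^ 2) / 64 ^ 2 := by
    rw [Finset.sum_div]
    exact Finset.sum_congr rfl fun x _ => by ring
  rw [h4, div_le_one (by norm_num)] at h2
  exact h2

/-- words whose last full time is `m` -/
theorem last_sum (h3 : Stmt_W3) (hC : Stmt_Cover) (hPush : Stmt_Push) {α : ℝ} (hP : Par α) (m k : ℕ) (G : Finset ℝ)
    (hG : ∀ x ∈ G, x ∈ XX α) (hF : ∀ x ∈ G, Full α m x)
    (hF' : ∀ x ∈ G, ∀ i, 1 ≤ i → i ≤ k → ¬ Full α i ((T α)^[m] x))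
    (hS : ∀ x ∈ G, ∀ y ∈ G, Same α (m + k) x y → x = y) :
    ∑ x ∈ G, (W α x (m + k)) ^ 2 ≤ 64 ^ 2 * (2 ^ k * (1 / 9) ^ (k / 3)) := by
  classical
  obtain ⟨𝒲, hcard, hmem⟩ := hC α hP k
  have h1 : ∀ x ∈ G, (W α x (m + k)) ^ 2 ≤ (1 / 9) ^ (k / 3) * (W α x m) ^ 2 := by
    intro x hx
    rw [W_add, mul_pow, mul_comm]
    refine mul_le_mul_of_nonneg_right ?_ (by positivity)
    have h4 := Tools.W_decay h3 hP k ((T α)^[m] x) (XX_iter (hG x hx) m)
    have h5 : 0 ≤ W α ((T α)^[m] x) k := (W_pos (XX_irr (XX_iter (hG x hx) m)) k).le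
    calc (W α ((T α)^[m] x) k) ^ 2 ≤ ((1 / 3) ^ (k / 3)) ^ 2 := pow_le_pow_left₀ h5 h4 2
      _ = (1 / 9) ^ (k / 3) := by
          rw [← pow_mul, mul_comm, pow_mul]
          norm_num
  have hmap : ∀ x ∈ G, (fun j : Fin k => dig α ((T α)^[(j : ℕ)] ((T α)^[m] x))) ∈ 𝒲 := by
    intro x hx
    exact hmem _ (XX_iter (hG x hx) m) (hF' x hx)
  calc ∑ x ∈ G, (W α x (m + k)) ^ 2 ≤ ∑ x ∈ G, (1 / 9) ^ (k / 3) * (W α x m) ^ 2 := Finset.sum_le_sum h1
    _ = (1 / 9) ^ (k / 3) * ∑ x ∈ G, (W α x m) ^ 2 := by rw [Finset.mul_sum]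
    _ = (1 / 9) ^ (k / 3) * ∑ v ∈ 𝒲, ∑ x ∈ G with
        (fun j : Fin k => dig α ((T α)^[(j : ℕ)] ((T α)^[m] x))) = v, (W α x m) ^ 2 := by
        rw [Finset.sum_fiberwise_of_maps_to hmap]
    _ ≤ (1 / 9) ^ (k / 3) * ∑ v ∈ 𝒲, (64 : ℝ) ^ 2 := by
        refine mul_le_mul_of_nonneg_left (Finset.sum_le_sum fun v _ => ?_) (by positivity)
        refine full_sum hPush hP m _ ?_ ?_ ?_
        · intro x hx; exact hG x (Finset.mem_filter.mp hx).1
        · intro x hx; exact hF x (Finset.mem_filter.mp hx).1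
        · intro x hx y hy hxy
          rw [Finset.mem_filter] at hx hy
          refine hS x hx.1 y hy.1 ?_
          rw [Same_add]
          refine ⟨hxy, fun j hj => ?_⟩
          have := congrFun (hx.2.trans hy.2.symm) ⟨j, hj⟩
          exact this
    _ = (1 / 9) ^ (k / 3) * (𝒲.card * 64 ^ 2) := by rw [Finset.sum_const, nsmul_eq_mul]
    _ ≤ (1 / 9) ^ (k / 3) * (2 ^ k * 64 ^ 2) := by
        refine mul_le_mul_of_nonneg_left (mul_le_mul_of_nonneg_right ?_ (by positivity)) (by positivity)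
        exact_mod_cast hcard
    _ = _ := by ring

theorem geo (k : ℕ) : (2 : ℝ) ^ k * (1 / 9) ^ (k / 3) ≤ 5 * (40 / 41) ^ k := by
  induction k using Nat.strong_induction_on with
  | _ k ih =>
    by_cases h : k < 3
    · interval_cases k <;> norm_num
    · obtain ⟨m, rfl⟩ : ∃ m, k = m + 3 := ⟨k - 3, by omega⟩
      have h1 := ih m (by omega)
      have h5 : (m + 3) / 3 = m / 3 + 1 := by omega
      have h6 : 0 < (40 / 41 : ℝ) ^ m := by positivity
      have e1 : (2 : ℝ) ^ (m + 3) * (1 / 9) ^ ((m + 3) / 3) = (2 ^ m * (1 / 9) ^ (m / 3)) * (8 / 9) := by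
        rw [h5, pow_add, pow_add]
        ring
      have e2 : 5 * (40 / 41 : ℝ) ^ (m + 3) = (5 * (40 / 41) ^ m) * (40 / 41) ^ 3 := by
        rw [pow_add]
        ring
      rw [e1, e2]
      refine mul_le_mul h1 (by norm_num) (by norm_num) (by positivity)

theorem geo_sum (n : ℕ) : ∑ k ∈ Finset.range n, (2 : ℝ) ^ k * (1 / 9) ^ (k / 3) ≤ 205 := by
  calc ∑ k ∈ Finset.range n, (2 : ℝ) ^ k * (1 / 9) ^ (k / 3) ≤ ∑ k ∈ Finset.range n, 5 * (40 / 41 : ℝ) ^ k :=
        Finset.sum_le_sum fun k _ => geo k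
    _ = 5 * ∑ k ∈ Finset.range n, (40 / 41 : ℝ) ^ k := by rw [Finset.mul_sum]
    _ ≤ 5 * 41 := by
        refine mul_le_mul_of_nonneg_left ?_ (by norm_num)
        rw [geom_sum_eq (by norm_num)]
        have : (0 : ℝ) < (40 / 41) ^ n := by positivity
        rw [div_le_iff_of_neg (by norm_num)]
        linarith
    _ = 205 := by norm_num

end Pool.Agent.TI.Part

namespace Pool.Agent.TI

theorem part_proof (h3 : Stmt_W3) (hC : Stmt_Cover) (hPush : Stmt_Push) : Stmt_Part := by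
  classical
  intro α hP
  refine ⟨64 ^ 2 * 205, fun n F hF hS => ?_⟩
  let g : ℝ → ℕ := fun x => Nat.findGreatest (fun m => Full α m x) n
  have hg1 : ∀ x, g x ≤ n := fun x => Nat.findGreatest_le n
  have hg2 : ∀ x, Full α (g x) x := fun x => Nat.findGreatest_spec (P := fun m => Full α m x) (Nat.zero_le n) (Full_zero α x)
  have hg3 : ∀ x i, 1 ≤ i → i ≤ n - g x → ¬ Full α i ((T α)^[g x] x) := by
    intro x i h1 h2 h4
    have h5 := Full_add (hg2 x) h4
    exact Nat.findGreatest_is_greatest (P := fun m => Full α m x) (n := n) (k := g x + i) (by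
      change g x < g x + i
      omega) (by have := hg1 x; omega) h5
  have hmap : ∀ x ∈ F, g x ∈ Finset.range (n + 1) := by
    intro x _
    rw [Finset.mem_range]
    have := hg1 x
    omega
  rw [← Finset.sum_fiberwise_of_maps_to hmap]
  calc ∑ m ∈ Finset.range (n + 1), ∑ x ∈ F with g x = m, (W α x n) ^ 2
      ≤ ∑ m ∈ Finset.range (n + 1), 64 ^ 2 * ((2 : ℝ) ^ (n - m) * (1 / 9) ^ ((n - m) / 3)) := by
        refine Finset.sum_le_sum fun m hm => ?_
        rw [Finset.mem_range] at hm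
        have hmn : m + (n - m) = n := by omega
        have := Part.last_sum h3 hC hPush hP m (n - m) (F.filter fun x => g x = m) (fun x hx => hF x (Finset.mem_filter.mp hx).1)
          (fun x hx => by
            have := hg2 x
            rwa [(Finset.mem_filter.mp hx).2] at this)
          (fun x hx => by
            have := hg3 x
            rwa [(Finset.mem_filter.mp hx).2] at this)
          (fun x hx y hy hxy => hS x (Finset.mem_filter.mp hx).1 y (Finset.mem_filter.mp hy).1 (by rwa [hmn] at hxy))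
        rwa [hmn] at this
    _ = 64 ^ 2 * ∑ k ∈ Finset.range (n + 1), (2 : ℝ) ^ k * (1 / 9) ^ (k / 3) := by
        rw [← Finset.mul_sum, ← Finset.sum_range_reflect]
        congr 1
        refine Finset.sum_congr rfl fun m hm => ?_
        rw [Finset.mem_range] at hm
        have : n + 1 - 1 - m = n - m := by omega
        rw [this]
        have : n - (n - m) = m := by omega
        rw [this]
    _ ≤ 64 ^ 2 * 205 := mul_le_mul_of_nonneg_left (Part.geo_sum _) (by positivity)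

end Pool.Agent.TI
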