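import Pool.Agent.TI.Stmts

/-!
# Tanaka–Ito maps: module PUSH (MP_0c85a0_an)
-/

open MeasureTheory Set Filter Topology
open scoped ENNReal NNReal

namespace Pool.Agent.TI.Push

open Pool.Agent.TI

/-- Lebesgue measure of a Lipschitz image -/
theorem lip {f : ℝ → ℝ} {s : Set ℝ} {c : ℝ} (hc : 0 ≤ c) (h : ∀ x ∈ s, ∀ y ∈ s, |f x - f y| ≤ c * |x - y|) :
    volume (f '' s) ≤ ENNReal.ofReal c * volume s := by
  have h1 : LipschitzOnWith ⟨c, hc⟩ f s := by
    refine LipschitzOnWith.of_dist_le_mul fun x hx y hy => ?_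
    rw [Real.dist_eq, Real.dist_eq]
    exact h x hx y hy
  have h2 := h1.hausdorffMeasure_image_le (d := 1) zero_le_one
  rw [hausdorffMeasure_real, ENNReal.rpow_one] at h2
  rw [ENNReal.ofReal, Real.toNNReal_of_nonneg hc]
  exact h2

end Pool.Agent.TI.Push

namespace Pool.Agent.TI

theorem push_proof (hD : Stmt_Dist) : Stmt_Push := by
  intro α n x E hP hx hE hEX
  set S := {y | y ∈ XX α ∧ Same α n x y ∧ (T α)^[n] y ∈ E} with hS
  have hW : 0 < W α x n := W_pos (XX_irr hx) n
  have key : ∀ y ∈ S, ∀ z ∈ S, |y - z| = |(T α)^[n] y - (T α)^[n] z| * (W α y n * W α z n) := by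
    intro y hy z hz
    rw [(hD α n y z hP hy.1 hz.1 (Same_trans (Same_symm hy.2.1) hz.2.1)).1, mul_assoc]
  have hlow : ∀ y ∈ S, W α x n / 64 ≤ W α y n := by
    intro y hy
    have := (hD α n x y hP hx hy.1 hy.2.1).2
    rw [div_le_iff₀ (by norm_num)]
    linarith
  have hup : ∀ y ∈ S, W α y n ≤ 64 * W α x n := by
    intro y hy
    exact (hD α n y x hP hy.1 hx (Same_symm hy.2.1)).2
  have hpos : ∀ y ∈ S, 0 < W α y n := fun y hy => W_pos (XX_irr hy.1) n
  have hinj : InjOn ((T α)^[n]) S := by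
    intro y hy z hz hyz
    have := key y hy z hz
    rw [hyz, sub_self, abs_zero, zero_mul, abs_eq_zero] at this
    linarith
  have himg : (T α)^[n] '' S ⊆ E := by
    rintro _ ⟨y, hy, rfl⟩
    exact hy.2.2
  constructor
  · -- upper bound
    have h1 : S = Function.invFunOn ((T α)^[n]) S '' ((T α)^[n] '' S) := by
      ext y
      constructor
      · intro hy
        exact ⟨_, ⟨y, hy, rfl⟩, hinj.leftInvOn_invFunOn hy⟩
      · rintro ⟨_, ⟨z, hz, rfl⟩, rfl⟩
        rw [hinj.leftInvOn_invFunOn hz]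
        exact hz
    have h2 : volume (Function.invFunOn ((T α)^[n]) S '' ((T α)^[n] '' S)) ≤
        ENNReal.ofReal ((64 * W α x n) ^ 2) * volume ((T α)^[n] '' S) := by
      refine Push.lip (by positivity) ?_
      rintro _ ⟨y, hy, rfl⟩ _ ⟨z, hz, rfl⟩
      rw [hinj.leftInvOn_invFunOn hy, hinj.leftInvOn_invFunOn hz, key y hy z hz, mul_comm]
      refine mul_le_mul_of_nonneg_right ?_ (abs_nonneg _)
      rw [sq]
      exact mul_le_mul (hup y hy) (hup z hz) (hpos z hz).le (by positivity)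
    rw [← h1] at h2
    exact h2.trans (mul_le_mul_right (measure_mono himg) _)
  · intro hF
    have h1 : E ⊆ (T α)^[n] '' S := by
      intro y hy
      obtain ⟨z, hz, hs, hT⟩ := hF y (hEX hy)
      exact ⟨z, ⟨hz, hs, by rw [hT]; exact hy⟩, hT⟩
    have h2 : volume ((T α)^[n] '' S) ≤ ENNReal.ofReal ((64 / W α x n) ^ 2) * volume S := by
      refine Push.lip (by positivity) ?_
      intro y hy z hz
      rw [key y hy z hz]
      have h3 : (W α x n / 64) ^ 2 ≤ W α y n * W α z n := by
        rw [sq]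
        exact mul_le_mul (hlow y hy) (hlow z hz) (by positivity) (hpos y hy).le
      have h4 : (64 / W α x n) ^ 2 * (W α x n / 64) ^ 2 = 1 := by
        field_simp
      calc |(T α)^[n] y - (T α)^[n] z| = |(T α)^[n] y - (T α)^[n] z| * ((64 / W α x n) ^ 2 * (W α x n / 64) ^ 2) := by
            rw [h4, mul_one]
        _ ≤ |(T α)^[n] y - (T α)^[n] z| * ((64 / W α x n) ^ 2 * (W α y n * W α z n)) := by
            refine mul_le_mul_of_nonneg_left (mul_le_mul_of_nonneg_left h3 (by positivity)) (abs_nonneg _)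
        _ = _ := by ring
    have h5 := (measure_mono h1).trans h2
    calc ENNReal.ofReal ((W α x n / 64) ^ 2) * volume E
        ≤ ENNReal.ofReal ((W α x n / 64) ^ 2) * (ENNReal.ofReal ((64 / W α x n) ^ 2) * volume S) :=
          mul_le_mul_right h5 _
      _ = ENNReal.ofReal ((W α x n / 64) ^ 2 * (64 / W α x n) ^ 2) * volume S := by
          rw [← mul_assoc, ← ENNReal.ofReal_mul (by positivity)]
      _ = volume S := by
          have : (W α x n / 64) ^ 2 * (64 / W α x n) ^ 2 = 1 := by field_simp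
          rw [this, ENNReal.ofReal_one, one_mul]

end Pool.Agent.TI
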