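import Pool.Agent.TI.Stmts

set_option autoImplicit false

open MeasureTheory Set Filter Topology
open scoped ENNReal NNReal

namespace Pool.Agent.TI

namespace Star

/-- measure of a set with a coordinate whose inverse is Lipschitz -/
theorem lip_measure (C E : Set ℝ) (f : ℝ → ℝ) (M : ℝ) (hM : 0 ≤ M) (hE : ∀ y ∈ C, f y ∈ E)
    (h : ∀ y ∈ C, ∀ y' ∈ C, |y - y'| ≤ M * |f y - f y'|) :
    volume C ≤ ENNReal.ofReal M * volume E := by
  have hinj : InjOn f C := by
    intro y hy y' hy' hyy
    have := h y hy y' hy'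
    rw [hyy, sub_self, abs_zero, mul_zero] at this
    have h2 := abs_nonpos_iff.1 this
    linarith
  let g : ℝ → ℝ := Function.invFunOn f C
  have hg : ∀ y ∈ C, g (f y) = y := fun y hy => hinj.leftInvOn_invFunOn hy
  have hL : LipschitzOnWith M.toNNReal g (f '' C) := by
    apply LipschitzOnWith.of_dist_le_mul
    rintro _ ⟨y, hy, rfl⟩ _ ⟨y', hy', rfl⟩
    rw [hg y hy, hg y' hy', Real.dist_eq, Real.dist_eq, Real.coe_toNNReal M hM]
    exact h y hy y' hy'
  have h1 := hL.hausdorffMeasure_image_le (d := 1) zero_le_one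
  rw [hausdorffMeasure_real, ENNReal.rpow_one] at h1
  have h2 : g '' (f '' C) = C := by
    ext y
    constructor
    · rintro ⟨_, ⟨z, hz, rfl⟩, rfl⟩
      rw [hg z hz]
      exact hz
    · intro hy
      exact ⟨f y, ⟨y, hy, rfl⟩, hg y hy⟩
  rw [h2] at h1
  refine h1.trans ?_
  have h3 : (f '' C) ⊆ E := by
    rintro _ ⟨y, hy, rfl⟩
    exact hE y hy
  exact mul_le_mul_right (measure_mono h3) _

/-- the telescoping bound for `∑ 1/(K+m)^2` -/
theorem sum_bound (K : ℕ) (hK : 1 ≤ K) (c : ℝ) :
    ∑' m : ℕ, ENNReal.ofReal ((c / ((K : ℝ) + m)) ^ 2) ≤ ENNReal.ofReal (c ^ 2 * (2 / K)) := by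
  have hK' : (1 : ℝ) ≤ K := by exact_mod_cast hK
  apply ENNReal.tsum_le_of_sum_range_le
  intro N
  rw [← ENNReal.ofReal_sum_of_nonneg (fun m _ => sq_nonneg _)]
  apply ENNReal.ofReal_le_ofReal
  have key : ∀ N : ℕ, ∑ m ∈ Finset.range N, (c / ((K : ℝ) + m)) ^ 2 ≤
      c ^ 2 * (2 / K - 2 / (K + N)) := by
    intro N
    induction N with
    | zero => simp
    | succ N ih =>
      rw [Finset.sum_range_succ]
      have h0 : (0 : ℝ) < K + N := by positivity
      have h1 : (1 : ℝ) / (K + N) ^ 2 ≤ 2 / (K + N) - 2 / (K + (N + 1)) := by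
        rw [div_sub_div _ _ (by positivity) (by positivity),
          div_le_div_iff₀ (by positivity) (by positivity)]
        have h2 : (1 : ℝ) ≤ K + N := by
          have : (0 : ℝ) ≤ N := Nat.cast_nonneg N
          linarith
        nlinarith [mul_pos h0 h0]
      have h3 : (c / ((K : ℝ) + N)) ^ 2 = c ^ 2 * (1 / (K + N) ^ 2) := by
        rw [div_pow]
        ring
      rw [h3]
      push_cast
      nlinarith [mul_le_mul_of_nonneg_left h1 (sq_nonneg c)]
  refine (key N).trans ?_
  apply mul_le_mul_of_nonneg_left _ (sq_nonneg c)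
  have : (0 : ℝ) ≤ 2 / (K + N) := by positivity
  linarith

theorem wK_nonneg (α : ℝ) (K : ℕ) (x : ℝ) : 0 ≤ wK α K x := by
  unfold wK
  split_ifs
  · positivity
  · positivity

/-- the truncated cylinders -/
def A (α : ℝ) (K n : ℕ) (x : ℝ) : Set ℝ := {y | y ∈ XX α ∧ SameK α K n x y}

theorem main (hD : Stmt_Dist) (hP : Stmt_Push) (α : ℝ) (hα : Par α) (K : ℕ) (hK : 1 ≤ K) :
    ∀ (n : ℕ) (x : ℝ), x ∈ XX α → volume (A α K n x)
      ≤ ENNReal.ofReal (2 ^ 12 * ∏ j ∈ Finset.range n, wK α K ((T α)^[j] x)) := by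
  intro n
  induction n using Nat.strong_induction_on with
  | _ n ih =>
  intro x hx
  by_cases hall : ∀ j < n, |dig α ((T α)^[j] x)| ≤ (K : ℤ)
  · -- no star
    have h1 : A α K n x ⊆ {y | y ∈ XX α ∧ Same α n x y ∧ (T α)^[n] y ∈ XX α} := by
      rintro y ⟨hy, hs⟩
      refine ⟨hy, ?_, XX_iter hy n⟩
      intro j hj
      rcases hs j hj with h | h
      · exact h
      · exact absurd (hall j hj) (not_le.2 h.1)
    refine (measure_mono h1).trans ?_
    refine ((hP α n x (XX α) hα hx (measurableSet_XX α) subset_rfl).1).trans ?_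
    rw [volume_XX, mul_one]
    apply ENNReal.ofReal_le_ofReal
    have h2 : ∏ j ∈ Finset.range n, wK α K ((T α)^[j] x) = (W α x n) ^ 2 := by
      unfold W
      rw [← Finset.prod_pow]
      apply Finset.prod_congr rfl
      intro j hj
      unfold wK
      rw [if_pos (hall j (Finset.mem_range.1 hj))]
    rw [h2]
    nlinarith [sq_nonneg (W α x n)]
  · -- first star
    push Not at hall
    classical
    let r := Nat.find hall
    obtain ⟨hrn, hr⟩ : r < n ∧ (K : ℤ) < |dig α ((T α)^[r] x)| := Nat.find_spec hall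
    have hrmin : ∀ j < r, |dig α ((T α)^[j] x)| ≤ (K : ℤ) := by
      intro j hj
      have := Nat.find_min hall hj
      push Not at this
      exact this (hj.trans hrn)
    obtain ⟨s, hs⟩ : ∃ s, n = r + 1 + s := ⟨n - (r + 1), by omega⟩
    let A' := A α K s ((T α)^[r + 1] x)
    have hA' := ih s (by omega) ((T α)^[r + 1] x) (XX_iter hx _)
    have hW0 : 0 < W α x r := W_pos (XX_irr hx) r
    -- the pieces
    let S : Bool → ℕ → Set ℝ := fun b m =>
      {y | y ∈ XX α ∧ Same α r x y ∧
        dig α ((T α)^[r] y) = (if b then (1 : ℤ) else -1) * ((K : ℤ) + 1 + m) ∧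
        (T α)^[r + 1] y ∈ A'}
    have hcov : A α K n x ⊆ ⋃ b, ⋃ m, S b m := by
      rintro y ⟨hy, hsy⟩
      have hstar : (K : ℤ) < |dig α ((T α)^[r] y)| := by
        rcases hsy r hrn with h | h
        · rw [← h]; exact hr
        · exact h.2
      have h1 : Same α r x y := by
        intro j hj
        rcases hsy j (hj.trans hrn) with h | h
        · exact h
        · exact absurd (hrmin j hj) (not_le.2 h.1)
      have h2 : (T α)^[r + 1] y ∈ A' := by
        refine ⟨XX_iter hy _, ?_⟩
        intro j hj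
        have h3 := hsy (j + (r + 1)) (by omega)
        rw [Function.iterate_add_apply (T α) j (r + 1) x,
          Function.iterate_add_apply (T α) j (r + 1) y] at h3
        exact h3
      rw [mem_iUnion]
      rcases le_or_gt 0 (dig α ((T α)^[r] y)) with h | h
      · refine ⟨true, ?_⟩
        rw [mem_iUnion]
        rw [abs_of_nonneg h] at hstar
        refine ⟨(dig α ((T α)^[r] y) - (K + 1)).toNat, hy, h1, ?_, h2⟩
        have h3 : (((dig α ((T α)^[r] y) - (K + 1)).toNat : ℕ) : ℤ) =
            dig α ((T α)^[r] y) - (K + 1) := Int.toNat_of_nonneg (by omega)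
        rw [h3]
        simp
      · refine ⟨false, ?_⟩
        rw [mem_iUnion]
        rw [abs_of_neg h] at hstar
        refine ⟨(- dig α ((T α)^[r] y) - (K + 1)).toNat, hy, h1, ?_, h2⟩
        have h3 : (((- dig α ((T α)^[r] y) - (K + 1)).toNat : ℕ) : ℤ) =
            - dig α ((T α)^[r] y) - (K + 1) := Int.toNat_of_nonneg (by omega)
        rw [h3]
        simp
    have hS : ∀ b m, volume (S b m) ≤
        ENNReal.ofReal ((64 * W α x r / ((K : ℝ) + m)) ^ 2) * volume A' := by
      intro b m
      have hKm : (0 : ℝ) < (K : ℝ) + m := by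
        have : (1 : ℝ) ≤ K := by exact_mod_cast hK
        positivity
      -- bound of W y (r+1)
      have hWy : ∀ y ∈ S b m, 0 ≤ W α y (r + 1) ∧ W α y (r + 1) ≤ 64 * W α x r / ((K : ℝ) + m) := by
        rintro y ⟨hy, h1, h2, -⟩
        refine ⟨(W_pos (XX_irr hy) _).le, ?_⟩
        rw [W_add, W_one]
        have h3 : W α y r ≤ 64 * W α x r := (hD α r y x hα hy hx (Same_symm h1)).2
        have h4 : |(T α)^[r] y| ≤ 1 / ((K : ℝ) + m) := by
          have h5 : (T α)^[r] y = 1 / (dig α ((T α)^[r] y) + T α ((T α)^[r] y)) := inv_dig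
          rw [h5, abs_div, abs_one]
          apply one_div_le_one_div_of_le hKm
          have h6 : |T α ((T α)^[r] y)| < 1 := XX_abs hα.1 hα.2.2 (XX_T (XX_iter hy r))
          rw [h2]
          rw [abs_lt] at h6
          have hKm' : (0 : ℝ) < (K : ℝ) + 1 + m := by linarith
          cases b
          · simp only [Bool.false_eq_true, if_false]
            push_cast
            rw [abs_of_neg (by linarith)]
            linarith
          · simp only [if_true]
            push_cast
            rw [abs_of_pos (by linarith)]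
            linarith
        have h7 : 64 * W α x r / ((K : ℝ) + m) = (64 * W α x r) * (1 / ((K : ℝ) + m)) := by ring
        rw [h7]
        exact mul_le_mul h3 h4 (abs_nonneg _) (by positivity)
      apply lip_measure _ _ ((T α)^[r + 1]) _ (sq_nonneg _)
      · rintro y ⟨-, -, -, h⟩
        exact h
      · intro y hy y' hy'
        have hsame : Same α (r + 1) y y' := by
          rw [Same_add]
          refine ⟨Same_trans (Same_symm hy.2.1) hy'.2.1, ?_⟩
          intro j hj
          have hj0 : j = 0 := by omega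
          subst hj0
          simp only [Function.iterate_zero, id_eq]
          rw [hy.2.2.1, hy'.2.2.1]
        rw [(hD α (r + 1) y y' hα hy.1 hy'.1 hsame).1]
        obtain ⟨h1, h2⟩ := hWy y hy
        obtain ⟨h3, h4⟩ := hWy y' hy'
        have h5 : W α y (r + 1) * W α y' (r + 1) ≤ (64 * W α x r / ((K : ℝ) + m)) ^ 2 := by
          rw [sq]
          exact mul_le_mul h2 h4 h3 (h1.trans h2)
        calc |(T α)^[r + 1] y - (T α)^[r + 1] y'| * W α y (r + 1) * W α y' (r + 1)
            = (W α y (r + 1) * W α y' (r + 1)) * |(T α)^[r + 1] y - (T α)^[r + 1] y'| := by ring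
          _ ≤ _ := mul_le_mul_of_nonneg_right h5 (abs_nonneg _)
    -- sum up
    have hsum : volume (A α K n x) ≤
        ENNReal.ofReal (2 * ((64 * W α x r) ^ 2 * (2 / K))) * volume A' := by
      refine (measure_mono hcov).trans ((measure_iUnion_le _).trans ?_)
      have h1 : ∀ b : Bool, volume (⋃ m, S b m) ≤
          ENNReal.ofReal ((64 * W α x r) ^ 2 * (2 / K)) * volume A' := by
        intro b
        refine (measure_iUnion_le _).trans ?_
        refine (ENNReal.tsum_le_tsum (fun m => hS b m)).trans ?_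
        rw [ENNReal.tsum_mul_right]
        exact mul_le_mul_left (sum_bound K hK _) _
      rw [tsum_bool]
      refine (add_le_add (h1 false) (h1 true)).trans ?_
      rw [← add_mul, ← ENNReal.ofReal_add (by positivity) (by positivity), ← two_mul]
    refine hsum.trans ((mul_le_mul_right hA' _).trans ?_)
    rw [← ENNReal.ofReal_mul (by positivity)]
    apply ENNReal.ofReal_le_ofReal
    -- the product
    have hprod : ∏ j ∈ Finset.range n, wK α K ((T α)^[j] x) =
        (W α x r) ^ 2 * (2 ^ 16 / K) *
          ∏ j ∈ Finset.range s, wK α K ((T α)^[j] ((T α)^[r + 1] x)) := by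
      rw [hs, Finset.prod_range_add, Finset.prod_range_succ]
      congr 1
      · congr 1
        · unfold W
          rw [← Finset.prod_pow]
          apply Finset.prod_congr rfl
          intro j hj
          unfold wK
          rw [if_pos (hrmin j (Finset.mem_range.1 hj))]
        · unfold wK
          rw [if_neg (not_le.2 hr)]
      · apply Finset.prod_congr rfl
        intro j _
        rw [← Function.iterate_add_apply, add_comm j (r + 1)]
    rw [hprod]
    have hPi : 0 ≤ ∏ j ∈ Finset.range s, wK α K ((T α)^[j] ((T α)^[r + 1] x)) :=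
      Finset.prod_nonneg (fun j _ => wK_nonneg _ _ _)
    set Q := ∏ j ∈ Finset.range s, wK α K ((T α)^[j] ((T α)^[r + 1] x)) with hQ
    have hK0 : (0 : ℝ) < K := by
      have : (1 : ℝ) ≤ K := by exact_mod_cast hK
      linarith
    have e1 : 2 * ((64 * W α x r) ^ 2 * (2 / (K : ℝ))) * (2 ^ 12 * Q) =
        2 ^ 26 * ((W α x r) ^ 2 * Q / K) := by
      field_simp <;> ring
    have e2 : 2 ^ 12 * ((W α x r) ^ 2 * (2 ^ 16 / (K : ℝ)) * Q) =
        2 ^ 28 * ((W α x r) ^ 2 * Q / K) := by
      field_simp <;> ring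
    rw [e1, e2]
    have h9 : 0 ≤ (W α x r) ^ 2 * Q / K := by positivity
    nlinarith

end Star

theorem star_proof (hD : Stmt_Dist) (hP : Stmt_Push) : Stmt_Star := by
  intro α hα K hK n x hx
  exact Star.main hD hP α hα K hK n x hx

end Pool.Agent.TI
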