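import Pool.Agent.TI.Stmts

/-!
# Tanaka–Ito maps: the upper half of Rokhlin's formula
-/

set_option autoImplicit false

open MeasureTheory Set Filter Topology
open scoped ENNReal

namespace Pool.Agent.TI.Up

noncomputable section

open Pool.Agent.TI

/-- `-2 log |x|` -/
def phi (x : ℝ) : ℝ := -2 * Real.log |x|

theorem measurable_phi : Measurable phi := by unfold phi; fun_prop

theorem phi_nonneg {α x : ℝ} (h : Par α) (hx : x ∈ XX α) : 0 ≤ phi x := by
  have h1 := XX_abs h.1 h.2.2 hx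
  have h2 : 0 < |x| := abs_pos.2 (XX_ne hx)
  have := Real.log_nonpos h2.le h1.le
  unfold phi
  linarith

theorem W_sq {α x : ℝ} (hx : x ∈ XX α) (n : ℕ) :
    W α x n ^ 2 = Real.exp (-∑ j ∈ Finset.range n, phi ((T α)^[j] x)) := by
  unfold W
  rw [← Finset.sum_neg_distrib, Real.exp_sum, ← Finset.prod_pow]
  apply Finset.prod_congr rfl
  intro j _
  have h2 : 0 < |(T α)^[j] x| := abs_pos.2 (XX_ne (XX_iter hx j))
  unfold phi
  rw [show -(-2 * Real.log |(T α)^[j] x|) = Real.log |(T α)^[j] x| + Real.log |(T α)^[j] x| by ring,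
    Real.exp_add, Real.exp_log h2, sq]

theorem W_three (hW3 : Stmt_W3) {α : ℝ} (h : Par α) (q : ℕ) : ∀ x ∈ XX α,
    W α x (3 * q) ≤ (1 / 3) ^ q := by
  induction q with
  | zero => intro x _; simp [W_zero]
  | succ q ih =>
    intro x hx
    rw [show 3 * (q + 1) = 3 + 3 * q by ring, W_add, pow_succ, mul_comm ((1 / 3 : ℝ) ^ q)]
    exact mul_le_mul (hW3 α x h hx) (ih _ (XX_iter hx 3)) (W_pos (XX_iter hx 3).2.1 _).le
      (by norm_num)

/-- Disjoint compact sets are separated by the digits. -/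
theorem sep (hW3 : Stmt_W3) (hD : Stmt_Dist) {α : ℝ} (h : Par α) {A B : Set ℝ}
    (hA : IsCompact A) (hB : IsCompact B) (hAB : Disjoint A B) :
    ∃ m : ℕ, ∀ x ∈ A ∩ XX α, ∀ y ∈ B ∩ XX α, ¬ Same α m x y := by
  obtain ⟨r, hr, hr'⟩ := Metric.exists_pos_forall_lt_edist hA hB.isClosed hAB
  have hr0 : (0 : ℝ) < r := hr
  obtain ⟨q, hq⟩ := exists_pow_lt_of_lt_one hr0 (show (1 / 3 : ℝ) < 1 by norm_num)
  refine ⟨3 * q, fun x hx y hy hS => ?_⟩
  have h1 := (hD α (3 * q) x y h hx.2 hy.2 hS).1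
  have h2 : |(T α)^[3 * q] x - (T α)^[3 * q] y| ≤ 1 := by
    have h3 := (XX_iter hx.2 (3 * q)).1
    have h4 := (XX_iter hy.2 (3 * q)).1
    rw [abs_le]
    constructor <;> linarith [h3.1, h3.2, h4.1, h4.2]
  have h5 := W_three hW3 h q x hx.2
  have h6 := W_three hW3 h q y hy.2
  have h7 : (0 : ℝ) ≤ (1 / 3) ^ q := by positivity
  have h8 : (1 / 3 : ℝ) ^ q ≤ 1 := pow_le_one₀ (by norm_num) (by norm_num)
  have h9 : |x - y| ≤ (1 / 3) ^ q := by
    rw [h1]
    calc |(T α)^[3 * q] x - (T α)^[3 * q] y| * W α x (3 * q) * W α y (3 * q)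
        ≤ 1 * (1 / 3) ^ q * 1 := by
          refine mul_le_mul (mul_le_mul h2 h5 (W_pos hx.2.2.1 _).le zero_le_one) (h6.trans h8)
            (W_pos hy.2.2.1 _).le (by positivity)
      _ = (1 / 3) ^ q := by ring
  have h10 := hr' x hx.1 y hy.1
  rw [edist_dist, Real.dist_eq] at h10
  have h11 : (r : ℝ) < |x - y| := by
    by_contra hcon
    push Not at hcon
    have : ENNReal.ofReal |x - y| ≤ (r : ℝ≥0∞) := by
      rw [← ENNReal.ofReal_coe_nnreal]
      exact ENNReal.ofReal_le_ofReal hcon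
    exact absurd h10 (not_lt.2 this)
  linarith

/-- Words with few letters. -/
theorem card_few {k : ℕ} (hk : 0 < k) {τ : ℝ} (hτ : 0 < τ) (hτ1 : τ ≤ 1) (n : ℕ) :
    ((Finset.univ.filter fun c : Fin n → Option (Fin k) =>
      ((Finset.univ.filter fun i => c i ≠ none).card : ℝ) ≤ τ * n).card : ℝ) ≤
    Real.exp (n * (τ * Real.log (k / τ) + τ)) := by
  have hk' : (0 : ℝ) < k := by exact_mod_cast hk
  have hk1 : (1 : ℝ) ≤ k := by exact_mod_cast hk
  set w : Option (Fin k) → ℝ := fun o => if o = none then 1 else τ / k with hw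
  have hs0 : 0 < τ / k := by positivity
  have hs1 : Real.log (τ / k) ≤ 0 := by
    apply Real.log_nonpos hs0.le
    rw [div_le_one hk']
    linarith
  have hprod : ∀ c : Fin n → Option (Fin k), ∏ i, w (c i) =
      (τ / k) ^ (Finset.univ.filter fun i => c i ≠ none).card := by
    intro c
    rw [Finset.prod_ite]
    simp [div_pow]
  have htot : ∑ c : Fin n → Option (Fin k), ∏ i, w (c i) = (1 + τ) ^ n := by
    have h1 : ∑ o : Option (Fin k), w o = 1 + τ := by
      rw [Fintype.sum_option]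
      simp only [hw, if_true, reduceCtorEq, if_false, Finset.sum_const, Finset.card_univ,
        Fintype.card_fin, nsmul_eq_mul]
      field_simp
    have h2 := Finset.prod_univ_sum (fun _ : Fin n => (Finset.univ : Finset (Option (Fin k))))
      (fun _ o => w o)
    simp only [Fintype.piFinset_univ] at h2
    rw [← h2]
    simp [h1]
  have hlow : ∀ c ∈ (Finset.univ.filter fun c : Fin n → Option (Fin k) =>
      ((Finset.univ.filter fun i => c i ≠ none).card : ℝ) ≤ τ * n),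
      Real.exp (τ * n * Real.log (τ / k)) ≤ ∏ i, w (c i) := by
    intro c hc
    rw [Finset.mem_filter] at hc
    rw [hprod, ← Real.exp_log (pow_pos hs0 _), Real.exp_le_exp, Real.log_pow]
    nlinarith [hc.2, hs1]
  have h3 : ((Finset.univ.filter fun c : Fin n → Option (Fin k) =>
      ((Finset.univ.filter fun i => c i ≠ none).card : ℝ) ≤ τ * n).card : ℝ) *
      Real.exp (τ * n * Real.log (τ / k)) ≤ (1 + τ) ^ n := by
    rw [← nsmul_eq_mul, ← htot]
    refine (Finset.card_nsmul_le_sum _ _ _ hlow).trans ?_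
    apply Finset.sum_le_sum_of_subset_of_nonneg (Finset.filter_subset _ _)
    intro c _ _
    apply Finset.prod_nonneg
    intro i _
    simp only [hw]
    split_ifs <;> positivity
  have h4 : (1 + τ) ^ n ≤ Real.exp (n * τ) := by
    rw [Real.exp_nat_mul]
    apply pow_le_pow_left₀ (by positivity)
    linarith [Real.add_one_le_exp τ]
  have h5 : Real.log (k / τ) = -Real.log (τ / k) := by
    rw [← Real.log_inv, inv_div]
  rw [← le_div_iff₀ (Real.exp_pos _)] at h3
  refine h3.trans ?_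
  rw [h5, div_le_iff₀ (Real.exp_pos _), ← Real.exp_add]
  refine h4.trans (Real.exp_le_exp.2 (le_of_eq ?_))
  ring

/-- Typical points. -/
def Typ (α lam ε τ : ℝ) (m n : ℕ) (Kc : Set ℝ) : Set ℝ :=
  {x | x ∈ XX α ∧ ∑ j ∈ Finset.range (n + m), phi ((T α)^[j] x) ≤ (n + m : ℕ) * (lam + ε) ∧
    ∑ j ∈ Finset.range n, Set.indicator Kcᶜ (fun _ => (1 : ℝ)) ((T α)^[j] x) ≤ τ * n}

/-- The number of words of typical points. -/
theorem card_words {α : ℝ} {k : ℕ} (hk : 0 < k) (P : ℝ → Fin k) {lam ε τ : ℝ}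
    (hτ : 0 < τ) (hτ1 : τ ≤ 1) {m : ℕ} {Kc : Set ℝ} {C : ℝ} (hC : 0 ≤ C)
    (hPart : ∀ (n : ℕ) (F : Finset ℝ), (∀ x ∈ F, x ∈ XX α) →
      (∀ x ∈ F, ∀ y ∈ F, Same α n x y → x = y) → ∑ x ∈ F, (W α x n) ^ 2 ≤ C)
    (hsep : ∀ x ∈ Kc ∩ XX α, ∀ y ∈ Kc ∩ XX α, Same α m x y → P x = P y)
    (n : ℕ) (V : Finset (Fin n → Fin k))
    (hV : ∀ v ∈ V, ∃ x ∈ Typ α lam ε τ m n Kc, (fun i : Fin n => P ((T α)^[(i : ℕ)] x)) = v) :
    (V.card : ℝ) ≤ Real.exp (n * (τ * Real.log (k / τ) + τ)) *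
      (C * Real.exp ((n + m : ℕ) * (lam + ε))) := by
  classical
  choose! xs hxs hword using hV
  set c : (Fin n → Fin k) → (Fin n → Option (Fin k)) := fun v i =>
    if (T α)^[(i : ℕ)] (xs v) ∈ Kc then none else some (P ((T α)^[(i : ℕ)] (xs v))) with hc
  set R := (Finset.univ.filter fun c : Fin n → Option (Fin k) =>
      ((Finset.univ.filter fun i => c i ≠ none).card : ℝ) ≤ τ * n) with hR
  have hmaps : (V : Set (Fin n → Fin k)).MapsTo c R := by
    intro v hv
    have hT := (hxs v hv).2.2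
    simp only [hR, Finset.coe_filter, Finset.mem_univ, true_and, mem_ofPred_eq]
    refine le_trans (le_of_eq ?_) hT
    rw [Finset.card_filter, Nat.cast_sum]
    rw [← Fin.sum_univ_eq_sum_range (fun j => Set.indicator Kcᶜ (fun _ => (1 : ℝ))
      ((T α)^[j] (xs v)))]
    apply Finset.sum_congr rfl
    intro i _
    simp only [hc]
    by_cases h : (T α)^[(i : ℕ)] (xs v) ∈ Kc
    · simp [h]
    · simp [h]
  rw [Finset.card_eq_sum_card_fiberwise hmaps, Nat.cast_sum]
  have hfib : ∀ b ∈ R, (((V.filter fun v => c v = b).card : ℕ) : ℝ) ≤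
      C * Real.exp ((n + m : ℕ) * (lam + ε)) := by
    intro b _
    set S := V.filter fun v => c v = b with hS
    have hinj : Set.InjOn xs S := by
      intro v hv v' hv' h
      rw [← hword v (Finset.mem_filter.1 hv).1, ← hword v' (Finset.mem_filter.1 hv').1, h]
    have h1 := hPart (n + m) (S.image xs) (by
        intro x hx
        obtain ⟨v, hv, rfl⟩ := Finset.mem_image.1 hx
        exact (hxs v (Finset.mem_filter.1 hv).1).1) (by
        intro x hx y hy hxy
        obtain ⟨v, hv, rfl⟩ := Finset.mem_image.1 hx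
        obtain ⟨v', hv', rfl⟩ := Finset.mem_image.1 hy
        obtain ⟨hvV, hvb⟩ := Finset.mem_filter.1 hv
        obtain ⟨hvV', hvb'⟩ := Finset.mem_filter.1 hv'
        have hvv : v = v' := by
          rw [← hword v hvV, ← hword v' hvV']
          funext i
          have hi : c v i = c v' i := by rw [hvb, hvb']
          simp only [hc] at hi
          by_cases h : (T α)^[(i : ℕ)] (xs v) ∈ Kc
          · by_cases h' : (T α)^[(i : ℕ)] (xs v') ∈ Kc
            · refine hsep _ ⟨h, XX_iter (hxs v hvV).1 _⟩ _ ⟨h', XX_iter (hxs v' hvV').1 _⟩ ?_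
              have hxy' : Same α ((i : ℕ) + m) (xs v) (xs v') :=
                Same_mono (by omega) hxy
              exact (Same_add.1 hxy').2
            · rw [if_pos h, if_neg h'] at hi
              exact absurd hi (by simp)
          · by_cases h' : (T α)^[(i : ℕ)] (xs v') ∈ Kc
            · rw [if_neg h, if_pos h'] at hi
              exact absurd hi (by simp)
            · rw [if_neg h, if_neg h'] at hi
              exact Option.some.inj hi
        rw [hvv])
    rw [Finset.sum_image hinj] at h1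
    have h2 : ∀ v ∈ S, Real.exp (-((n + m : ℕ) * (lam + ε))) ≤ W α (xs v) (n + m) ^ 2 := by
      intro v hv
      have hT := hxs v (Finset.mem_filter.1 hv).1
      rw [W_sq hT.1, Real.exp_le_exp]
      linarith [hT.2.1]
    have h3 := (Finset.card_nsmul_le_sum _ _ _ h2).trans h1
    rw [nsmul_eq_mul, Real.exp_neg, ← div_eq_mul_inv, div_le_iff₀ (Real.exp_pos _)] at h3
    exact h3
  refine (Finset.sum_le_sum hfib).trans ?_
  rw [Finset.sum_const, nsmul_eq_mul]
  exact mul_le_mul_of_nonneg_right (card_few hk hτ hτ1 n) (by positivity)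

/-- The small parameter. -/
theorem exists_tau {k : ℕ} (hk : 0 < k) {η : ℝ} (hη : 0 < η) :
    ∃ τ : ℝ, 0 < τ ∧ τ ≤ 1 / 2 ∧ τ * Real.log (k / τ) + τ + τ * Real.log k < η := by
  have hk' : (0 : ℝ) < k := by exact_mod_cast hk
  have hc : Continuous fun t : ℝ => t * Real.log k + Real.negMulLog t + t + t * Real.log k := by
    have := Real.continuous_negMulLog
    fun_prop
  have h0 := hc.tendsto 0
  simp only [zero_mul, Real.negMulLog_zero, add_zero] at h0
  have h1 : ∀ᶠ t in 𝓝[>] (0 : ℝ),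
      t * Real.log k + Real.negMulLog t + t + t * Real.log k < η :=
    (h0.mono_left nhdsWithin_le_nhds).eventually (gt_mem_nhds hη)
  have h2 : ∀ᶠ t in 𝓝[>] (0 : ℝ), t < 1 / 2 :=
    nhdsWithin_le_nhds (gt_mem_nhds (by norm_num))
  obtain ⟨τ, ⟨h3, h4⟩, h5⟩ := ((h1.and h2).and self_mem_nhdsWithin).exists
  have h5' : (0 : ℝ) < τ := h5
  refine ⟨τ, h5', h4.le, ?_⟩
  rw [Real.log_div hk'.ne' h5'.ne']
  unfold Real.negMulLog at h3
  linarith

/-- Approximation of a partition by separated sets. -/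
theorem exists_Kc (hW3 : Stmt_W3) (hD : Stmt_Dist) {α : ℝ} (h : Par α) {μ : Measure ℝ}
    [IsProbabilityMeasure μ] {k : ℕ} (hk : 0 < k) (P : ℝ → Fin k) (hP : Measurable P) {τ : ℝ}
    (hτ : 0 < τ) : ∃ (Kc : Set ℝ) (m : ℕ), MeasurableSet Kc ∧ μ Kcᶜ ≤ ENNReal.ofReal (τ / 2) ∧
    ∀ x ∈ Kc ∩ XX α, ∀ y ∈ Kc ∩ XX α, Same α m x y → P x = P y := by
  have hk' : (0 : ℝ) < k := by exact_mod_cast hk
  have hex : ∀ i : Fin k, ∃ K ⊆ P ⁻¹' {i}, IsCompact K ∧
      μ (P ⁻¹' {i} \ K) < ENNReal.ofReal (τ / (2 * k)) := fun i =>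
    (hP (measurableSet_singleton i)).exists_isCompact_sdiff_lt (measure_ne_top _ _)
      (by simp only [ne_eq, ENNReal.ofReal_eq_zero, not_le]; positivity)
  choose K hKs hKc hKμ using hex
  have hm : ∀ i j : Fin k, ∃ m : ℕ, i ≠ j → ∀ x ∈ K i ∩ XX α, ∀ y ∈ K j ∩ XX α,
      ¬ Same α m x y := by
    intro i j
    by_cases hij : i = j
    · exact ⟨0, fun h' => absurd hij h'⟩
    · obtain ⟨m, hm⟩ := sep hW3 hD h (hKc i) (hKc j) (by
        rw [Set.disjoint_left]
        intro x hx hx'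
        have h1 : P x = i := hKs i hx
        have h2 : P x = j := hKs j hx'
        exact hij (h1.symm.trans h2))
      exact ⟨m, fun _ => hm⟩
  choose m hm using hm
  refine ⟨⋃ i, K i, ∑ i, ∑ j, m i j, ?_, ?_, ?_⟩
  · exact MeasurableSet.iUnion fun i => (hKc i).measurableSet
  · have hsub : (⋃ i, K i)ᶜ ⊆ ⋃ i, (P ⁻¹' {i} \ K i) := by
      intro x hx
      rw [mem_iUnion]
      exact ⟨P x, rfl, fun h' => hx (mem_iUnion.2 ⟨P x, h'⟩)⟩
    calc μ (⋃ i, K i)ᶜ ≤ μ (⋃ i, (P ⁻¹' {i} \ K i)) := measure_mono hsub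
      _ ≤ ∑ i, μ (P ⁻¹' {i} \ K i) := measure_iUnion_fintype_le _ _
      _ ≤ ∑ _i : Fin k, ENNReal.ofReal (τ / (2 * k)) := Finset.sum_le_sum fun i _ => (hKμ i).le
      _ = ENNReal.ofReal (τ / 2) := by
        rw [Finset.sum_const, Finset.card_univ, Fintype.card_fin, nsmul_eq_mul,
          ← ENNReal.ofReal_natCast, ← ENNReal.ofReal_mul (by positivity)]
        congr 1
        field_simp
  · rintro x ⟨hx, hxX⟩ y ⟨hy, hyX⟩ hS
    obtain ⟨i, hi⟩ := mem_iUnion.1 hx
    obtain ⟨j, hj⟩ := mem_iUnion.1 hy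
    have h1 : P x = i := hKs i hi
    have h2 : P y = j := hKs j hj
    rw [h1, h2]
    by_contra hij
    refine hm i j hij x ⟨hi, hxX⟩ y ⟨hj, hyX⟩ (Same_mono ?_ hS)
    calc m i j ≤ ∑ j, m i j := Finset.single_le_sum (fun _ _ => Nat.zero_le _) (Finset.mem_univ j)
      _ ≤ ∑ i, ∑ j, m i j := Finset.single_le_sum (f := fun i => ∑ j, m i j)
          (fun _ _ => Nat.zero_le _) (Finset.mem_univ i)

/-- The join entropies grow at most like the Lyapunov exponent. -/
theorem join_le (hW3 : Stmt_W3) (hD : Stmt_Dist) (hP : Stmt_Part) (hE : Stmt_EntUp)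
    (hMean : Stmt_Mean) {α : ℝ} (hα : Par α) {μ : Measure ℝ} (hμ : ACIP α μ)
    (hErg : Ergodic (T α) μ) (hint : Integrable phi μ) {k : ℕ} (P : ℝ → Fin k)
    (hPm : Measurable P) {η : ℝ} (hη : 0 < η) :
    ∀ᶠ n : ℕ in atTop, joinEntropy μ (T α) P n ≤ n * (∫ x, phi x ∂μ + η) := by
  classical
  have := hμ.prob
  have hk : 0 < k := Fin.pos (P 0)
  set lam := ∫ x, phi x ∂μ with hlam
  obtain ⟨τ, hτ, hτ2, hτη⟩ := exists_tau hk (show 0 < η / 3 by positivity)
  obtain ⟨Kc, m, hKm, hKμ, hsep⟩ := exists_Kc hW3 hD hα (μ := μ) hk P hPm hτ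
  obtain ⟨C, hC⟩ := hP α hα
  set C' := max C 1 with hC'
  have hC'1 : 1 ≤ C' := le_max_right _ _
  have hPart : ∀ (n : ℕ) (F : Finset ℝ), (∀ x ∈ F, x ∈ XX α) →
      (∀ x ∈ F, ∀ y ∈ F, Same α n x y → x = y) → ∑ x ∈ F, (W α x n) ^ 2 ≤ C' :=
    fun n F h1 h2 => (hC n F h1 h2).trans (le_max_left _ _)
  -- ergodic averages
  set ε := η / 3 with hε
  have hε0 : 0 < ε := by positivity
  have hb1 := tendstoInMeasure_iff_norm.1 (hMean ℝ μ (T α) hErg phi hint) ε hε0
  have hi2 : Integrable (Set.indicator Kcᶜ (fun _ => (1 : ℝ))) μ :=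
    (integrable_const 1).indicator hKm.compl
  have hb2 := tendstoInMeasure_iff_norm.1 (hMean ℝ μ (T α) hErg _ hi2) (τ / 2) (by positivity)
  have hI2 : ∫ x, Set.indicator Kcᶜ (fun _ => (1 : ℝ)) x ∂μ ≤ τ / 2 := by
    rw [integral_indicator_const _ hKm.compl, smul_eq_mul, mul_one, Measure.real]
    exact ENNReal.toReal_le_of_le_ofReal (by positivity) hKμ
  have hτ4 : (0 : ℝ≥0∞) < ENNReal.ofReal (τ / 2) := by
    rw [ENNReal.ofReal_pos]; positivity
  have he1 := (tendsto_add_atTop_iff_nat m).2 hb1 |>.eventually (gt_mem_nhds hτ4)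
  have he2 := hb2.eventually (gt_mem_nhds hτ4)
  obtain ⟨n₀, hn₀⟩ := exists_nat_gt ((Real.log 2 + Real.log C' + m * (lam + ε)) / (η / 3))
  filter_upwards [he1, he2, eventually_ge_atTop n₀, eventually_gt_atTop 0] with n h1 h2 h3 h4
  have hn0 : (0 : ℝ) < n := by exact_mod_cast h4
  set V : Finset (Fin n → Fin k) := Finset.univ.filter fun v =>
    ∃ x ∈ Typ α lam ε τ m n Kc, (fun i : Fin n => P ((T α)^[(i : ℕ)] x)) = v with hV
  have hTyp : μ (Typ α lam ε τ m n Kc)ᶜ ≤ ENNReal.ofReal τ := by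
    have hsub : (Typ α lam ε τ m n Kc)ᶜ ⊆ (XX α)ᶜ ∪
        ({x | ε ≤ ‖(∑ j ∈ Finset.range (n + m), phi ((T α)^[j] x)) / ((n + m : ℕ) : ℝ) - lam‖} ∪
        {x | τ / 2 ≤ ‖(∑ j ∈ Finset.range n, Set.indicator Kcᶜ (fun _ => (1 : ℝ))
          ((T α)^[j] x)) / (n : ℝ) - ∫ x, Set.indicator Kcᶜ (fun _ => (1 : ℝ)) x ∂μ‖}) := by
      intro x hx
      by_contra hcon
      simp only [mem_union, mem_compl_iff, mem_ofPred_eq, not_or, not_le, not_not] at hcon
      obtain ⟨hX, ha, hb⟩ := hcon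
      apply hx
      refine ⟨hX, ?_, ?_⟩
      · have hnm : (0 : ℝ) < ((n + m : ℕ) : ℝ) := by positivity
        have h5 := (abs_lt.1 ha).2
        have h6 : (∑ j ∈ Finset.range (n + m), phi ((T α)^[j] x)) / ((n + m : ℕ) : ℝ) <
          lam + ε := by linarith
        rw [div_lt_iff₀ hnm] at h6
        linarith
      · have h5 := (abs_lt.1 hb).2
        have h6 : (∑ j ∈ Finset.range n, Set.indicator Kcᶜ (fun _ => (1 : ℝ))
          ((T α)^[j] x)) / (n : ℝ) < τ := by linarith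
        rw [div_lt_iff₀ hn0] at h6
        linarith
    have hX0 : μ (XX α)ᶜ = 0 := hμ.ae_XX
    calc μ (Typ α lam ε τ m n Kc)ᶜ ≤ _ := measure_mono hsub
      _ ≤ μ (XX α)ᶜ + (_ + _) := (measure_union_le _ _).trans
          (add_le_add le_rfl (measure_union_le _ _))
      _ ≤ 0 + (ENNReal.ofReal (τ / 2) + ENNReal.ofReal (τ / 2)) :=
          add_le_add hX0.le (add_le_add h1.le h2.le)
      _ = ENNReal.ofReal τ := by
          rw [zero_add, ← ENNReal.ofReal_add (by positivity) (by positivity)]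
          congr 1
          ring
  have hbad : μ.real {x | (fun i : Fin n => P ((T α)^[(i : ℕ)] x)) ∉ V} ≤ τ := by
    have hsub : {x | (fun i : Fin n => P ((T α)^[(i : ℕ)] x)) ∉ V} ⊆
        (Typ α lam ε τ m n Kc)ᶜ := by
      intro x hx hT
      apply hx
      rw [hV, Finset.mem_filter]
      exact ⟨Finset.mem_univ _, x, hT, rfl⟩
    exact ENNReal.toReal_le_of_le_ofReal hτ.le ((measure_mono hsub).trans hTyp)
  have hVne : V.Nonempty := by
    by_contra hne
    rw [Finset.not_nonempty_iff_eq_empty] at hne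
    rw [hne] at hbad
    simp only [Finset.notMem_empty, not_false_eq_true, ofPred_true] at hbad
    have h1' : μ.real univ = 1 := by simp [Measure.real]
    rw [h1'] at hbad
    linarith
  have hVc := card_words hk P hτ (by linarith) (le_trans zero_le_one hC'1) hPart hsep n V (by
    intro v hv
    rw [hV, Finset.mem_filter] at hv
    exact hv.2)
  have hV1 : (0 : ℝ) < V.card := by exact_mod_cast hVne.card_pos
  have hlog : Real.log V.card ≤ n * (τ * Real.log (k / τ) + τ) +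
      (Real.log C' + (n + m : ℕ) * (lam + ε)) := by
    have h5 := Real.log_le_log hV1 hVc
    rw [Real.log_mul (Real.exp_pos _).ne' (by positivity), Real.log_exp,
      Real.log_mul (by positivity) (Real.exp_pos _).ne', Real.log_exp] at h5
    exact h5
  have hfin := hE ℝ μ (T α) (measurable_T α) k P hPm n V τ hVne hbad
  have hn₀' : (Real.log 2 + Real.log C' + m * (lam + ε)) ≤ (η / 3) * n := by
    have h5 : (n₀ : ℝ) ≤ n := by exact_mod_cast h3
    have h6 := hn₀.trans_le h5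
    rw [div_lt_iff₀ (by positivity)] at h6
    linarith
  refine hfin.trans ?_
  push_cast at hlog
  have h7 : (n : ℝ) * (τ * Real.log (k / τ) + τ + τ * Real.log k) ≤ n * (η / 3) :=
    mul_le_mul_of_nonneg_left hτη.le hn0.le
  nlinarith [hlog, h7, hn₀', hε]

end

end Pool.Agent.TI.Up

namespace Pool.Agent.TI

open Up

/-- The upper half of Rokhlin's formula. -/
theorem up_proof (hW3 : Stmt_W3) (hD : Stmt_Dist) (hP : Stmt_Part) (hE : Stmt_EntUp)
    (hErg : Stmt_Erg) (hMean : Stmt_Mean) : Stmt_Up := by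
  intro α μ hα hμ
  have := hμ.prob
  by_cases htop : lyap μ = ⊤
  · rw [htop]; exact le_top
  have hae : 0 ≤ᵐ[μ] phi := hμ.ae_XX.mono fun x hx => phi_nonneg hα hx
  have hint : Integrable phi μ := by
    refine ⟨measurable_phi.aestronglyMeasurable, ?_⟩
    rw [hasFiniteIntegral_iff_ofReal hae]
    exact lt_top_iff_ne_top.2 htop
  have hlam : lyap μ = ENNReal.ofReal (∫ x, phi x ∂μ) :=
    (ofReal_integral_eq_lintegral_ofReal hint hae).symm
  have hlam0 : 0 ≤ ∫ x, phi x ∂μ := integral_nonneg_of_ae hae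
  rw [hlam]
  unfold ksEntropy
  refine iSup_le fun k => iSup_le fun P => iSup_le fun hPm => ?_
  refine ENNReal.le_of_forall_pos_le_add ?_
  intro η hη _
  have hη' : (0 : ℝ) < η := hη
  have h1 := join_le hW3 hD hP hE hMean hα hμ (hErg α μ hα hμ).1 hint P hPm hη'
  refine Filter.limsup_le_of_le (by isBoundedDefault) ?_
  filter_upwards [h1, eventually_gt_atTop 0] with n hn hn0
  have hn' : (0 : ℝ) < n := by exact_mod_cast hn0
  calc ENNReal.ofReal (joinEntropy μ (T α) P n / n)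
      ≤ ENNReal.ofReal (∫ x, phi x ∂μ + η) := by
        apply ENNReal.ofReal_le_ofReal
        rw [div_le_iff₀ hn']
        linarith
    _ = ENNReal.ofReal (∫ x, phi x ∂μ) + η := by
        rw [ENNReal.ofReal_add hlam0 hη'.le, ENNReal.ofReal_coe_nnreal]

end Pool.Agent.TI
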