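import Pool.Agent.TI.W3
import Pool.Agent.TI.Dist
import Pool.Agent.TI.Cover
import Pool.Agent.TI.Push
import Pool.Agent.TI.Part
import Pool.Agent.TI.Fae
import Pool.Agent.TI.Fill
import Pool.Agent.TI.Erg
import Pool.Agent.TI.Mean
import Pool.Agent.TI.EntUp
import Pool.Agent.TI.EntLow
import Pool.Agent.TI.Star
import Pool.Agent.TI.Low
import Pool.Agent.TI.Up
import Pool.Agent.TI.Mono
import Pool.Agent.TI.Exist

/-!
# Tanaka–Ito maps: assembly (MP_0c85a0_an)
-/

open MeasureTheory Set Filter Topology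

namespace Pool.Agent.TI

theorem dist_all : Stmt_Dist := dist_proof w3_proof
theorem push_all : Stmt_Push := push_proof dist_all
theorem part_all : Stmt_Part := part_proof w3_proof cover_proof push_all
theorem star_all : Stmt_Star := star_proof dist_all push_all
theorem fullAE_all : Stmt_FullAE := fullAE_proof w3_proof cover_proof push_all
theorem fill_all : Stmt_Fill := fill_proof w3_proof dist_all push_all fullAE_all
theorem erg_all : Stmt_Erg := erg_proof fill_all
theorem low_all : Stmt_Low := low_proof mean_proof entlow_proof star_all erg_all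
theorem up_all : Stmt_Up := up_proof w3_proof dist_all part_all entUp_proof erg_all mean_proof
theorem mono_all : Stmt_Mono := mono_proof erg_all mean_proof
theorem main_all : Stmt_Main := Main_proof low_all up_all mono_all

theorem par_of_mem {α : ℝ} (h : α ∈ Icc ((Real.sqrt 5 - 1) / 2) 1) : Par α := by
  have h5 : (2 : ℝ) ≤ Real.sqrt 5 := by
    rw [show (2 : ℝ) = Real.sqrt 4 by rw [show (4 : ℝ) = 2 ^ 2 by norm_num]; simp]
    exact Real.sqrt_le_sqrt (by norm_num)
  have h5' : Real.sqrt 5 ^ 2 = 5 := Real.sq_sqrt (by norm_num)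
  obtain ⟨h1, h2⟩ := h
  refine ⟨by linarith, ?_, h2⟩
  have h6 : 0 ≤ (Real.sqrt 5 - 1) / 2 := by linarith
  have h7 : ((Real.sqrt 5 - 1) / 2) ^ 2 ≤ α ^ 2 := pow_le_pow_left₀ h6 h1 2
  nlinarith

theorem antitone_all : ∃ μ : ℝ → Measure ℝ,
    (∀ α ∈ Icc ((Real.sqrt 5 - 1) / 2) 1, ACIP α (μ α) ∧ ∀ ν, ACIP α ν → ν = μ α) ∧
      AntitoneOn (fun α => ksEntropy (μ α) (T α)) (Icc ((Real.sqrt 5 - 1) / 2) 1) := by
  classical
  have h : ∀ α : ℝ, ∃ μ : Measure ℝ, α ∈ Icc ((Real.sqrt 5 - 1) / 2) 1 → ACIP α μ := by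
    intro α
    by_cases hα : α ∈ Icc ((Real.sqrt 5 - 1) / 2) 1
    · obtain ⟨μ, hμ⟩ := exist_proof push_all part_all α (par_of_mem hα)
      exact ⟨μ, fun _ => hμ⟩
    · exact ⟨0, fun h => absurd h hα⟩
  choose μ hμ using h
  refine ⟨μ, fun α hα => ⟨hμ α hα, fun ν hν => uniq_proof erg_all α (μ α) ν (par_of_mem hα) (hμ α hα) hν⟩, ?_⟩
  intro α hα β hβ hαβ
  exact main_all α β hα.1 hαβ hβ.2 (μ α) (μ β) (hμ α hα) (hμ β hβ)

end Pool.Agent.TI
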