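import Pool.Agent.TI.Defs

/-!
# Tanaka–Ito maps: exact statements of the modules (MP_0c85a0_an)

Paper proofs: /team-store/MP_0c85a0_PROOF.md.  A module may take any other `Stmt_*` as a hypothesis.
-/

open MeasureTheory Set Filter Topology
open scoped ENNReal

namespace Pool.Agent.TI

noncomputable section

/-- W3 -/
def Stmt_W3 : Prop := ∀ α x : ℝ, Par α → x ∈ XX α → W α x 3 ≤ 1 / 3

/-- DIST: points of the same cylinder -/
def Stmt_Dist : Prop :=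
  ∀ (α : ℝ) (n : ℕ) (x y : ℝ), Par α → x ∈ XX α → y ∈ XX α → Same α n x y →
    |x - y| = |(T α)^[n] x - (T α)^[n] y| * W α x n * W α y n ∧ W α x n ≤ 64 * W α y n

/-- COVER: points which are never full up to time `n` lie in `2^n` cylinders of rank `n` -/
def Stmt_Cover : Prop :=
  ∀ α : ℝ, Par α → ∀ n : ℕ, ∃ 𝒲 : Finset (Fin n → ℤ), 𝒲.card ≤ 2 ^ n ∧
    ∀ x ∈ XX α, (∀ m, 1 ≤ m → m ≤ n → ¬ Full α m x) → (fun j : Fin n => dig α ((T α)^[(j : ℕ)] x)) ∈ 𝒲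

/-- PUSH: measure of `C ∩ T^{-n} E` for a cylinder `C`, both directions -/
def Stmt_Push : Prop :=
  ∀ (α : ℝ) (n : ℕ) (x : ℝ) (E : Set ℝ), Par α → x ∈ XX α → MeasurableSet E → E ⊆ XX α →
    volume {y | y ∈ XX α ∧ Same α n x y ∧ (T α)^[n] y ∈ E} ≤ ENNReal.ofReal ((64 * W α x n) ^ 2) * volume E ∧
    (Full α n x →
      ENNReal.ofReal ((W α x n / 64) ^ 2) * volume E ≤ volume {y | y ∈ XX α ∧ Same α n x y ∧ (T α)^[n] y ∈ E})

/-- PART: the partition function is bounded -/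
def Stmt_Part : Prop :=
  ∀ α : ℝ, Par α → ∃ C : ℝ, ∀ (n : ℕ) (F : Finset ℝ), (∀ x ∈ F, x ∈ XX α) →
    (∀ x ∈ F, ∀ y ∈ F, Same α n x y → x = y) → ∑ x ∈ F, (W α x n) ^ 2 ≤ C

/-- FAE: almost every point is full infinitely often -/
def Stmt_FullAE : Prop :=
  ∀ α : ℝ, Par α → ∀ᵐ x ∂(volume : Measure ℝ), x ∈ XX α → ∀ N : ℕ, ∃ n ≥ N, Full α n x

/-- FILL: a set of positive measure which is mapped into itself has full measure -/
def Stmt_Fill : Prop :=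
  ∀ α : ℝ, Par α → ∀ S : Set ℝ, MeasurableSet S → 0 < volume (S ∩ XX α) →
    volume ((S ∩ XX α) \ (T α) ⁻¹' S) = 0 → volume (XX α \ S) = 0

/-- ERG -/
def Stmt_Erg : Prop :=
  ∀ (α : ℝ) (μ : Measure ℝ), Par α → ACIP α μ → Ergodic (T α) μ ∧ volume.restrict (XX α) ≪ μ

/-- MEAN (general): ergodic averages converge in measure -/
def Stmt_Mean : Prop :=
  ∀ (X : Type) [MeasurableSpace X] (μ : Measure X) [IsProbabilityMeasure μ] (S : X → X), Ergodic S μ →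
    ∀ f : X → ℝ, Integrable f μ →
      TendstoInMeasure μ (fun (n : ℕ) x => (∑ j ∈ Finset.range n, f (S^[j] x)) / n) atTop
        (fun _ => ∫ x, f x ∂μ)

/-- ENTUP (general) -/
def Stmt_EntUp : Prop :=
  ∀ (X : Type) [MeasurableSpace X] (μ : Measure X) [IsProbabilityMeasure μ] (S : X → X), Measurable S →
    ∀ (k : ℕ) (P : X → Fin k), Measurable P → ∀ (n : ℕ) (V : Finset (Fin n → Fin k)) (δ : ℝ), V.Nonempty →
      μ.real {x | (fun i : Fin n => P (S^[(i : ℕ)] x)) ∉ V} ≤ δ →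
      joinEntropy μ S P n ≤ Real.log 2 + Real.log V.card + δ * n * Real.log k

/-- ENTLOW (general) -/
def Stmt_EntLow : Prop :=
  ∀ (X : Type) [MeasurableSpace X] (μ : Measure X) [IsProbabilityMeasure μ] (S : X → X), Measurable S →
    ∀ (k : ℕ) (P : X → Fin k), Measurable P → ∀ (n : ℕ) (h ε : ℝ), 0 < n → 0 ≤ h → 0 < ε →
      joinEntropy μ S P n ≤ n * h →
      ∃ V : Finset (Fin n → Fin k), (V.card : ℝ) ≤ Real.exp (n * (h + ε)) ∧
        ε / (h + ε) ≤ μ.real {x | (fun i : Fin n => P (S^[(i : ℕ)] x)) ∈ V}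

/-- STAR: measure of the cylinders of the truncated digit partition -/
def Stmt_Star : Prop :=
  ∀ α : ℝ, Par α → ∀ K : ℕ, 1 ≤ K → ∀ (n : ℕ) (x : ℝ), x ∈ XX α →
    volume {y | y ∈ XX α ∧ SameK α K n x y}
      ≤ ENNReal.ofReal (2 ^ 12 * ∏ j ∈ Finset.range n, wK α K ((T α)^[j] x))

/-- LOW: one half of Rokhlin's formula -/
def Stmt_Low : Prop := ∀ (α : ℝ) (μ : Measure ℝ), Par α → ACIP α μ → lyap μ ≤ ksEntropy μ (T α)

/-- UP: the other half of Rokhlin's formula -/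
def Stmt_Up : Prop := ∀ (α : ℝ) (μ : Measure ℝ), Par α → ACIP α μ → ksEntropy μ (T α) ≤ lyap μ

/-- MONO: the Lyapunov exponent is non-increasing in the parameter -/
def Stmt_Mono : Prop :=
  ∀ (α β : ℝ) (μ ν : Measure ℝ), Par α → Par β → α ≤ β → ACIP α μ → ACIP β ν → lyap ν ≤ lyap μ

/-- the main theorem -/
def Stmt_Main : Prop :=
  ∀ α β : ℝ, (Real.sqrt 5 - 1) / 2 ≤ α → α ≤ β → β ≤ 1 → ∀ μ ν : Measure ℝ, ACIP α μ → ACIP β ν →
    ksEntropy ν (T β) ≤ ksEntropy μ (T α)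

theorem Main_proof (h1 : Stmt_Low) (h2 : Stmt_Up) (h3 : Stmt_Mono) : Stmt_Main := by
  intro α β hα hαβ hβ μ ν hμ hν
  have h5 : (2 : ℝ) ≤ Real.sqrt 5 := by
    rw [show (2 : ℝ) = Real.sqrt 4 by rw [show (4 : ℝ) = 2 ^ 2 by norm_num]; simp]
    exact Real.sqrt_le_sqrt (by norm_num)
  have h5' : Real.sqrt 5 ^ 2 = 5 := Real.sq_sqrt (by norm_num)
  have p1 : ∀ γ : ℝ, (Real.sqrt 5 - 1) / 2 ≤ γ → γ ≤ 1 → Par γ := by
    intro γ hγ hγ1
    refine ⟨by linarith, ?_, hγ1⟩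
    have h6 : 0 ≤ (Real.sqrt 5 - 1) / 2 := by linarith
    have h7 : ((Real.sqrt 5 - 1) / 2) ^ 2 ≤ γ ^ 2 := pow_le_pow_left₀ h6 hγ 2
    nlinarith
  have pα := p1 α hα (hαβ.trans hβ)
  have pβ := p1 β (hα.trans hαβ) hβ
  exact (h2 β ν pβ hν).trans ((h3 α β μ ν pα pβ hαβ hμ hν).trans (h1 α μ pα hμ))

end

end Pool.Agent.TI
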