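import Pool.Agent.TI.Stmts

/-!
# Tanaka–Ito maps: shared small tools (MP_0c85a0_an)
-/

open MeasureTheory Set Filter Topology
open scoped ENNReal NNReal

namespace Pool.Agent.TI.Tools

open Pool.Agent.TI

theorem measurableSet_Same (α : ℝ) (n : ℕ) (x : ℝ) : MeasurableSet {y | Same α n x y} := by
  have : {y | Same α n x y} = ⋂ j : ℕ, ⋂ _ : j < n, (fun y => dig α ((T α)^[j] y)) ⁻¹' {dig α ((T α)^[j] x)} := by
    ext y
    simp only [Same, mem_ofPred_eq, mem_iInter, mem_preimage, mem_singleton_iff]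
    exact forall_congr' fun j => forall_congr' fun hj => eq_comm
  rw [this]
  refine MeasurableSet.iInter fun j => MeasurableSet.iInter fun _ => ?_
  exact ((measurable_dig α).comp ((measurable_T α).iterate j)) (measurableSet_singleton _)

theorem W_le_one {α x : ℝ} (hP : Par α) (hx : x ∈ XX α) (n : ℕ) : W α x n ≤ 1 := by
  have := W_anti (x := x) hP.1 hP.2.2 ⟨hx.1.1.le, hx.1.2⟩ (Nat.zero_le n)
  rwa [W_zero] at this

theorem W_decay (h3 : Stmt_W3) {α : ℝ} (hP : Par α) : ∀ (n : ℕ) (x : ℝ), x ∈ XX α → W α x n ≤ (1 / 3) ^ (n / 3) := by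
  intro n
  induction n using Nat.strong_induction_on with
  | _ n ih =>
    intro x hx
    by_cases hn : n < 3
    · rw [Nat.div_eq_of_lt hn, pow_zero]
      exact W_le_one hP hx n
    · obtain ⟨m, rfl⟩ : ∃ m, n = 3 + m := ⟨n - 3, by omega⟩
      rw [W_add]
      have h1 := h3 α x hP hx
      have h2 := ih m (by omega) ((T α)^[3] x) (XX_iter hx 3)
      have h4 : 0 ≤ W α ((T α)^[3] x) m := (W_pos (XX_irr (XX_iter hx 3)) m).le
      have h5 : (3 + m) / 3 = m / 3 + 1 := by omega
      rw [h5, pow_succ, mul_comm ((1 / 3 : ℝ) ^ (m / 3))]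
      exact mul_le_mul h1 h2 h4 (by norm_num)

end Pool.Agent.TI.Tools
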