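import Pool.Agent.TI.Stmts

set_option autoImplicit false

open MeasureTheory Set Filter Topology

namespace Pool.Agent.TI

/-- `|W x 3| = |z| / |a (b + z) + 1|` -/
theorem w3_proof : Stmt_W3 := by
  intro α x hα hx
  obtain ⟨h0, hg, h1⟩ := hα
  have hy := XX_T hx
  have hz := XX_T hy
  have hx0 := XX_ne hx
  have hy0 := XX_ne hy
  have hz0 := XX_ne hz
  set y := T α x with hyd
  set z := T α y with hzd
  have hW : W α x 3 = |x * y * z| := by
    have : W α x 3 = W α x (1 + (1 + 1)) := rfl
    rw [this, W_add, W_add, W_one, W_one, W_one]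
    simp only [Function.iterate_one]
    rw [abs_mul, abs_mul, mul_assoc]
  rw [hW]
  have ex : x = 1 / ((dig α x : ℝ) + y) := inv_dig
  have ey : y = 1 / ((dig α y : ℝ) + z) := inv_dig
  set a : ℤ := dig α x with ha
  set b : ℤ := dig α y with hb
  have hα2 : (0.618 : ℝ) ≤ α := by nlinarith
  obtain ⟨⟨hx1, hx2⟩, -⟩ := hx
  obtain ⟨⟨hy1, hy2⟩, -⟩ := hy
  obtain ⟨⟨hz1, hz2⟩, -⟩ := hz
  have hay0 : (a : ℝ) + y ≠ 0 := by
    intro h
    rw [h, div_zero] at ex
    exact hx0 ex
  have hbz0 : (b : ℝ) + z ≠ 0 := by
    intro h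
    rw [h, div_zero] at ey
    exact hy0 ey
  have hxay : x * (a + y) = 1 := by
    rw [ex]; field_simp
  have hybz : y * (b + z) = 1 := by
    rw [ey]; field_simp
  have hαs : (-0.382 : ℝ) ≤ α - 1 := by linarith
  rw [abs_mul, abs_mul]
  have hzabs : |z| < 1 := by rw [abs_lt]; constructor <;> linarith
  have hyabs : |y| < 1 := by rw [abs_lt]; constructor <;> linarith
  -- positive points have digit at least one
  have hpos : ∀ (u v : ℝ) (c : ℤ), 0 < u → u < α → v < α → u * (c + v) = 1 → (1 : ℤ) ≤ c := by
    intro u v c hu huα hv huv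
    by_contra hc
    have hc0 : (c : ℝ) ≤ 0 := by
      have : c ≤ 0 := by omega
      exact_mod_cast this
    nlinarith
  rcases lt_or_gt_of_ne hx0 with hxn | hxp
  · -- x < 0
    have hxa : |x| ≤ 0.382 := by rw [abs_of_neg hxn]; linarith
    have hyz : |y| * |z| ≤ 1 / 2 := by
      rcases lt_or_gt_of_ne hy0 with hyn | hyp
      · have : |y| ≤ 0.382 := by rw [abs_of_neg hyn]; linarith
        nlinarith [abs_nonneg y, abs_nonneg z]
      · rcases lt_or_gt_of_ne hz0 with hzn | hzp
        · have : |z| ≤ 0.382 := by rw [abs_of_neg hzn]; linarith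
          nlinarith [abs_nonneg y, abs_nonneg z]
        · rw [abs_of_pos hyp, abs_of_pos hzp]
          have hb1 : (1 : ℤ) ≤ b := hpos y z b hyp hy2 hz2 hybz
          have hb1' : (1 : ℝ) ≤ b := by exact_mod_cast hb1
          have h5 : y * z ≤ 1 - y := by nlinarith
          have h6 : y * z ≤ y := by nlinarith
          linarith
    nlinarith [abs_nonneg x, abs_nonneg y, abs_nonneg z, mul_nonneg (abs_nonneg y) (abs_nonneg z)]
  · -- x > 0
    have ha1 : (1 : ℤ) ≤ a := hpos x y a hxp hx2 hy2 hxay
    have ha1' : (1 : ℝ) ≤ a := by exact_mod_cast ha1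
    have hx1' : x < 1 := by linarith
    have hay1 : 1 < (a : ℝ) + y := by nlinarith
    rcases lt_or_gt_of_ne hy0 with hyn | hyp
    · have ha2 : (2 : ℤ) ≤ a := by
        by_contra hc
        have : a = 1 := by omega
        rw [this] at hay1
        push_cast at hay1
        linarith
      have ha2' : (2 : ℝ) ≤ a := by exact_mod_cast ha2
      have hxx : |x| ≤ 0.62 := by
        rw [abs_of_pos hxp]
        nlinarith
      have hyy : |y| ≤ 0.382 := by rw [abs_of_neg hyn]; linarith
      have h5 : |x| * |y| ≤ 0.62 * 0.382 := mul_le_mul hxx hyy (abs_nonneg _) (by norm_num)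
      have h6 : |x| * |y| * |z| ≤ 0.62 * 0.382 * 1 :=
        mul_le_mul h5 hzabs.le (abs_nonneg _) (by norm_num)
      linarith
    · have hb1 : (1 : ℤ) ≤ b := hpos y z b hyp hy2 hz2 hybz
      have hb1' : (1 : ℝ) ≤ b := by exact_mod_cast hb1
      rw [abs_of_pos hxp, abs_of_pos hyp]
      have hxy1 : x * y ≤ 1 / 2 := by
        -- x (a + y) = 1, a ≥ 1
        have e1 : x * a + x * y = 1 := by rw [← mul_add]; exact hxay
        have e2 : x * 1 ≤ x * a := mul_le_mul_of_nonneg_left ha1' hxp.le
        have e3 : x * y ≤ x * 1 := mul_le_mul_of_nonneg_left (by linarith) hxp.le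
        linarith
      rcases lt_or_gt_of_ne hz0 with hzn | hzp
      · have hzz : |z| ≤ 0.382 := by rw [abs_of_neg hzn]; linarith
        have h6 : x * y * |z| ≤ 1 / 2 * 0.382 :=
          mul_le_mul hxy1 hzz (abs_nonneg _) (by norm_num)
        linarith
      · rw [abs_of_pos hzp]
        -- y = 1 - y (b + z) + y ..., x + x y <= 1, y + y z <= 1
        have e1 : x * a + x * y = 1 := by rw [← mul_add]; exact hxay
        have e2 : x * 1 ≤ x * a := mul_le_mul_of_nonneg_left ha1' hxp.le
        have e4 : y * b + y * z = 1 := by rw [← mul_add]; exact hybz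
        have e5 : y * 1 ≤ y * b := mul_le_mul_of_nonneg_left hb1' hyp.le
        have h5 : x + x * y ≤ 1 := by linarith
        have h6 : y + y * z ≤ 1 := by linarith
        have hz1' : z < 1 := by linarith
        -- x y z (2 + z) <= z
        have h7 : x * y * (2 + z) ≤ 1 := by
          -- x y z ≤ x (1 - y), 2 x y + x y z ≤ x y + x ≤ 1
          have h14 := mul_le_mul_of_nonneg_left h6 hxp.le
          have h15 : x * (y + y * z) = x * y + x * y * z := by ring
          have h16 : x * y * (2 + z) = 2 * (x * y) + x * y * z := by ring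
          rw [h15, mul_one] at h14
          rw [h16]
          linarith
        have h8 : x * y * z * (2 + z) ≤ z := by
          have h12 := mul_le_mul_of_nonneg_right h7 hzp.le
          have h13 : x * y * (2 + z) * z = x * y * z * (2 + z) := by ring
          rw [h13, one_mul] at h12
          exact h12
        have h9 : z ≤ (2 + z) / 3 := by linarith
        have h10 : x * y * z * (2 + z) ≤ (2 + z) / 3 := h8.trans h9
        have h11 : 0 < 2 + z := by linarith
        refine le_of_mul_le_mul_right ?_ h11
        linarith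

end Pool.Agent.TI
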